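import Mathlib

/-!
# Low-eccentricity paths in `{S_k, T_k}`-free graphs: definitions
-/

namespace Pool.Agent.H52.PE

/-- `S k`: the claw `K_{1,3}` with every edge replaced by a path with `k` edges. The centre is
`none`, the `j`-th inner vertex of the `i`-th path (counted from the centre, starting with `0`)
is `some (i, j)`. -/
def S (k : ℕ) : SimpleGraph (Option (Fin 3 × Fin k)) :=
  SimpleGraph.fromRel fun a b => match a, b with
    | none, some x => (x.2 : ℕ) = 0
    | some x, some y => x.1 = y.1 ∧ (y.2 : ℕ) = x.2 + 1
    | _, _ => False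

/-- `T k`: the triangle `K_3` with a path with `k` edges attached at each of its vertices. The
vertices of the triangle are `(i, 0)`, the path at `(i, 0)` is `(i, 0), (i, 1), …, (i, k)`. -/
def T (k : ℕ) : SimpleGraph (Fin 3 × Fin (k + 1)) :=
  SimpleGraph.fromRel fun a b =>
    (a.1 = b.1 ∧ (b.2 : ℕ) = a.2 + 1) ∨ ((a.2 : ℕ) = 0 ∧ (b.2 : ℕ) = 0)

variable {V : Type*} [DecidableEq V]

/-- The subgraph of `G` induced on the finite set `D` contains an induced `S k` or `T k`. -/
def Bad (G : SimpleGraph V) (D : Finset V) (k : ℕ) : Prop :=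
  (∃ e : S k ↪g G, ∀ a, e a ∈ D) ∨ (∃ e : T k ↪g G, ∀ a, e a ∈ D)

/-- The subgraph of `G` induced on the finite set `D` is connected. -/
def Conn (G : SimpleGraph V) (D : Finset V) : Prop :=
  D.Nonempty ∧ ∀ A ⊆ D, A.Nonempty → (∀ a ∈ A, ∀ b ∈ D, G.Adj a b → b ∈ A) → A = D

/-- Every vertex of `U` is in `D` or has a neighbour in `D`. -/
def Dom (G : SimpleGraph V) (U D : Finset V) : Prop :=
  ∀ u ∈ U, u ∈ D ∨ ∃ d ∈ D, G.Adj u d

open Classical in
/-- The number of neighbours of `v` in `D`. -/
noncomputable def deg (G : SimpleGraph V) (D : Finset V) (v : V) : ℕ :=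
  (D.filter (fun u => G.Adj v u)).card

/-- The vertex `v` of degree one is the end of a tail with at least `t` vertices: there are
`t` vertices `v = q₁, q₂, …, q_t` of `D`, consecutive ones adjacent, `v` having degree one and
the others degree two in `D`. -/
def TL (G : SimpleGraph V) : ℕ → Finset V → V → Prop
  | 0, _, _ => True
  | t + 1, D, v => v ∈ D ∧ deg G D v = 1 ∧ ∃ w ∈ D, G.Adj v w ∧ TL G t (D.erase v) w

open Classical in
/-- The potential: component `0` is the number of non-cut vertices, component `t > 0` is the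
number of tails with at least `t` vertices. -/
noncomputable def comp (G : SimpleGraph V) (t : ℕ) (D : Finset V) : ℕ :=
  match t with
  | 0 => (D.filter (fun v => Conn G (D.erase v))).card
  | t + 1 => (D.filter (fun v => TL G (t + 1) D v)).card

end Pool.Agent.H52.PE
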