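import Mathlib
import Pool.Agent.H52.PE.Defs
import Pool.Agent.H87.HC.Corr

/-!
# The graph on `ℕ` given by an edge list
-/

namespace Pool.Agent.H52.PE

open H87.HC

/-- The graph on `ℕ` with edge list `E`. -/
def grN (E : List (ℕ × ℕ)) : SimpleGraph ℕ where
  Adj a b := adj E a b = true
  symm := ⟨fun a b h => by rw [adj_symm]; exact h⟩
  loopless := ⟨fun a h => by rw [adj_self] at h; simp at h⟩

theorem grN_adj {E : List (ℕ × ℕ)} {a b : ℕ} : (grN E).Adj a b ↔ adj E a b = true := Iff.rfl

end Pool.Agent.H52.PE
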