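import Mathlib
import Pool.Agent.H52.PE.Gr
import Pool.Agent.H87.HC.AlgoPT

/-!
# The tests of the algorithm: connectivity, domination, tails, potential
-/

namespace Pool.Agent.H52.PE

open Pool.Agent.PPS H87.HC Pool.Agent.H87.PMCSP

/-- One step of the search inside `D`. -/
def growD (E : List (ℕ × ℕ)) (D A : List ℕ) : List ℕ :=
  D.filter (fun v => decide (v ∈ A) || A.any (fun u => adj E u v))

/-- The subgraph induced on `D` is connected. -/
def connD (E : List (ℕ × ℕ)) (D : List ℕ) : Bool :=
  !decide (D = []) && D.all (fun v => decide (v ∈ (growD E D)^[D.length] (D.take 1)))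

/-- `D` dominates `U`. -/
def domD (E : List (ℕ × ℕ)) (U D : List ℕ) : Bool :=
  U.all (fun u => decide (u ∈ D) || D.any (fun d => adj E u d))

/-- The number of neighbours in `D`. -/
def degD (E : List (ℕ × ℕ)) (D : List ℕ) (v : ℕ) : ℕ := (D.filter (fun u => adj E v u)).length

/-- Delete a vertex. -/
def delD (D : List ℕ) (v : ℕ) : List ℕ := D.filter (fun u => !decide (u = v))

/-- Tails. -/
def tlD (E : List (ℕ × ℕ)) : ℕ → List ℕ → ℕ → Bool
  | 0, _, _ => true
  | t + 1, D, v => decide (v ∈ D) && decide (degD E D v = 1) &&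
      D.any (fun w => adj E v w && tlD E t (delD D v) w)

/-- The potential. -/
def compD (E : List (ℕ × ℕ)) (t : ℕ) (D : List ℕ) : ℕ :=
  match t with
  | 0 => (D.filter (fun v => connD E (delD D v))).length
  | t + 1 => (D.filter (fun v => tlD E (t + 1) D v)).length

theorem mem_growD {E : List (ℕ × ℕ)} {D A : List ℕ} {v : ℕ} :
    v ∈ growD E D A ↔ v ∈ D ∧ (v ∈ A ∨ ∃ u ∈ A, adj E u v = true) := by
  simp [growD, List.mem_filter, List.any_eq_true]

/-- The finset form of one step. -/
def stepF (E : List (ℕ × ℕ)) (D A : Finset ℕ) : Finset ℕ :=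
  D.filter (fun v => v ∈ A ∨ ∃ u ∈ A, adj E u v = true)

theorem growD_toFinset (E : List (ℕ × ℕ)) (D A : List ℕ) :
    (growD E D A).toFinset = stepF E D.toFinset A.toFinset := by
  ext v
  simp [mem_growD, stepF]

theorem growD_iterate_toFinset (E : List (ℕ × ℕ)) (D A : List ℕ) (k : ℕ) :
    ((growD E D)^[k] A).toFinset = (stepF E D.toFinset)^[k] A.toFinset := by
  induction k with
  | zero => rfl
  | succ k ih => rw [Function.iterate_succ_apply', Function.iterate_succ_apply',
      growD_toFinset, ih]

theorem stepF_subset (E : List (ℕ × ℕ)) (D A : Finset ℕ) : stepF E D A ⊆ D :=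
  Finset.filter_subset _ _

theorem subset_stepF (E : List (ℕ × ℕ)) {D A : Finset ℕ} (h : A ⊆ D) : A ⊆ stepF E D A :=
  fun _ ha => Finset.mem_filter.2 ⟨h ha, Or.inl ha⟩

theorem iterate_subset {g : Finset ℕ → Finset ℕ} {D A : Finset ℕ} (hg : ∀ B ⊆ D, g B ⊆ D)
    (hA : A ⊆ D) (k : ℕ) : g^[k] A ⊆ D := by
  induction k with
  | zero => exact hA
  | succ k ih => rw [Function.iterate_succ_apply']; exact hg _ ih

theorem iterate_stable {g : Finset ℕ → Finset ℕ} {D A : Finset ℕ} (hg : ∀ B ⊆ D, g B ⊆ D)
    (hg' : ∀ B ⊆ D, B ⊆ g B) (hA : A ⊆ D) : g (g^[D.card] A) = g^[D.card] A := by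
  by_contra hne
  have hsub := iterate_subset hg hA
  have hfix : ∀ k, g (g^[k] A) = g^[k] A → ∀ l, g^[k + l] A = g^[k] A := by
    intro k hk l
    induction l with
    | zero => rfl
    | succ l ih => rw [← Nat.add_assoc, Function.iterate_succ_apply', ih, hk]
  have hall : ∀ k ≤ D.card, g (g^[k] A) ≠ g^[k] A := by
    intro k hk h
    apply hne
    obtain ⟨l, hl⟩ := Nat.exists_eq_add_of_le hk
    rw [hl, hfix k h l, h]
  have hcard : ∀ k ≤ D.card + 1, k ≤ (g^[k] A).card := by
    intro k
    induction k with
    | zero => intro _; exact Nat.zero_le _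
    | succ k ih =>
      intro hk
      have h1 := ih (by omega)
      have h2 : g^[k] A ⊂ g (g^[k] A) :=
        Finset.ssubset_iff_subset_ne.2 ⟨hg' _ (hsub k), fun e => hall k (by omega) e.symm⟩
      have h3 := Finset.card_lt_card h2
      rw [Function.iterate_succ_apply']
      omega
  have h1 := hcard (D.card + 1) le_rfl
  have h2 := Finset.card_le_card (hsub (D.card + 1))
  omega

theorem connD_iff {E : List (ℕ × ℕ)} {D : List ℕ} (hD : D.Nodup) :
    connD E D = true ↔ Conn (grN E) D.toFinset := by
  cases D with
  | nil => simp [connD, Conn]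
  | cons v0 L =>
    have hgen : ∀ D : List ℕ, D = v0 :: L →
        (connD E D = true ↔ Conn (grN E) D.toFinset) := by
      intro D hDL
      have hv0 : v0 ∈ D := by rw [hDL]; simp
      have ht : D.take 1 = [v0] := by rw [hDL]; rfl
      have hlen : D.toFinset.card = D.length := by
        rw [List.toFinset_card_of_nodup]; rw [hDL]; exact hD
      have hne : D ≠ [] := by rw [hDL]; simp
      have hv0' : ({v0} : Finset ℕ) ⊆ D.toFinset := by simpa using hv0
      have hR : ((growD E D)^[D.length] (D.take 1)).toFinset =
          (stepF E D.toFinset)^[D.toFinset.card] {v0} := by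
        rw [growD_iterate_toFinset, hlen, ht]; rfl
      have hconn : connD E D = true ↔
          ∀ v ∈ D.toFinset, v ∈ (stepF E D.toFinset)^[D.toFinset.card] {v0} := by
        simp only [connD, Bool.and_eq_true, List.all_eq_true, decide_eq_true_eq, ← hR,
          List.mem_toFinset]
        simp [hne]
      rw [hconn]
      constructor
      · intro hall
        refine ⟨⟨v0, by simpa using hv0⟩, ?_⟩
        have key : ∀ A ⊆ D.toFinset, v0 ∈ A →
            (∀ a ∈ A, ∀ b ∈ D.toFinset, (grN E).Adj a b → b ∈ A) → A = D.toFinset := by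
          intro A hA hvA hcl
          apply Finset.Subset.antisymm hA
          have hk : ∀ k, (stepF E D.toFinset)^[k] {v0} ⊆ A := by
            intro k
            induction k with
            | zero => simpa using hvA
            | succ k ih =>
              rw [Function.iterate_succ_apply']
              intro v hv
              obtain ⟨h1, h2⟩ := Finset.mem_filter.1 hv
              rcases h2 with h2 | ⟨u, hu, huv⟩
              · exact ih h2
              · exact hcl u (ih hu) v h1 huv
          exact fun v hv => hk _ (hall v hv)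
        intro A hA hAne hcl
        by_cases hvA : v0 ∈ A
        · exact key A hA hvA hcl
        · exfalso
          have h1 := key (D.toFinset \ A) Finset.sdiff_subset
            (Finset.mem_sdiff.2 ⟨by simpa using hv0, hvA⟩) (by
              intro a ha b hb hab
              rw [Finset.mem_sdiff] at ha ⊢
              exact ⟨hb, fun hbA => ha.2 (hcl b hbA a ha.1 hab.symm)⟩)
          obtain ⟨a, ha⟩ := hAne
          have := hA ha
          rw [← h1, Finset.mem_sdiff] at this
          exact this.2 ha
      · rintro ⟨-, hcl⟩ v hv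
        have hsub := iterate_subset (g := stepF E D.toFinset) (D := D.toFinset) (A := {v0})
          (fun B _ => stepF_subset E _ B) hv0' D.toFinset.card
        have hst := iterate_stable (g := stepF E D.toFinset) (D := D.toFinset) (A := {v0})
          (fun B _ => stepF_subset E _ B) (fun B hB => subset_stepF E hB) hv0'
        have h0 : v0 ∈ (stepF E D.toFinset)^[D.toFinset.card] {v0} := by
          have : ∀ k, v0 ∈ (stepF E D.toFinset)^[k] {v0} := by
            intro k
            induction k with
            | zero => simp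
            | succ k ih =>
              rw [Function.iterate_succ_apply']
              exact Finset.mem_filter.2 ⟨by simpa using hv0, Or.inl ih⟩
          exact this _
        have h1 := hcl _ hsub ⟨v0, h0⟩ (by
          intro a ha b hb hab
          rw [← hst]
          exact Finset.mem_filter.2 ⟨hb, Or.inr ⟨a, ha, hab⟩⟩)
        rw [h1]
        exact hv
    exact hgen _ rfl

theorem domD_iff {E : List (ℕ × ℕ)} {U D : List ℕ} :
    domD E U D = true ↔ Dom (grN E) U.toFinset D.toFinset := by
  simp [domD, Dom, grN_adj, List.all_eq_true, List.any_eq_true]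

theorem delD_toFinset (D : List ℕ) (v : ℕ) : (delD D v).toFinset = D.toFinset.erase v := by
  ext u
  simp [delD, and_comm]

theorem delD_nodup {D : List ℕ} (hD : D.Nodup) (v : ℕ) : (delD D v).Nodup := hD.filter _

theorem degD_eq {E : List (ℕ × ℕ)} {D : List ℕ} (hD : D.Nodup) (v : ℕ) :
    degD E D v = deg (grN E) D.toFinset v := by
  classical
  unfold degD deg
  rw [← List.toFinset_card_of_nodup (hD.filter _)]
  congr 1
  ext u
  simp [grN_adj]

theorem tlD_iff {E : List (ℕ × ℕ)} {t : ℕ} {D : List ℕ} (hD : D.Nodup) {v : ℕ} :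
    tlD E t D v = true ↔ TL (grN E) t D.toFinset v := by
  induction t generalizing D v with
  | zero => simp [tlD, TL]
  | succ t ih =>
    simp only [tlD, TL, Bool.and_eq_true, decide_eq_true_eq, List.any_eq_true, degD_eq hD,
      List.mem_toFinset, grN_adj, and_assoc]
    have h : ∀ w, tlD E t (delD D v) w = true ↔ TL (grN E) t (D.toFinset.erase v) w := by
      intro w
      rw [← delD_toFinset]
      exact ih (delD_nodup hD v)
    simp only [h]

theorem compD_eq {E : List (ℕ × ℕ)} {t : ℕ} {D : List ℕ} (hD : D.Nodup) :
    compD E t D = comp (grN E) t D.toFinset := by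
  classical
  cases t with
  | zero =>
    simp only [compD, comp]
    rw [← List.toFinset_card_of_nodup (hD.filter _)]
    refine congrArg Finset.card (Finset.ext fun u => ?_)
    simp only [List.mem_toFinset, List.mem_filter, Finset.mem_filter,
      connD_iff (delD_nodup hD u), delD_toFinset]
  | succ t =>
    simp only [compD, comp]
    rw [← List.toFinset_card_of_nodup (hD.filter _)]
    refine congrArg Finset.card (Finset.ext fun u => ?_)
    simp only [List.mem_toFinset, List.mem_filter, Finset.mem_filter, tlD_iff hD]

section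

variable {m : Bool} {α : Type} [Rep α] {E : α → List (ℕ × ℕ)} {U D A : α → List ℕ} {v : α → ℕ}

@[fun_prop]
theorem PT.growD' (hE : PT m E) (hD : PT m D) (hA : PT m A) :
    PT m (fun x => growD (E x) (D x) (A x)) := by
  unfold growD
  refine PT.filter2 (by fun_prop) ?_
  refine PT.or' ?_ ?_
  · exact PT.mem2 (x := fun z : α × ℕ => z.2) (l := fun z : α × ℕ => A z.1) (by fun_prop)
      (by fun_prop)
  · exact PT.any2 (f := fun (z : α × ℕ) u => adj (E z.1) u z.2) (by fun_prop) (by fun_prop)

theorem size_take_one_le {β : Type} [Rep β] (l : List β) : size (l.take 1) ≤ size l := by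
  cases l with
  | nil => exact le_rfl
  | cons b l =>
    rw [List.take_succ_cons, List.take_zero, size_cons, size_cons]
    have h1 : size ([] : List β) = 1 := size_nil
    have h2 := size_pos l
    omega

@[fun_prop]
theorem PT.connD' (hE : PT m E) (hD : PT m D) : PT m (fun x => connD (E x) (D x)) := by
  obtain ⟨p, hp⟩ := hD.exists_size_le
  have key : PT m (fun x => (growD (E x) (D x))^[(D x).length] ((D x).take 1)) := by
    refine PT.iterate (s := fun z : α × List ℕ => growD (E z.1) (D z.1) z.2)
      (ini := fun x => (D x).take 1) (by fun_prop) (by fun_prop) (by fun_prop) p ?_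
    intro x k _
    refine le_trans ?_ (hp x)
    cases k with
    | zero => exact size_take_one_le _
    | succ k =>
      rw [Function.iterate_succ_apply']
      exact size_filter_le _ _
  unfold connD
  refine PT.and' (by fun_prop) ?_
  refine PT.all2 (by fun_prop) ?_
  exact PT.mem2 (x := fun z : α × ℕ => z.2)
    (l := fun z : α × ℕ => (growD (E z.1) (D z.1))^[(D z.1).length] ((D z.1).take 1))
    (by fun_prop) (key.comp (f := fun z : α × ℕ => z.1) (by fun_prop))

@[fun_prop]
theorem PT.domD' (hE : PT m E) (hU : PT m U) (hD : PT m D) :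
    PT m (fun x => domD (E x) (U x) (D x)) := by
  unfold domD
  refine PT.all2 (by fun_prop) ?_
  refine PT.or' ?_ ?_
  · exact PT.mem2 (x := fun z : α × ℕ => z.2) (l := fun z : α × ℕ => D z.1) (by fun_prop)
      (by fun_prop)
  · exact PT.any2 (f := fun (z : α × ℕ) d => adj (E z.1) z.2 d) (by fun_prop) (by fun_prop)

@[fun_prop]
theorem PT.degD' (hE : PT m E) (hD : PT m D) (hv : PT m v) :
    PT m (fun x => degD (E x) (D x) (v x)) := by
  unfold degD
  refine PT.length' ?_
  exact PT.filter2 (by fun_prop) (by fun_prop)

@[fun_prop]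
theorem PT.delD' (hD : PT m D) (hv : PT m v) : PT m (fun x => delD (D x) (v x)) := by
  unfold delD
  exact PT.filter2 (by fun_prop) (by fun_prop)

theorem PT.tlD_aux (m : Bool) (t : ℕ) : ∀ (α : Type) [Rep α] (E : α → List (ℕ × ℕ))
    (D : α → List ℕ) (v : α → ℕ), PT m E → PT m D → PT m v →
    PT m (fun x => tlD (E x) t (D x) (v x)) := by
  induction t with
  | zero => intro α _ E D v _ _ _; exact PT.const' true
  | succ t ih =>
    intro α _ E D v hE hD hv
    simp only [tlD]
    refine PT.and' (PT.and' (PT.mem2 hv hD) (by fun_prop)) ?_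
    refine PT.any2 (by fun_prop) ?_
    refine PT.and' (by fun_prop) ?_
    exact ih (α × ℕ) (fun z => E z.1) (fun z => delD (D z.1) (v z.1)) (fun z => z.2)
      (by fun_prop) (by fun_prop) (by fun_prop)

@[fun_prop]
theorem PT.tlD' (t : ℕ) (hE : PT m E) (hD : PT m D) (hv : PT m v) :
    PT m (fun x => tlD (E x) t (D x) (v x)) :=
  PT.tlD_aux m t α E D v hE hD hv

@[fun_prop]
theorem PT.compD' (t : ℕ) (hE : PT m E) (hD : PT m D) : PT m (fun x => compD (E x) t (D x)) := by
  cases t with
  | zero =>
    unfold compD
    refine PT.length' ?_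
    exact PT.filter2 (by fun_prop) (by fun_prop)
  | succ t =>
    unfold compD
    refine PT.length' ?_
    exact PT.filter2 (by fun_prop) (by fun_prop)

end

end Pool.Agent.H52.PE
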