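import Mathlib

/-!
# The word which presents a sequence of natural numbers
-/

namespace Pool.Agent.H52.PE

/-- The word which presents a sequence of natural numbers: every entry `a` in unary, followed by
the letter `false`. -/
def encSeq (l : List ℕ) : List Bool := l.flatMap (fun a => List.replicate a true ++ [false])

end Pool.Agent.H52.PE
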