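import Mathlib
import Pool.Agent.H52.PE.Gr
import Pool.Agent.H87.HC.AlgoPT

/-!
# A Hamiltonian path in a connected claw-free and net-free graph, in polynomial time
-/

namespace Pool.Agent.H52.PE

open Pool.Agent.PPS H87.HC Pool.Agent.H87.PMCSP

/-! ### The algorithm -/

/-- The list is an induced path. -/
def indP (E : List (ℕ × ℕ)) : List ℕ → Bool
  | [] => true
  | a :: l => !decide (a ∈ l) && (decide (l = []) || adj E a (at' l 0)) &&
      l.tail.all (fun c => !adj E a c) && indP E l

/-- The candidates for a longer induced path, at the head of the list. -/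
def cands (D P : List ℕ) : List (List ℕ) :=
  D.flatMap (fun e => (e :: P) :: D.map (fun v => v :: e :: P.tail))

/-- Lengthen the induced path if this is possible. -/
def lenS (E : List (ℕ × ℕ)) (D P : List ℕ) : List ℕ :=
  ((cands D P ++ cands D P.reverse).filter (fun Q => indP E Q)).headD P

/-- An induced path that cannot be lengthened. -/
def maxP (E : List (ℕ × ℕ)) (D : List ℕ) : List ℕ := (lenS E D)^[D.length] (D.take 1)

/-- One step of the cover by two paths. -/
def covS (E : List (ℕ × ℕ)) (z : List ℕ × List ℕ) (v : ℕ) : List ℕ × List ℕ :=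
  if (decide (z.1 = []) || adj E (at' z.1 0) v) = true then (v :: z.1, z.2)
  else if (decide (z.2 = []) || adj E (at' z.2 0) v) = true then (z.1, v :: z.2)
  else (z.1.reverse ++ z.2, [v])

/-- Insert the other vertices into the path. -/
def asm (E : List (ℕ × ℕ)) : List ℕ → List ℕ → List ℕ
  | [], R => R
  | [p], R => p :: R
  | p :: q :: l, R => p :: (R.filter (fun v => adj E p v && adj E q v) ++
      asm E (q :: l) (R.filter (fun v => !(adj E p v && adj E q v))))

/-- The vertices not on the path. -/
def offP (D P : List ℕ) : List ℕ := D.filter (fun v => !decide (v ∈ P))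

/-- The other vertices, adjacent to both. -/
def bothP (E : List (ℕ × ℕ)) (p q : ℕ) (R : List ℕ) : List ℕ :=
  R.filter (fun v => adj E p v && adj E q v)

/-- The other vertices, not adjacent to both. -/
def restP (E : List (ℕ × ℕ)) (p q : ℕ) (R : List ℕ) : List ℕ :=
  R.filter (fun v => !(adj E p v && adj E q v))

/-- The cover by two paths. -/
def covP (E : List (ℕ × ℕ)) (A : List ℕ) : List ℕ × List ℕ := A.foldl (covS E) ([], [])

/-- The Hamiltonian path from the induced path. -/
def finP (E : List (ℕ × ℕ)) (D P : List ℕ) : List ℕ :=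
  if decide (P.tail = []) = true then P else
    (covP E (bothP E (at' P 0) (at' P 1) (offP D P))).1 ++ at' P 0 ::
      ((covP E (bothP E (at' P 0) (at' P 1) (offP D P))).2 ++
        asm E P.tail (restP E (at' P 0) (at' P 1) (offP D P)))

/-- The algorithm. `D` is the list of the vertices of the graph, `E` the edge list. -/
def hamPath (E : List (ℕ × ℕ)) (D : List ℕ) : List ℕ := finP E D (maxP E D)

/-! ### Polynomial time -/

section

variable {m : Bool} {α β : Type} [Rep α] [Rep β] {E : α → List (ℕ × ℕ)} {D P R : α → List ℕ}
  {p q : α → ℕ}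

@[fun_prop]
theorem PT.indP' (hE : PT m E) (hP : PT m P) : PT m (fun x => indP (E x) (P x)) := by
  obtain ⟨b, hb⟩ := hP.exists_size_le
  have hfold : ∀ (a : α) (l : List ℕ), l.foldr (fun b y => (b :: y.1, y.2 &&
      (!decide (b ∈ y.1) && (decide (y.1 = []) || adj (E a) b (at' y.1 0)) &&
      y.1.tail.all (fun c => !adj (E a) b c)))) ([], true) = (l, indP (E a) l) := by
    intro a l
    induction l with
    | nil => rfl
    | cons b l ih =>
      rw [List.foldr_cons, ih]
      simp only [indP]
      rw [Bool.and_comm (indP (E a) l)]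
  have hs : PT m (fun z : α × (ℕ × (List ℕ × Bool)) => (z.2.1 :: z.2.2.1, z.2.2.2 &&
      (!decide (z.2.1 ∈ z.2.2.1) && (decide (z.2.2.1 = []) ||
        adj (E z.1) z.2.1 (at' z.2.2.1 0)) &&
      z.2.2.1.tail.all (fun c => !adj (E z.1) z.2.1 c)))) := by
    have h1 : PT m (fun z : α × (ℕ × (List ℕ × Bool)) => E z.1) := hE.comp (by fun_prop)
    refine PT.prodMk (by fun_prop) (PT.and' (by fun_prop) (PT.and' (PT.and' (PT.not' ?_) ?_) ?_))
    · exact PT.mem2 (by fun_prop) (by fun_prop)
    · fun_prop
    · exact PT.all2 (by fun_prop) (by fun_prop)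
  have := PT.snd' (PT.foldr (m := m) (s := fun z : α × (ℕ × (List ℕ × Bool)) =>
      (z.2.1 :: z.2.2.1, z.2.2.2 &&
      (!decide (z.2.1 ∈ z.2.2.1) && (decide (z.2.2.1 = []) ||
        adj (E z.1) z.2.1 (at' z.2.2.1 0)) &&
      z.2.2.1.tail.all (fun c => !adj (E z.1) z.2.1 c))))
    (ini := fun _ => ([], true)) hP (by fun_prop) hs (b + 4) (by
      intro a k
      simp only [Polynomial.eval_add, Polynomial.eval_ofNat]
      rw [hfold, size_pair]
      have h1 := size_drop_le (P a) k
      have h2 := hb a
      have h3 := size_bool_le (indP (E a) ((P a).drop k))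
      omega))
  convert this using 2 with a
  exact (congrArg Prod.snd (hfold a (P a))).symm

@[fun_prop]
theorem PT.cands' (hD : PT m D) (hP : PT m P) : PT m (fun x => cands (D x) (P x)) := by
  unfold cands
  refine PT.flatMap2 hD ?_
  refine PT.cons' (by fun_prop) ?_
  exact PT.map2 (f := fun (z : α × ℕ) v => v :: z.2 :: (P z.1).tail) (by fun_prop) (by fun_prop)

@[fun_prop]
theorem PT.lenS' (hE : PT m E) (hD : PT m D) (hP : PT m P) :
    PT m (fun x => lenS (E x) (D x) (P x)) := by
  unfold lenS
  refine PT.headD' ?_ hP
  exact PT.filter2 (by fun_prop) (by fun_prop)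

theorem mem_cands {D P Q : List ℕ} (h : Q ∈ cands D P) :
    (∀ v ∈ Q, v ∈ D ∨ v ∈ P) ∧ Q.length ≤ P.length + 2 := by
  unfold cands at h
  rw [List.mem_flatMap] at h
  obtain ⟨e, he, h⟩ := h
  rw [List.mem_cons, List.mem_map] at h
  rcases h with h | ⟨v, hv, h⟩
  · subst h
    constructor
    · intro v hv
      rw [List.mem_cons] at hv
      rcases hv with hv | hv
      · subst hv; exact Or.inl he
      · exact Or.inr hv
    · simp
  · subst h
    constructor
    · intro w hw
      rw [List.mem_cons, List.mem_cons] at hw
      rcases hw with hw | hw | hw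
      · subst hw; exact Or.inl hv
      · subst hw; exact Or.inl he
      · exact Or.inr (List.mem_of_mem_tail hw)
    · simp only [List.length_cons, List.length_tail]
      omega

theorem lenS_cases (E : List (ℕ × ℕ)) (D P : List ℕ) :
    (lenS E D P = P ∧ (∀ Q ∈ cands D P ++ cands D P.reverse, indP E Q = false)) ∨
    (lenS E D P ∈ cands D P ++ cands D P.reverse ∧ indP E (lenS E D P) = true) := by
  unfold lenS
  rcases h : (cands D P ++ cands D P.reverse).filter (fun Q => indP E Q) with _ | ⟨Q, L⟩
  · left
    refine ⟨rfl, ?_⟩
    intro Q hQ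
    rw [List.filter_eq_nil_iff] at h
    have := h Q hQ
    simpa using this
  · right
    have : Q ∈ (cands D P ++ cands D P.reverse).filter (fun Q => indP E Q) := by
      rw [h]; exact List.mem_cons_self
    rw [List.mem_filter] at this
    exact this

theorem iter_bound (E : List (ℕ × ℕ)) (D : List ℕ) (k : ℕ) :
    (∀ v ∈ (lenS E D)^[k] (D.take 1), v ∈ D) ∧
      ((lenS E D)^[k] (D.take 1)).length ≤ 2 * k + 1 := by
  induction k with
  | zero =>
    constructor
    · intro v hv
      exact List.mem_of_mem_take hv
    · simp only [Function.iterate_zero, id, List.length_take]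
      omega
  | succ k ih =>
    rw [Function.iterate_succ_apply']
    rcases lenS_cases E D ((lenS E D)^[k] (D.take 1)) with h | h
    · rw [h.1]
      exact ⟨ih.1, ih.2.trans (by omega)⟩
    · have h1 := h.1
      rw [List.mem_append] at h1
      rcases h1 with h1 | h1
      · have h2 := mem_cands h1
        refine ⟨fun v hv => (h2.1 v hv).elim id (ih.1 v), ?_⟩
        omega
      · have h2 := mem_cands h1
        rw [List.length_reverse] at h2
        refine ⟨fun v hv => (h2.1 v hv).elim id (fun h3 => ih.1 v (List.mem_reverse.mp h3)), ?_⟩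
        omega

@[fun_prop]
theorem PT.maxP' (hE : PT m E) (hD : PT m D) : PT m (fun x => maxP (E x) (D x)) := by
  obtain ⟨b, hb⟩ := hD.exists_size_le
  unfold maxP
  refine PT.iterate (s := fun z : α × List ℕ => lenS (E z.1) (D z.1) z.2)
    (ini := fun x => (D x).take 1) (by fun_prop) (by fun_prop) (by fun_prop)
    ((2 * b + 1) * (b + 1) + 1) ?_
  intro x k hk
  have h1 := iter_bound (E x) (D x) k
  have h2 : size ((lenS (E x) (D x))^[k] ((D x).take 1)) ≤
      (2 * k + 1) * (size (D x) + 1) + 1 := by
    refine (size_list_le (B := size (D x)) (fun v hv => size_le_of_mem (h1.1 v hv))).trans ?_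
    have := Nat.mul_le_mul_right (size (D x) + 1) h1.2
    omega
  refine h2.trans ?_
  simp only [Polynomial.eval_add, Polynomial.eval_mul, Polynomial.eval_ofNat,
    Polynomial.eval_one]
  have h3 := hb x
  have h4 : k ≤ b.eval (size x) := by
    have := length_le_size' (D x)
    omega
  have := Nat.mul_le_mul (show 2 * k + 1 ≤ 2 * b.eval (size x) + 1 by omega)
    (show size (D x) + 1 ≤ b.eval (size x) + 1 by omega)
  omega

theorem size_filter_add {β : Type} [Rep β] (p : β → Bool) (l : List β) :
    size (l.filter p) + size (l.filter (fun b => !p b)) = size l + 1 := by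
  induction l with
  | nil => simp [size_nil]
  | cons b l ih =>
    rw [List.filter_cons, List.filter_cons]
    cases h : p b
    · simp only [Bool.false_eq_true, if_false, Bool.not_false, if_true]
      rw [size_cons, size_cons]
      omega
    · simp only [Bool.not_true, Bool.false_eq_true, if_false, if_true]
      rw [size_cons, size_cons]
      omega

/-- The step of the assembling as a fold. -/
def asmS (E : List (ℕ × ℕ)) (z : ℕ × (List ℕ × List ℕ)) (q : ℕ) : ℕ × (List ℕ × List ℕ) :=
  (q, (z.2.1.filter (fun v => !(adj E z.1 v && adj E q v)),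
    z.2.2 ++ z.1 :: z.2.1.filter (fun v => adj E z.1 v && adj E q v)))

theorem asm_eq (E : List (ℕ × ℕ)) (l : List ℕ) : ∀ (p : ℕ) (R O : List ℕ),
    O ++ asm E (p :: l) R = (l.foldl (asmS E) (p, (R, O))).2.2 ++
      (l.foldl (asmS E) (p, (R, O))).1 :: (l.foldl (asmS E) (p, (R, O))).2.1 := by
  induction l with
  | nil => intro p R O; rfl
  | cons q l ih =>
    intro p R O
    rw [List.foldl_cons]
    have h : asmS E (p, (R, O)) q = (q, (R.filter (fun v => !(adj E p v && adj E q v)),
      O ++ p :: R.filter (fun v => adj E p v && adj E q v))) := rfl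
    rw [h, ← ih]
    simp [asm]

theorem asmS_size (E : List (ℕ × ℕ)) (l : List ℕ) : ∀ (z : ℕ × (List ℕ × List ℕ)),
    size (l.foldl (asmS E) z).1 + size (l.foldl (asmS E) z).2.1 +
      size (l.foldl (asmS E) z).2.2 ≤ size z.1 + size z.2.1 + size z.2.2 + size l := by
  induction l with
  | nil => intro z; simp
  | cons q l ih =>
    intro z
    rw [List.foldl_cons]
    refine (ih _).trans ?_
    unfold asmS
    simp only
    have h1 := size_filter_add (fun v => adj E z.1 v && adj E q v) z.2.1
    have h2 := size_append z.2.2 (z.1 :: z.2.1.filter (fun v => adj E z.1 v && adj E q v))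
    rw [size_cons] at h2
    rw [size_cons]
    omega

@[fun_prop]
theorem PT.asm' (hE : PT m E) (hP : PT m P) (hR : PT m R) :
    PT m (fun x => asm (E x) (P x) (R x)) := by
  obtain ⟨b, hb⟩ := hP.exists_size_le
  obtain ⟨c, hc⟩ := hR.exists_size_le
  have key : PT m (fun x => (P x).tail.foldl (asmS (E x)) (at' (P x) 0, (R x, []))) := by
    have hs : PT m (fun z : α × ((ℕ × (List ℕ × List ℕ)) × ℕ) => asmS (E z.1) z.2.1 z.2.2) := by
      unfold asmS
      have h1 : PT m (fun z : α × ((ℕ × (List ℕ × List ℕ)) × ℕ) => E z.1) :=
        hE.comp (by fun_prop)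
      refine PT.prodMk (by fun_prop) (PT.prodMk ?_ (PT.append' (by fun_prop)
        (PT.cons' (by fun_prop) ?_)))
      · exact PT.filter2 (f := fun (z : α × ((ℕ × (List ℕ × List ℕ)) × ℕ)) v =>
          !(adj (E z.1) z.2.1.1 v && adj (E z.1) z.2.2 v)) (by fun_prop) (by fun_prop)
      · exact PT.filter2 (f := fun (z : α × ((ℕ × (List ℕ × List ℕ)) × ℕ)) v =>
          (adj (E z.1) z.2.1.1 v && adj (E z.1) z.2.2 v)) (by fun_prop) (by fun_prop)
    refine PT.foldl (m := m) (s := fun z : α × ((ℕ × (List ℕ × List ℕ)) × ℕ) =>
      asmS (E z.1) z.2.1 z.2.2) (ini := fun x => (at' (P x) 0, (R x, [])))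
      (l := fun x => (P x).tail) (by fun_prop) (by fun_prop) hs (b + b + b + c + 20) ?_
    intro a k
    simp only [Polynomial.eval_add, Polynomial.eval_ofNat]
    have h1 := asmS_size (E a) ((P a).tail.take k) (at' (P a) 0, (R a, []))
    simp only at h1
    have e : ∀ z : ℕ × (List ℕ × List ℕ), size z = size z.1 + size z.2.1 + size z.2.2 + 2 := by
      intro z
      have := size_pair z.1 z.2
      have h2 := size_pair z.2.1 z.2.2
      simp only [Prod.mk.eta] at this h2
      omega
    have h2 : size (at' (P a) 0) ≤ size (P a) := by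
      unfold at'
      rcases P a with _ | ⟨x, l⟩
      · simp [size_nil, size_nat]
      · simp [size_cons]
        omega
    have h3 := size_take_le (P a).tail k
    have h4 := size_tail_le (P a)
    have h5 := hb a
    have h6 := hc a
    have h7 : size ([] : List ℕ) = 1 := size_nil
    show size (((P a).tail.take k).foldl (asmS (E a)) (at' (P a) 0, (R a, []))) ≤ _
    rw [e]
    omega
  have h2 : ∀ x, asm (E x) (P x) (R x) = if decide (P x = []) = true then R x else
      ((P x).tail.foldl (asmS (E x)) (at' (P x) 0, (R x, []))).2.2 ++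
      ((P x).tail.foldl (asmS (E x)) (at' (P x) 0, (R x, []))).1 ::
      ((P x).tail.foldl (asmS (E x)) (at' (P x) 0, (R x, []))).2.1 := by
    intro x
    rcases P x with _ | ⟨p, l⟩
    · rfl
    · have := asm_eq (E x) l p (R x) []
      rw [List.nil_append] at this
      rw [this]
      simp [at']
  refine PT.of_eq ?_ h2
  exact PT.ite (by fun_prop) hR (PT.append' (by fun_prop) (PT.cons' (by fun_prop) (by fun_prop)))

theorem covS_size (E : List (ℕ × ℕ)) (l : List ℕ) : ∀ (z : List ℕ × List ℕ),
    size (l.foldl (covS E) z).1 + size (l.foldl (covS E) z).2 ≤ size z.1 + size z.2 + size l := by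
  induction l with
  | nil => intro z; simp
  | cons q l ih =>
    intro z
    rw [List.foldl_cons]
    refine (ih _).trans ?_
    unfold covS
    rw [size_cons]
    split
    · simp only
      rw [size_cons]
      omega
    · split
      · simp only
        rw [size_cons]
        omega
      · simp only
        rw [size_cons, size_nil]
        have h1 := size_append z.1.reverse z.2
        rw [size_reverse] at h1
        omega

@[fun_prop]
theorem PT.covP' (hE : PT m E) (hP : PT m P) : PT m (fun x => covP (E x) (P x)) := by
  obtain ⟨b, hb⟩ := hP.exists_size_le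
  unfold covP
  have hs : PT m (fun z : α × ((List ℕ × List ℕ) × ℕ) => covS (E z.1) z.2.1 z.2.2) := by
    unfold covS
    have h1 : PT m (fun z : α × ((List ℕ × List ℕ) × ℕ) => E z.1) := hE.comp (by fun_prop)
    exact PT.ite (by fun_prop) (by fun_prop) (PT.ite (by fun_prop) (by fun_prop) (by fun_prop))
  refine PT.foldl (m := m) (s := fun z : α × ((List ℕ × List ℕ) × ℕ) =>
    covS (E z.1) z.2.1 z.2.2) (ini := fun x => ([], [])) hP (by fun_prop) hs (b + 10) ?_
  intro a k
  simp only [Polynomial.eval_add, Polynomial.eval_ofNat]
  have h1 := covS_size (E a) ((P a).take k) ([], [])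
  simp only at h1
  have e : ∀ z : List ℕ × List ℕ, size z = size z.1 + size z.2 + 1 := by
    intro z
    have := size_pair z.1 z.2
    simpa only [Prod.mk.eta] using this
  have h3 := size_take_le (P a) k
  have h5 := hb a
  have h7 : size ([] : List ℕ) = 1 := size_nil
  show size (((P a).take k).foldl (covS (E a)) ([], [])) ≤ _
  rw [e]
  omega

@[fun_prop]
theorem PT.offP' (hD : PT m D) (hP : PT m P) : PT m (fun x => offP (D x) (P x)) := by
  unfold offP
  refine PT.filter2 hD (PT.not' ?_)
  exact PT.mem2 (by fun_prop) (by fun_prop)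

@[fun_prop]
theorem PT.bothP' (hE : PT m E) (hp : PT m p) (hq : PT m q) (hR : PT m R) :
    PT m (fun x => bothP (E x) (p x) (q x) (R x)) := by
  unfold bothP
  exact PT.filter2 hR (by fun_prop)

@[fun_prop]
theorem PT.restP' (hE : PT m E) (hp : PT m p) (hq : PT m q) (hR : PT m R) :
    PT m (fun x => restP (E x) (p x) (q x) (R x)) := by
  unfold restP
  exact PT.filter2 hR (by fun_prop)

@[fun_prop]
theorem PT.finP' (hE : PT m E) (hD : PT m D) (hP : PT m P) :
    PT m (fun x => finP (E x) (D x) (P x)) := by
  unfold finP
  exact PT.ite (by fun_prop) hP (by fun_prop)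

theorem PT.hamPath' {m : Bool} {α : Type} [Rep α] {E : α → List (ℕ × ℕ)} {D : α → List ℕ}
    (hE : PT m E) (hD : PT m D) : PT m (fun x => hamPath (E x) (D x)) := by
  unfold hamPath
  fun_prop

end

/-! ### Claws and nets -/

/-- The four vertices of a claw. -/
def clawF (a b c d : ℕ) : Option (Fin 3 × Fin 1) → ℕ
  | none => a
  | some x => ![b, c, d] x.1

/-- The six vertices of a net. -/
def netF (a b c x y z : ℕ) (o : Fin 3 × Fin 2) : ℕ := ![![a, x], ![b, y], ![c, z]] o.1 o.2

theorem no_claw {E : List (ℕ × ℕ)} {D : Finset ℕ} (hb : ¬ Bad (grN E) D 1) {a b c d : ℕ}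
    (ha : a ∈ D) (hbD : b ∈ D) (hc : c ∈ D) (hd : d ∈ D)
    (hab : adj E a b = true) (hac : adj E a c = true) (had : adj E a d = true)
    (hbc : b ≠ c) (hbd : b ≠ d) (hcd : c ≠ d)
    (nbc : adj E b c = false) (nbd : adj E b d = false) (ncd : adj E c d = false) : False := by
  apply hb
  left
  have sy := adj_symm E
  have se := adj_self E
  have ne : ∀ {x y}, adj E x y = true → x ≠ y := by
    intro x y h h'
    rw [h', se] at h
    simp at h
  have hab' := ne hab
  have hac' := ne hac
  have had' := ne had
  have hinj : Function.Injective (clawF a b c d) := by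
    rintro (_ | ⟨i, j⟩) (_ | ⟨i', j'⟩) h
    · rfl
    · exfalso
      fin_cases i'
      · exact hab' h
      · exact hac' h
      · exact had' h
    · exfalso
      fin_cases i
      · exact hab' h.symm
      · exact hac' h.symm
      · exact had' h.symm
    · have hj : j = j' := Subsingleton.elim _ _
      subst hj
      fin_cases i <;> fin_cases i' <;> first
        | rfl
        | exact absurd h hbc
        | exact absurd h hbd
        | exact absurd h hcd
        | exact absurd h hbc.symm
        | exact absurd h hbd.symm
        | exact absurd h hcd.symm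
  have hadj : ∀ x y, adj E (clawF a b c d x) (clawF a b c d y) = true ↔ (S 1).Adj x y := by
    rintro (_ | ⟨i, j⟩) (_ | ⟨i', j'⟩)
    · simp [S, se]
    · fin_cases i' <;> simp [clawF, S, hab, hac, had]
    · fin_cases i <;> simp [clawF, S, hab, hac, had, sy _ a]
    · have hj : j = j' := Subsingleton.elim _ _
      subst hj
      fin_cases i <;> fin_cases i' <;>
        simp [clawF, S, se, nbc, nbd, ncd, sy c b, sy d b, sy d c]
  refine ⟨⟨⟨clawF a b c d, hinj⟩, fun {x y} => hadj x y⟩, ?_⟩
  rintro (_ | ⟨i, j⟩)
  · exact ha
  · fin_cases i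
    · exact hbD
    · exact hc
    · exact hd

theorem no_net {E : List (ℕ × ℕ)} {D : Finset ℕ} (hb : ¬ Bad (grN E) D 1) {a b c x y z : ℕ}
    (ha : a ∈ D) (hbD : b ∈ D) (hc : c ∈ D) (hx : x ∈ D) (hy : y ∈ D) (hz : z ∈ D)
    (hab : adj E a b = true) (hac : adj E a c = true) (hbc : adj E b c = true)
    (hax : adj E a x = true) (hby : adj E b y = true) (hcz : adj E c z = true)
    (nay : adj E a y = false) (naz : adj E a z = false) (nbx : adj E b x = false)
    (nbz : adj E b z = false) (ncx : adj E c x = false) (ncy : adj E c y = false)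
    (nxy : adj E x y = false) (nxz : adj E x z = false) (nyz : adj E y z = false) : False := by
  apply hb
  right
  have sy := adj_symm E
  have se := adj_self E
  have hadj : ∀ u v, adj E (netF a b c x y z u) (netF a b c x y z v) = true ↔
      (T 1).Adj u v := by
    rintro ⟨i, j⟩ ⟨i', j'⟩
    fin_cases i <;> fin_cases i' <;> fin_cases j <;> fin_cases j' <;>
      simp [netF, T, se, hab, hac, hbc, hax, hby, hcz, nay, naz, nbx, nbz, ncx, ncy, nxy, nxz,
        nyz, sy b a, sy c a, sy c b, sy x a, sy y b, sy z c, sy y a, sy z a, sy x b, sy z b,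
        sy x c, sy y c, sy y x, sy z x, sy z y]
  have hdist : ∀ u v : Fin 3 × Fin 2, (∀ w, (T 1).Adj u w ↔ (T 1).Adj v w) → u = v := by
    simp only [T, SimpleGraph.fromRel_adj]
    decide
  have hinj : Function.Injective (netF a b c x y z) := by
    intro u v h
    apply hdist
    intro w
    rw [← hadj, ← hadj, h]
  refine ⟨⟨⟨netF a b c x y z, hinj⟩, fun {x y} => hadj x y⟩, ?_⟩
  rintro ⟨i, j⟩
  fin_cases i <;> fin_cases j <;> assumption

/-! ### Induced paths -/

theorem indP_cons {E : List (ℕ × ℕ)} {a : ℕ} {l : List ℕ} : indP E (a :: l) = true ↔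
    a ∉ l ∧ (∀ (h : 0 < l.length), adj E a l[0] = true) ∧
      (∀ (j : ℕ) (h : j < l.length), 1 ≤ j → adj E a l[j] = false) ∧ indP E l = true := by
  rcases l with _ | ⟨b, l⟩
  · simp [indP]
  · have e : indP E (a :: b :: l) = (!decide (a ∈ b :: l) && adj E a b &&
        l.all (fun c => !adj E a c) && indP E (b :: l)) := by
      conv_lhs => unfold indP
      simp [at']
    rw [e]
    simp only [Bool.and_eq_true, Bool.not_eq_true', decide_eq_false_iff_not, List.all_eq_true,
      List.length_cons, and_assoc]
    refine and_congr Iff.rfl (and_congr ?_ (and_congr ?_ Iff.rfl))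
    · simp
    · constructor
      · intro h j hj h1
        obtain ⟨k, rfl⟩ : ∃ k, j = k + 1 := ⟨j - 1, by omega⟩
        rw [List.getElem_cons_succ]
        exact h _ (List.getElem_mem _)
      · intro h c hc
        obtain ⟨k, hk, rfl⟩ := List.getElem_of_mem hc
        have := h (k + 1) (by omega) (by omega)
        rwa [List.getElem_cons_succ] at this

theorem indP_iff {E : List (ℕ × ℕ)} {P : List ℕ} : indP E P = true ↔ P.Nodup ∧
    ∀ (i j : ℕ) (hi : i < P.length) (hj : j < P.length),
      (adj E P[i] P[j] = true ↔ (j = i + 1 ∨ i = j + 1)) := by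
  induction P with
  | nil => simp [indP]
  | cons a l ih =>
    rw [indP_cons, ih, List.nodup_cons]
    constructor
    · rintro ⟨h1, h2, h3, h4, h5⟩
      refine ⟨⟨h1, h4⟩, ?_⟩
      intro i j hi hj
      rcases i with _ | i <;> rcases j with _ | j
      · simp [adj_self]
      · rw [List.getElem_cons_zero, List.getElem_cons_succ]
        rcases j with _ | j
        · simp only [h2 (by simpa using hj)]
          simp
        · simp only [h3 (j + 1) (by simpa using hj) (by omega)]
          simp
      · rw [List.getElem_cons_zero, List.getElem_cons_succ, adj_symm]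
        rcases i with _ | i
        · simp only [h2 (by simpa using hi)]
          simp
        · simp only [h3 (i + 1) (by simpa using hi) (by omega)]
          simp
      · rw [List.getElem_cons_succ, List.getElem_cons_succ]
        rw [h5 i j (by simpa using hi) (by simpa using hj)]
        omega
    · rintro ⟨⟨h1, h4⟩, h5⟩
      refine ⟨h1, ?_, ?_, h4, ?_⟩
      · intro h
        have := (h5 0 1 (by simp) (by simpa using h)).mpr (by simp)
        simpa using this
      · intro j hj h1
        have := (h5 0 (j + 1) (by simp) (by simpa using hj)).not.mpr (by omega)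
        simpa using this
      · intro i j hi hj
        have := h5 (i + 1) (j + 1) (by simpa using hi) (by simpa using hj)
        rw [List.getElem_cons_succ, List.getElem_cons_succ] at this
        rw [this]
        omega

theorem indP_reverse {E : List (ℕ × ℕ)} {P : List ℕ} (h : indP E P = true) :
    indP E P.reverse = true := by
  rw [indP_iff] at h ⊢
  refine ⟨List.nodup_reverse.mpr h.1, ?_⟩
  intro i j hi hj
  rw [List.getElem_reverse, List.getElem_reverse]
  rw [List.length_reverse] at hi hj
  rw [h.2 (P.length - 1 - i) (P.length - 1 - j) (by omega) (by omega)]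
  omega

theorem front1 {E : List (ℕ × ℕ)} {Q : List ℕ} {y : ℕ} (hQ : indP E Q = true) (hy : y ∉ Q)
    (h0 : ∀ (h : 0 < Q.length), adj E y Q[0] = true)
    (h1 : ∀ (j : ℕ) (h : j < Q.length), 1 ≤ j → adj E y Q[j] = false) :
    indP E (y :: Q) = true := by
  rw [indP_cons]
  exact ⟨hy, h0, h1, hQ⟩

theorem indP_tail {E : List (ℕ × ℕ)} {Q : List ℕ} (hQ : indP E Q = true) :
    indP E Q.tail = true := by
  rcases Q with _ | ⟨a, l⟩
  · rfl
  · rw [indP_cons] at hQ
    exact hQ.2.2.2

theorem front2 {E : List (ℕ × ℕ)} {Q : List ℕ} {y v : ℕ} (hQ : indP E Q = true) (hy : y ∉ Q)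
    (hv : v ∉ Q) (hvy : adj E v y = true)
    (h0 : ∀ (h : 1 < Q.length), adj E y Q[1] = true)
    (h1 : ∀ (j : ℕ) (h : j < Q.length), 2 ≤ j → adj E y Q[j] = false)
    (h2 : ∀ (j : ℕ) (h : j < Q.length), adj E v Q[j] = false) :
    indP E (v :: y :: Q.tail) = true := by
  have ht := indP_tail hQ
  have h3 : indP E (y :: Q.tail) = true := by
    refine front1 ht (fun h => hy (List.mem_of_mem_tail h)) ?_ ?_
    · intro h
      rw [List.getElem_tail]
      rw [List.length_tail] at h
      exact h0 (by omega)
    · intro j h hj
      rw [List.getElem_tail]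
      rw [List.length_tail] at h
      exact h1 (j + 1) (by omega) (by omega)
  refine front1 h3 ?_ ?_ ?_
  · intro h
    rw [List.mem_cons] at h
    rcases h with h | h
    · rw [h, adj_self] at hvy
      simp at hvy
    · exact hv (List.mem_of_mem_tail h)
  · intro h
    exact hvy
  · intro j h hj
    obtain ⟨k, rfl⟩ : ∃ k, j = k + 1 := ⟨j - 1, by omega⟩
    rw [List.getElem_cons_succ, List.getElem_tail]
    rw [List.length_cons, List.length_tail] at h
    exact h2 (k + 1) (by omega)

/-- The path `P` in `D` cannot be lengthened. -/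
structure Stuck (E : List (ℕ × ℕ)) (D P : List ℕ) : Prop where
  ind : indP E P = true
  sub : ∀ v ∈ P, v ∈ D
  no : ∀ Q ∈ cands D P ++ cands D P.reverse, indP E Q = false

theorem Stuck.reverse {E : List (ℕ × ℕ)} {D P : List ℕ} (h : Stuck E D P) :
    Stuck E D P.reverse := by
  refine ⟨indP_reverse h.ind, fun v hv => h.sub v (List.mem_reverse.mp hv), ?_⟩
  intro Q hQ
  apply h.no
  rw [List.reverse_reverse, List.mem_append] at hQ
  rw [List.mem_append]
  exact hQ.symm

theorem Stuck.no1 {E : List (ℕ × ℕ)} {D P : List ℕ} (h : Stuck E D P) {e : ℕ} (he : e ∈ D) :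
    indP E (e :: P) = false := by
  apply h.no
  rw [List.mem_append]
  left
  unfold cands
  rw [List.mem_flatMap]
  exact ⟨e, he, List.mem_cons_self⟩

theorem Stuck.no2 {E : List (ℕ × ℕ)} {D P : List ℕ} (h : Stuck E D P) {e v : ℕ} (he : e ∈ D)
    (hv : v ∈ D) : indP E (v :: e :: P.tail) = false := by
  apply h.no
  rw [List.mem_append]
  left
  unfold cands
  rw [List.mem_flatMap]
  exact ⟨e, he, List.mem_cons_of_mem _ (List.mem_map.mpr ⟨v, hv, rfl⟩)⟩

theorem bfalse {b : Bool} (h : ¬ b = true) : b = false := by simpa using h

theorem Stuck.adj_iff {E : List (ℕ × ℕ)} {D P : List ℕ} (h : Stuck E D P) {i j : ℕ}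
    (hi : i < P.length) (hj : j < P.length) :
    adj E P[i] P[j] = true ↔ (j = i + 1 ∨ i = j + 1) :=
  (indP_iff.mp h.ind).2 i j hi hj

theorem Stuck.mem {E : List (ℕ × ℕ)} {D P : List ℕ} (h : Stuck E D P) {i : ℕ}
    (hi : i < P.length) : P[i] ∈ D.toFinset :=
  List.mem_toFinset.mpr (h.sub _ (List.getElem_mem _))

theorem Stuck.dom {E : List (ℕ × ℕ)} {D P : List ℕ} (h : Stuck E D P)
    (hb : ¬ Bad (grN E) D.toFinset 1) {v y : ℕ} (hv : v ∈ D) (hvP : v ∉ P)
    (hv0 : ∀ (i : ℕ) (hi : i < P.length), adj E v P[i] = false) (hy : y ∈ D) (hyP : y ∉ P)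
    (hvy : adj E v y = true) (hy0 : ∃ (i : ℕ) (hi : i < P.length), adj E y P[i] = true) :
    False := by
  classical
  have hyv : adj E y v = true := by rw [adj_symm]; exact hvy
  have hvD := List.mem_toFinset.mpr hv
  have hyD := List.mem_toFinset.mpr hy
  obtain ⟨hi, hiy⟩ := Nat.find_spec hy0
  have hmin : ∀ (j : ℕ) (hj : j < P.length), j < Nat.find hy0 → adj E y P[j] = false := by
    intro j hj hj2
    apply bfalse
    intro hj3
    exact Nat.find_min hy0 hj2 ⟨hj, hj3⟩
  generalize Nat.find hy0 = i at hi hiy hmin
  have hneP : ∀ (j : ℕ) (hj : j < P.length), v ≠ P[j] := by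
    intro j hj h'
    apply hvP
    rw [h']
    exact List.getElem_mem _
  have hnd := (indP_iff.mp h.ind).1
  have hinj : ∀ (j k : ℕ) (hj : j < P.length) (hk : k < P.length), P[j] = P[k] → j = k := by
    intro j k hj hk h'
    exact (hnd.getElem_inj_iff).mp h'
  have hmax : ∀ (j : ℕ) (hj : j < P.length), i + 2 ≤ j → adj E y P[j] = false := by
    intro j hj hij
    apply bfalse
    intro hjy
    refine no_claw hb hyD hvD (h.mem hi) (h.mem hj) hyv hiy hjy (hneP _ _) (hneP _ _) ?_
      (hv0 _ _) (hv0 _ _) ?_
    · intro h'
      have := hinj _ _ _ _ h'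
      omega
    · apply bfalse
      rw [h.adj_iff hi hj]
      omega
  by_cases h1 : ∃ (hi1 : i + 1 < P.length), adj E y P[i + 1] = true
  · obtain ⟨hi1, hi1y⟩ := h1
    rcases Nat.eq_zero_or_pos i with h0 | h0
    · subst h0
      have := front2 (E := E) (Q := P) h.ind hyP hvP hvy (fun _ => hi1y)
        (fun j hj hj2 => hmax j hj (by omega)) hv0
      rw [h.no2 hy hv] at this
      simp at this
    · by_cases h2 : i + 2 = P.length
      · have hr := h.reverse
        have := front2 (E := E) (Q := P.reverse) hr.ind (fun h' => hyP (List.mem_reverse.mp h'))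
          (fun h' => hvP (List.mem_reverse.mp h')) hvy ?_ ?_ ?_
        · rw [hr.no2 hy hv] at this
          simp at this
        · intro hl
          rw [List.getElem_reverse]
          have : P.length - 1 - 1 = i := by omega
          simp only [this]
          exact hiy
        · intro j hj hj2
          rw [List.getElem_reverse]
          rw [List.length_reverse] at hj
          exact hmin _ _ (by omega)
        · intro j hj
          rw [List.getElem_reverse]
          exact hv0 _ _
      · have hm1 : i - 1 < P.length := by omega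
        have hp2 : i + 2 < P.length := by omega
        refine no_net hb (a := y) (b := P[i]) (c := P[i + 1]) (x := v) (y := P[i - 1])
          (z := P[i + 2]) hyD (h.mem hi) (h.mem hi1) hvD (h.mem hm1) (h.mem hp2) hiy hi1y
          ?_ hyv ?_ ?_ (hmin _ _ (by omega)) (hmax _ _ (by omega)) ?_ ?_ ?_ ?_ (hv0 _ _)
          (hv0 _ _) ?_
        · rw [h.adj_iff hi hi1]; omega
        · rw [h.adj_iff hi hm1]; omega
        · rw [h.adj_iff hi1 hp2]; omega
        · rw [adj_symm]; exact hv0 _ _
        · apply bfalse; rw [h.adj_iff hi hp2]; omega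
        · rw [adj_symm]; exact hv0 _ _
        · apply bfalse; rw [h.adj_iff hi1 hm1]; omega
        · apply bfalse; rw [h.adj_iff hm1 hp2]; omega
  · have hmax' : ∀ (j : ℕ) (hj : j < P.length), i + 1 ≤ j → adj E y P[j] = false := by
      intro j hj hij
      rcases Nat.lt_or_ge (i + 1) j with h2 | h2
      · exact hmax j hj h2
      · have : j = i + 1 := by omega
        subst this
        apply bfalse
        intro h3
        exact h1 ⟨hj, h3⟩
    rcases Nat.eq_zero_or_pos i with h0 | h0
    · subst h0
      have := front1 (E := E) (Q := P) h.ind hyP (fun _ => hiy)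
        (fun j hj hj2 => hmax' j hj (by omega))
      rw [h.no1 hy] at this
      simp at this
    · by_cases h2 : i + 1 = P.length
      · have hr := h.reverse
        have := front1 (E := E) (Q := P.reverse) hr.ind (fun h' => hyP (List.mem_reverse.mp h'))
          ?_ ?_
        · rw [hr.no1 hy] at this
          simp at this
        · intro hl
          rw [List.getElem_reverse]
          have : P.length - 1 - 0 = i := by omega
          simp only [this]
          exact hiy
        · intro j hj hj2
          rw [List.getElem_reverse]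
          rw [List.length_reverse] at hj
          exact hmin _ _ (by omega)
      · have hm1 : i - 1 < P.length := by omega
        have hp1 : i + 1 < P.length := by omega
        refine no_claw hb (a := P[i]) (b := y) (c := P[i - 1]) (d := P[i + 1]) (h.mem hi) hyD
          (h.mem hm1) (h.mem hp1) (by rw [adj_symm]; exact hiy) ?_ ?_ ?_ ?_ ?_
          (hmin _ _ (by omega)) (hmax' _ _ (by omega)) ?_
        · rw [h.adj_iff hi hm1]; omega
        · rw [h.adj_iff hi hp1]; omega
        · intro h'; apply hyP; rw [h']; exact List.getElem_mem _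
        · intro h'; apply hyP; rw [h']; exact List.getElem_mem _
        · intro h'
          have := hinj _ _ _ _ h'
          omega
        · apply bfalse; rw [h.adj_iff hm1 hp1]; omega

/-- Everything is dominated by the path. -/
theorem Stuck.dom' {E : List (ℕ × ℕ)} {D P : List ℕ} (h : Stuck E D P)
    (hb : ¬ Bad (grN E) D.toFinset 1) (hc : Conn (grN E) D.toFinset) (hP : P ≠ []) {v : ℕ}
    (hv : v ∈ D) (hvP : v ∉ P) : ∃ (i : ℕ) (hi : i < P.length), adj E v P[i] = true := by
  classical
  by_contra hcon
  -- the set of the vertices dominated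
  let A : Finset ℕ := D.toFinset.filter (fun u => u ∈ P ∨
    ∃ (i : ℕ) (hi : i < P.length), adj E u P[i] = true)
  have hA : A = D.toFinset := by
    apply hc.2 A (Finset.filter_subset _ _)
    · obtain ⟨p, hp⟩ := List.exists_mem_of_ne_nil _ hP
      refine ⟨p, ?_⟩
      rw [Finset.mem_filter]
      exact ⟨List.mem_toFinset.mpr (h.sub p hp), Or.inl hp⟩
    · intro a ha b hbD hab
      rw [grN_adj] at hab
      rw [Finset.mem_filter] at ha ⊢
      refine ⟨hbD, ?_⟩
      by_contra hcon2
      rw [not_or] at hcon2
      rcases ha.2 with h1 | h1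
      · obtain ⟨i, hi, rfl⟩ := List.getElem_of_mem h1
        exact hcon2.2 ⟨i, hi, by rw [adj_symm]; exact hab⟩
      · by_cases haP : a ∈ P
        · obtain ⟨i, hi, rfl⟩ := List.getElem_of_mem haP
          exact hcon2.2 ⟨i, hi, by rw [adj_symm]; exact hab⟩
        · refine h.dom hb (List.mem_toFinset.mp hbD) hcon2.1 ?_ (List.mem_toFinset.mp ha.1) haP
            (by rw [adj_symm]; exact hab) h1
          intro i hi
          apply bfalse
          intro h2
          exact hcon2.2 ⟨i, hi, h2⟩
  have hvA : v ∈ A := by rw [hA]; exact List.mem_toFinset.mpr hv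
  rw [Finset.mem_filter] at hvA
  rcases hvA.2 with h1 | h1
  · exact hvP h1
  · exact hcon h1

/-- Every vertex off the path is adjacent to two consecutive vertices or to the last one. -/
theorem Stuck.good {E : List (ℕ × ℕ)} {D P : List ℕ} (h : Stuck E D P)
    (hb : ¬ Bad (grN E) D.toFinset 1) (hc : Conn (grN E) D.toFinset) (hP : P ≠ []) {v : ℕ}
    (hv : v ∈ D) (hvP : v ∉ P) :
    (∃ (i : ℕ) (hi : i + 1 < P.length), adj E v P[i] = true ∧ adj E v P[i + 1] = true) ∨
      ∃ (hi : P.length - 1 < P.length), 1 < P.length ∧ adj E v P[P.length - 1] = true := by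
  classical
  by_contra hcon
  rw [not_or] at hcon
  obtain ⟨hcon1, hcon2⟩ := hcon
  have hPl : 0 < P.length := List.length_pos_iff.mpr hP
  have hvD := List.mem_toFinset.mpr hv
  have hneP : ∀ (j : ℕ) (hj : j < P.length), v ≠ P[j] := by
    intro j hj h'
    apply hvP
    rw [h']
    exact List.getElem_mem _
  have hnd := (indP_iff.mp h.ind).1
  have hint : ∀ (i : ℕ) (hi : i + 1 < P.length), 1 ≤ i → adj E v P[i] = false := by
    intro i hi h1
    apply bfalse
    intro h2
    have hm1 : i - 1 < P.length := by omega
    refine no_claw hb (a := P[i]) (b := v) (c := P[i - 1]) (d := P[i + 1]) (h.mem (by omega))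
      hvD (h.mem hm1) (h.mem hi) (by rw [adj_symm]; exact h2) ?_ ?_ (hneP _ _) (hneP _ _) ?_
      ?_ ?_ ?_
    · rw [h.adj_iff (by omega) hm1]; omega
    · rw [h.adj_iff (by omega) hi]; omega
    · intro h'
      have := (hnd.getElem_inj_iff).mp h'
      omega
    · apply bfalse
      intro h3
      apply hcon1
      refine ⟨i - 1, by omega, h3, ?_⟩
      have : i - 1 + 1 = i := by omega
      simp only [this]
      exact h2
    · apply bfalse
      intro h3
      exact hcon1 ⟨i, hi, h2, h3⟩
    · apply bfalse; rw [h.adj_iff hm1 hi]; omega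
  obtain ⟨i, hi, hiv⟩ := h.dom' hb hc hP hv hvP
  -- `v` is adjacent to the first vertex
  by_cases h1 : P.length = 1
  · have := front1 (E := E) (Q := P) h.ind hvP (y := v) (fun h0 => by
      have : i = 0 := by omega
      subst this
      exact hiv) (fun j hj hj2 => by omega)
    rw [h.no1 hv] at this
    simp at this
  · have hlast : adj E v P[P.length - 1] = false := by
      apply bfalse
      intro h2
      exact hcon2 ⟨by omega, by omega, h2⟩
    have hi0 : i = 0 := by
      by_contra hi0
      by_cases hi1 : i + 1 < P.length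
      · rw [hint i hi1 (by omega)] at hiv
        simp at hiv
      · have : i = P.length - 1 := by omega
        subst this
        rw [hlast] at hiv
        simp at hiv
    subst hi0
    have := front1 (E := E) (Q := P) h.ind hvP (y := v) (fun _ => hiv) (fun j hj hj2 => by
      by_cases hj1 : j + 1 < P.length
      · exact hint j hj1 hj2
      · have : j = P.length - 1 := by omega
        subst this
        exact hlast)
    rw [h.no1 hv] at this
    simp at this

theorem length_cands {D P Q : List ℕ} (hP : P ≠ []) (h : Q ∈ cands D P) :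
    Q.length = P.length + 1 := by
  have hPl : 0 < P.length := List.length_pos_iff.mpr hP
  unfold cands at h
  rw [List.mem_flatMap] at h
  obtain ⟨e, he, h⟩ := h
  rw [List.mem_cons, List.mem_map] at h
  rcases h with h | ⟨v, hv, h⟩
  · subst h; rfl
  · subst h
    simp only [List.length_cons, List.length_tail]
    omega

theorem lenS_of_stuck {E : List (ℕ × ℕ)} {D P : List ℕ} (h : Stuck E D P) : lenS E D P = P := by
  rcases lenS_cases E D P with h1 | h1
  · exact h1.1
  · have := h.no _ h1.1
    rw [h1.2] at this
    simp at this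

theorem iter_inv {E : List (ℕ × ℕ)} {D : List ℕ} (hD : D ≠ []) (k : ℕ) :
    indP E ((lenS E D)^[k] (D.take 1)) = true ∧ (lenS E D)^[k] (D.take 1) ≠ [] ∧
      (Stuck E D ((lenS E D)^[k] (D.take 1)) ∨
        ((lenS E D)^[k] (D.take 1)).length = k + 1) := by
  induction k with
  | zero =>
    obtain ⟨d, l, rfl⟩ := List.exists_cons_of_ne_nil hD
    refine ⟨by simp [indP], by simp, Or.inr (by simp)⟩
  | succ k ih =>
    rw [Function.iterate_succ_apply']
    have hsub := (iter_bound E D k).1
    generalize (lenS E D)^[k] (D.take 1) = P at ih hsub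
    obtain ⟨h1, h2, h3⟩ := ih
    rcases lenS_cases E D P with h4 | h4
    · rw [h4.1]
      exact ⟨h1, h2, Or.inl ⟨h1, hsub, h4.2⟩⟩
    · have h6 : (lenS E D P).length = P.length + 1 := by
        have h5 := h4.1
        rw [List.mem_append] at h5
        rcases h5 with h5 | h5
        · exact length_cands h2 h5
        · have := length_cands (by simpa using h2) h5
          rwa [List.length_reverse] at this
      refine ⟨h4.2, ?_, ?_⟩
      · intro h7
        rw [h7] at h6
        simp at h6
      · rcases h3 with h3 | h3
        · rw [lenS_of_stuck h3]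
          exact Or.inl h3
        · right
          rw [h6, h3]

theorem length_le_of_sub {P D : List ℕ} (hP : P.Nodup) (h : ∀ v ∈ P, v ∈ D) :
    P.length ≤ D.length := by
  have := hP.subperm h
  exact this.length_le

theorem maxP_stuck {E : List (ℕ × ℕ)} {D : List ℕ} (hD : D ≠ []) :
    Stuck E D (maxP E D) ∧ maxP E D ≠ [] := by
  have h := iter_inv (E := E) hD D.length
  refine ⟨?_, h.2.1⟩
  rcases h.2.2 with h1 | h1
  · exact h1
  · exfalso
    have h2 := length_le_of_sub (indP_iff.mp h.1).1 (iter_bound E D D.length).1
    omega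

/-! ### The cover by two paths -/

/-- Consecutive vertices are adjacent. -/
abbrev Ch (E : List (ℕ × ℕ)) (l : List ℕ) : Prop := l.IsChain (fun a b => adj E a b = true)

theorem Ch.reverse {E : List (ℕ × ℕ)} {l : List ℕ} (h : Ch E l) : Ch E l.reverse := by
  unfold Ch
  rw [List.isChain_reverse]
  refine List.IsChain.imp ?_ h
  intro a b hab
  rw [adj_symm]
  exact hab

theorem cov_spec {E : List (ℕ × ℕ)} {A : List ℕ}
    (hA : ∀ a ∈ A, ∀ b ∈ A, ∀ c ∈ A, a ≠ b → a ≠ c → b ≠ c →
      adj E a b = true ∨ adj E a c = true ∨ adj E b c = true) (L : List ℕ) :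
    ∀ z : List ℕ × List ℕ, Ch E z.1 → Ch E z.2 → (z.1 = [] → z.2 = []) →
      (z.1 ++ z.2 ++ L).Nodup → (∀ v ∈ z.1 ++ z.2 ++ L, v ∈ A) →
      Ch E (L.foldl (covS E) z).1 ∧ Ch E (L.foldl (covS E) z).2 ∧
        ((L.foldl (covS E) z).1 ++ (L.foldl (covS E) z).2).Perm (z.1 ++ z.2 ++ L) := by
  induction L with
  | nil =>
    intro z h1 h2 _ _ _
    exact ⟨h1, h2, by simp⟩
  | cons v L ih =>
    rintro ⟨Q1, Q2⟩ h1 h2 h0 h3 h4
    simp only at h1 h2 h0 h3 h4
    rw [List.foldl_cons]
    simp only
    have key : ∀ z : List ℕ × List ℕ, Ch E z.1 → Ch E z.2 → (z.1 = [] → z.2 = []) →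
        (z.1 ++ z.2 ++ L).Perm (Q1 ++ Q2 ++ v :: L) →
        Ch E (L.foldl (covS E) z).1 ∧ Ch E (L.foldl (covS E) z).2 ∧
        ((L.foldl (covS E) z).1 ++ (L.foldl (covS E) z).2).Perm (Q1 ++ Q2 ++ v :: L) := by
      intro z g1 g2 g0 g3
      have := ih z g1 g2 g0 (g3.nodup_iff.mpr h3) (fun w hw => h4 w (g3.mem_iff.mp hw))
      exact ⟨this.1, this.2.1, this.2.2.trans g3⟩
    unfold covS
    simp only
    split
    · rename_i hc
      apply key
      · simp only
        rw [Bool.or_eq_true, decide_eq_true_eq] at hc
        rcases Q1 with _ | ⟨q, Q1⟩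
        · exact List.isChain_singleton _
        · refine List.IsChain.cons_cons ?_ h1
          rcases hc with hc | hc
          · simp at hc
          · rw [adj_symm]
            exact hc
      · exact h2
      · intro h; simp at h
      · simp only [List.cons_append]
        rw [List.append_assoc, List.append_assoc]
        have : (v :: (Q1 ++ (Q2 ++ L))).Perm (Q1 ++ (Q2 ++ v :: L)) := by
          rw [← List.append_assoc, ← List.append_assoc]
          exact List.perm_middle.symm
        exact this
    · rename_i hc
      split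
      · rename_i hc2
        apply key
        · exact h1
        · simp only
          rw [Bool.or_eq_true, decide_eq_true_eq] at hc2
          rcases Q2 with _ | ⟨q, Q2⟩
          · exact List.isChain_singleton _
          · refine List.IsChain.cons_cons ?_ h2
            rcases hc2 with hc2 | hc2
            · simp at hc2
            · rw [adj_symm]
              exact hc2
        · intro h
          simp only at h
          rw [h] at hc
          simp at hc
        · simp only
          rw [List.append_assoc, List.append_assoc]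
          apply List.Perm.append_left
          exact List.perm_middle.symm
      · rename_i hc2
        rw [Bool.not_eq_true, Bool.or_eq_false_iff, decide_eq_false_iff_not] at hc hc2
        obtain ⟨q1, Q1, rfl⟩ := List.exists_cons_of_ne_nil hc.1
        obtain ⟨q2, Q2, rfl⟩ := List.exists_cons_of_ne_nil hc2.1
        have hq : adj E q1 q2 = true := by
          have hh := hA q1 (h4 _ (by simp)) q2 (h4 _ (by simp)) v (h4 _ (by simp)) ?_ ?_ ?_
          · rcases hh with hh | hh | hh
            · exact hh
            · rw [show adj E q1 v = false from hc.2] at hh; simp at hh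
            · rw [show adj E q2 v = false from hc2.2] at hh; simp at hh
          · intro h'
            subst h'
            simp [List.nodup_append] at h3
          · intro h'
            subst h'
            simp [List.nodup_append] at h3
          · intro h'
            subst h'
            simp [List.nodup_append] at h3
        apply key
        · simp only
          unfold Ch
          rw [List.isChain_append]
          refine ⟨h1.reverse, h2, ?_⟩
          intro x hx y hy
          simp only [List.getLast?_reverse, List.head?_cons, Option.mem_def,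
            Option.some.injEq] at hx hy
          subst hx hy
          exact hq
        · exact List.isChain_singleton _
        · intro h; simp at h
        · simp only
          refine List.Perm.trans (List.Perm.append_right _ (List.Perm.append_right _
            (List.Perm.append_right _ (List.reverse_perm _)))) ?_
          simp

/-! ### Assembling -/

/-- The vertex is adjacent to two consecutive vertices of the list, or to the last one. -/
def Gd (E : List (ℕ × ℕ)) (v : ℕ) : List ℕ → Prop
  | [] => False
  | [p] => adj E v p = true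
  | p :: q :: l => (adj E v p = true ∧ adj E v q = true) ∨ Gd E v (q :: l)

theorem Gd_of_pair {E : List (ℕ × ℕ)} {v : ℕ} {P : List ℕ} : ∀ (i : ℕ) (hi : i + 1 < P.length),
    adj E v P[i] = true → adj E v P[i + 1] = true → Gd E v P := by
  induction P with
  | nil => intro i hi; simp at hi
  | cons p l ih =>
    intro i hi h1 h2
    rcases l with _ | ⟨q, l⟩
    · simp at hi
    · rcases i with _ | i
      · exact Or.inl ⟨h1, h2⟩
      · right
        exact ih i (by simpa using hi) h1 h2

theorem Gd_of_last {E : List (ℕ × ℕ)} {v : ℕ} {P : List ℕ} (hi : P.length - 1 < P.length)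
    (h : adj E v P[P.length - 1] = true) : Gd E v P := by
  induction P with
  | nil => simp at hi
  | cons p l ih =>
    rcases l with _ | ⟨q, l⟩
    · exact h
    · right
      exact ih (by simp) (by simpa using h)

theorem asm_perm (E : List (ℕ × ℕ)) (P : List ℕ) : ∀ R : List ℕ,
    (asm E P R).Perm (P ++ R) := by
  induction P with
  | nil => intro R; exact List.Perm.refl _
  | cons p l ih =>
    intro R
    rcases l with _ | ⟨q, l⟩
    · exact List.Perm.refl _
    · simp only [asm]
      rw [List.cons_append]
      apply List.Perm.cons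
      refine List.Perm.trans (List.Perm.append_left _ (ih _)) ?_
      have h1 := List.filter_append_perm (fun v => adj E p v && adj E q v) R
      refine List.Perm.trans (List.perm_append_comm_assoc _ _ _) ?_
      exact List.Perm.append_left _ h1

theorem chain_of_clique {E : List (ℕ × ℕ)} {l : List ℕ} (hl : l.Nodup)
    (h : ∀ a ∈ l, ∀ b ∈ l, a ≠ b → adj E a b = true) : Ch E l := by
  induction l with
  | nil => exact List.isChain_nil
  | cons a l ih =>
    rcases l with _ | ⟨b, l⟩
    · exact List.isChain_singleton _
    · rw [List.nodup_cons] at hl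
      refine List.IsChain.cons_cons ?_ (ih hl.2 (fun x hx y hy => h x (by simp [hx]) y
        (by simp [hy])))
      apply h a (by simp) b (by simp)
      intro h'
      subst h'
      exact hl.1 (by simp)

theorem asm_chain {E : List (ℕ × ℕ)} {D : Finset ℕ} (hb : ¬ Bad (grN E) D 1) (l : List ℕ) :
    ∀ (p' p : ℕ) (R : List ℕ), indP E (p' :: p :: l) = true →
      (∀ v ∈ p' :: p :: l, v ∈ D) → (∀ v ∈ R, v ∈ D) → (∀ v ∈ R, v ∉ p' :: p :: l) →
      R.Nodup → (∀ v ∈ R, ¬ (adj E p' v = true ∧ adj E p v = true)) →
      (∀ v ∈ R, Gd E v (p :: l)) → Ch E (asm E (p :: l) R) ∧ (asm E (p :: l) R).head? = some p := by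
  induction l with
  | nil =>
    intro p' p R hP hPD hRD hRP hR hinv hG
    refine ⟨?_, rfl⟩
    simp only [asm]
    have hpp : adj E p p' = true := by
      rw [indP_cons] at hP
      rw [adj_symm]
      exact hP.2.1 (by simp)
    have hadj : ∀ v ∈ R, adj E p v = true := by
      intro v hv
      rw [adj_symm]
      exact hG v hv
    have hcl : ∀ a ∈ R, ∀ b ∈ R, a ≠ b → adj E a b = true := by
      intro a ha b hb' hab
      by_contra hcon
      refine no_claw hb (a := p) (b := p') (c := a) (d := b) (hPD p (by simp)) (hPD p' (by simp))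
        (hRD a ha) (hRD b hb') hpp (hadj a ha) (hadj b hb') ?_ ?_ hab ?_ ?_ (bfalse hcon)
      · intro h'; subst h'; exact hRP _ ha (by simp)
      · intro h'; subst h'; exact hRP _ hb' (by simp)
      · apply bfalse; intro h'; exact hinv a ha ⟨h', hadj a ha⟩
      · apply bfalse; intro h'; exact hinv b hb' ⟨h', hadj b hb'⟩
    rcases R with _ | ⟨r, R⟩
    · exact List.isChain_singleton _
    · exact List.IsChain.cons_cons (hadj r (by simp)) (chain_of_clique hR hcl)
  | cons q l ih =>
    intro p' p R hP hPD hRD hRP hR hinv hG
    refine ⟨?_, rfl⟩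
    simp only [asm]
    have hP2 : indP E (p :: q :: l) = true := by
      rw [indP_cons] at hP
      exact hP.2.2.2
    have hpp : adj E p p' = true := by
      rw [indP_cons] at hP
      rw [adj_symm]
      exact hP.2.1 (by simp)
    have hpq : adj E p q = true := by
      rw [indP_cons] at hP2
      exact hP2.2.1 (by simp)
    have hih := ih p q (R.filter (fun v => !(adj E p v && adj E q v))) hP2
      (fun v hv => hPD v (List.mem_cons_of_mem _ hv))
      (fun v hv => hRD v (List.mem_of_mem_filter hv))
      (fun v hv h' => hRP v (List.mem_of_mem_filter hv) (List.mem_cons_of_mem _ h'))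
      (hR.filter _) ?_ ?_
    · have hA : ∀ v ∈ R.filter (fun v => adj E p v && adj E q v), v ∈ R ∧ adj E p v = true ∧
          adj E q v = true := by
        intro v hv
        rw [List.mem_filter, Bool.and_eq_true] at hv
        exact hv
      have hcl : ∀ a ∈ R.filter (fun v => adj E p v && adj E q v),
          ∀ b ∈ R.filter (fun v => adj E p v && adj E q v), a ≠ b → adj E a b = true := by
        intro a ha b hb' hab
        obtain ⟨ha1, ha2, ha3⟩ := hA a ha
        obtain ⟨hb1, hb2, hb3⟩ := hA b hb'
        by_contra hcon
        refine no_claw hb (a := p) (b := p') (c := a) (d := b) (hPD p (by simp))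
          (hPD p' (by simp)) (hRD a ha1) (hRD b hb1) hpp ha2 hb2 ?_ ?_ hab ?_ ?_ (bfalse hcon)
        · intro h'; subst h'; exact hRP _ ha1 (by simp)
        · intro h'; subst h'; exact hRP _ hb1 (by simp)
        · apply bfalse; intro h'; exact hinv a ha1 ⟨h', ha2⟩
        · apply bfalse; intro h'; exact hinv b hb1 ⟨h', hb2⟩
      have hch := chain_of_clique (hR.filter _) hcl
      have hch2 : Ch E (R.filter (fun v => adj E p v && adj E q v) ++
          asm E (q :: l) (R.filter (fun v => !(adj E p v && adj E q v)))) := by
        unfold Ch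
        rw [List.isChain_append]
        refine ⟨hch, hih.1, ?_⟩
        intro x hx y hy
        rw [hih.2] at hy
        simp only [Option.mem_def, Option.some.injEq] at hy
        subst hy
        have := (hA x (List.mem_of_mem_getLast? hx)).2.2
        rw [adj_symm]
        exact this
      rcases hF : R.filter (fun v => adj E p v && adj E q v) with _ | ⟨f, F⟩
      · rw [hF] at hch2
        rw [List.nil_append] at hch2 ⊢
        have h2 := hih.2
        revert hch2 h2
        generalize asm E (q :: l) (R.filter (fun v => !(adj E p v && adj E q v))) = W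
        intro hch2 h2
        rcases W with _ | ⟨w, W⟩
        · simp at h2
        · simp only [List.head?_cons, Option.some.injEq] at h2
          subst h2
          exact List.IsChain.cons_cons hpq hch2
      · rw [hF] at hch2
        rw [List.cons_append] at hch2 ⊢
        refine List.IsChain.cons_cons ?_ hch2
        exact (hA f (by rw [hF]; simp)).2.1
    · intro v hv
      rw [List.mem_filter, Bool.not_eq_true', Bool.and_eq_false_iff] at hv
      rintro ⟨h1, h2⟩
      rcases hv.2 with h3 | h3
      · rw [h1] at h3; simp at h3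
      · rw [h2] at h3; simp at h3
    · intro v hv
      rw [List.mem_filter, Bool.not_eq_true', Bool.and_eq_false_iff] at hv
      rcases hG v hv.1 with h1 | h1
      · exfalso
        rcases hv.2 with h3 | h3
        · rw [adj_symm, h1.1] at h3; simp at h3
        · rw [adj_symm, h1.2] at h3; simp at h3
      · exact h1

theorem hamPath_spec {E : List (ℕ × ℕ)} {D : List ℕ} (hD : D.Nodup)
    (hc : Conn (grN E) D.toFinset) (hb : ¬ Bad (grN E) D.toFinset 1) :
    (hamPath E D).Nodup ∧ (∀ v, v ∈ hamPath E D ↔ v ∈ D) ∧
      (hamPath E D).IsChain (fun a b => adj E a b = true) := by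
  have hD0 : D ≠ [] := by
    intro h
    have := hc.1
    rw [h] at this
    simp at this
  obtain ⟨hS, hP0⟩ := maxP_stuck (E := E) hD0
  unfold hamPath
  generalize maxP E D = P at hS hP0
  have hnd := (indP_iff.mp hS.ind).1
  rcases P with _ | ⟨p, _ | ⟨q, l⟩⟩
  · exact absurd rfl hP0
  · -- one vertex
    have hDp : ∀ v ∈ D, v = p := by
      intro v hv
      by_contra hvp
      have hvP : v ∉ [p] := by simpa using hvp
      rcases hS.good hb hc hP0 hv hvP with ⟨i, hi, _⟩ | ⟨_, h1, _⟩
      · simp at hi
      · simp at h1
    unfold finP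
    simp only [List.tail_cons, decide_true, if_true]
    refine ⟨by simp, ?_, List.isChain_singleton _⟩
    intro v
    constructor
    · intro hv
      exact hS.sub v hv
    · intro hv
      rw [hDp v hv]
      simp
  · have hfin : finP E D (p :: q :: l) =
        (covP E (bothP E p q (offP D (p :: q :: l)))).1 ++ p ::
          ((covP E (bothP E p q (offP D (p :: q :: l)))).2 ++
            asm E (q :: l) (restP E p q (offP D (p :: q :: l)))) := by
      unfold finP
      simp [at']
    rw [hfin]
    have hpq : adj E p q = true := by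
      have := hS.ind
      rw [indP_cons] at this
      exact this.2.1 (by simp)
    -- the vertices off the path
    have hoff : ∀ v ∈ offP D (p :: q :: l), v ∈ D ∧ v ∉ p :: q :: l := by
      intro v hv
      unfold offP at hv
      rw [List.mem_filter] at hv
      simpa using hv
    have hoffnd : (offP D (p :: q :: l)).Nodup := hD.filter _
    have hboth : ∀ v ∈ bothP E p q (offP D (p :: q :: l)), v ∈ offP D (p :: q :: l) ∧
        adj E p v = true ∧ adj E q v = true := by
      intro v hv
      unfold bothP at hv
      rw [List.mem_filter, Bool.and_eq_true] at hv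
      exact hv
    have hrest : ∀ v ∈ restP E p q (offP D (p :: q :: l)), v ∈ offP D (p :: q :: l) ∧
        ¬ (adj E p v = true ∧ adj E q v = true) := by
      intro v hv
      unfold restP at hv
      rw [List.mem_filter, Bool.not_eq_true', ← Bool.not_eq_true, Bool.and_eq_true] at hv
      exact hv
    have hcov := cov_spec (E := E) (A := bothP E p q (offP D (p :: q :: l))) (by
      intro a ha b hb' c hc' hab hac hbc
      obtain ⟨ha1, ha2, ha3⟩ := hboth a ha
      obtain ⟨hb1, hb2, hb3⟩ := hboth b hb'
      obtain ⟨hc1, hc2, hc3⟩ := hboth c hc'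
      by_contra hcon
      rw [not_or, not_or] at hcon
      exact no_claw hb (a := p) (b := a) (c := b) (d := c) (hS.mem (i := 0) (by simp))
        (List.mem_toFinset.mpr (hoff a ha1).1) (List.mem_toFinset.mpr (hoff b hb1).1)
        (List.mem_toFinset.mpr (hoff c hc1).1) ha2 hb2 hc2 hab hac hbc (bfalse hcon.1)
        (bfalse hcon.2.1) (bfalse hcon.2.2)) (bothP E p q (offP D (p :: q :: l))) ([], [])
      List.isChain_nil List.isChain_nil (fun _ => rfl) (by
        rw [List.append_nil, List.nil_append]
        exact hoffnd.filter _)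
      (by simp)
    have hasm := asm_chain hb l p q (restP E p q (offP D (p :: q :: l))) hS.ind
      (fun v hv => List.mem_toFinset.mpr (hS.sub v hv))
      (fun v hv => List.mem_toFinset.mpr (hoff v (hrest v hv).1).1)
      (fun v hv => (hoff v (hrest v hv).1).2) (hoffnd.filter _) (fun v hv => (hrest v hv).2) (by
        intro v hv
        have h1 := hrest v hv
        have h2 := hoff v h1.1
        have h3 : Gd E v (p :: q :: l) := by
          rcases hS.good hb hc hP0 h2.1 h2.2 with ⟨i, hi, h4, h5⟩ | ⟨hi, _, h4⟩
          · exact Gd_of_pair i hi h4 h5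
          · exact Gd_of_last hi h4
        rcases h3 with h3 | h3
        · exfalso
          apply h1.2
          rw [adj_symm E p, adj_symm E q]
          exact h3
        · exact h3)
    have hap := asm_perm E (q :: l) (restP E p q (offP D (p :: q :: l)))
    unfold covP
    simp only [List.nil_append] at hcov
    generalize hz : (bothP E p q (offP D (p :: q :: l))).foldl (covS E) ([], []) = z at hcov
    obtain ⟨hz1, hz2, hz3⟩ := hcov
    generalize hW : asm E (q :: l) (restP E p q (offP D (p :: q :: l))) = W at hasm hap
    -- the permutation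
    have hperm : (z.1 ++ p :: (z.2 ++ W)).Perm D := by
      have e1 : (z.1 ++ p :: (z.2 ++ W)).Perm (p :: ((z.1 ++ z.2) ++ W)) := by
        rw [List.append_assoc]
        exact List.perm_middle
      have e2 : ((z.1 ++ z.2) ++ W).Perm (bothP E p q (offP D (p :: q :: l)) ++
          (q :: l ++ restP E p q (offP D (p :: q :: l)))) := List.Perm.append hz3 hap
      have e3 : (bothP E p q (offP D (p :: q :: l)) ++
          (q :: l ++ restP E p q (offP D (p :: q :: l)))).Perm
          (q :: l ++ offP D (p :: q :: l)) := by
        refine List.Perm.trans (List.perm_append_comm_assoc _ _ _) ?_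
        exact List.Perm.append_left _ (List.filter_append_perm _ _)
      refine e1.trans ((List.Perm.cons p (e2.trans e3)).trans ?_)
      rw [← List.cons_append]
      have e4 : (p :: q :: l).Perm (D.filter (fun v => decide (v ∈ p :: q :: l))) := by
        rw [List.perm_ext_iff_of_nodup hnd (hD.filter _)]
        intro v
        rw [List.mem_filter, decide_eq_true_eq]
        exact ⟨fun h => ⟨hS.sub v h, h⟩, fun h => h.2⟩
      refine (List.Perm.append_right _ e4).trans ?_
      exact List.filter_append_perm _ _
    refine ⟨hperm.nodup_iff.mpr hD, fun v => hperm.mem_iff, ?_⟩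
    have hzA : ∀ v ∈ z.1 ++ z.2, adj E p v = true ∧ adj E q v = true := by
      intro v hv
      exact (hboth v (hz3.mem_iff.mp hv)).2
    rw [List.isChain_append]
    have hW1 : Ch E (p :: (z.2 ++ W)) := by
      have hW2 : Ch E (z.2 ++ W) := by
        unfold Ch
        rw [List.isChain_append]
        refine ⟨hz2, hasm.1, ?_⟩
        intro x hx y hy
        rw [hasm.2] at hy
        simp only [Option.mem_def, Option.some.injEq] at hy
        subst hy
        rw [adj_symm]
        exact (hzA x (List.mem_append_right _ (List.mem_of_mem_getLast? hx))).2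
      rcases h2 : z.2 with _ | ⟨w, Z⟩
      · rw [List.nil_append]
        rcases W with _ | ⟨w, W⟩
        · simp at hasm
        · have := hasm.2
          simp only [List.head?_cons, Option.some.injEq] at this
          subst this
          exact List.IsChain.cons_cons hpq hasm.1
      · rw [h2] at hW2
        rw [List.cons_append] at hW2 ⊢
        refine List.IsChain.cons_cons ?_ hW2
        exact (hzA w (by rw [h2]; simp)).1
    refine ⟨hz1, hW1, ?_⟩
    intro x hx y hy
    simp only [List.head?_cons, Option.mem_def, Option.some.injEq] at hy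
    subst hy
    rw [adj_symm]
    exact (hzA x (List.mem_append_left _ (List.mem_of_mem_getLast? hx))).1

end Pool.Agent.H52.PE
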