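import Mathlib
import Pool.Agent.H52.PE.Defs

/-!
# Connectivity, tails and the potential
-/

namespace Pool.Agent.H52.PE

variable {V : Type*} [DecidableEq V] {G : SimpleGraph V} {D D1 U K : Finset V} {f g w x y z : V}
  {t m : ℕ}

/-! ### Connectivity -/

theorem Conn.insert_adj (h : Conn G D) (hy : y ∈ D) (ha : G.Adj x y) : Conn G (insert x D) := by
  refine ⟨⟨x, Finset.mem_insert_self _ _⟩, ?_⟩
  intro A hA hne hcl
  by_cases hAD : (A ∩ D).Nonempty
  · have h1 : A ∩ D = D := h.2 (A ∩ D) Finset.inter_subset_right hAD (by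
      intro a ha b hb hab
      rw [Finset.mem_inter] at ha ⊢
      exact ⟨hcl a ha.1 b (Finset.mem_insert_of_mem hb) hab, hb⟩)
    have h2 : D ⊆ A := by rw [← h1]; exact Finset.inter_subset_left
    apply Finset.Subset.antisymm hA
    intro a ha'
    rcases Finset.mem_insert.1 ha' with rfl | ha'
    · exact hcl y (h2 hy) a (Finset.mem_insert_self _ _) ha.symm
    · exact h2 ha'
  · exfalso
    obtain ⟨a, ha'⟩ := hne
    have hax : a = x := by
      rcases Finset.mem_insert.1 (hA ha') with h1 | h1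
      · exact h1
      · exact absurd ⟨a, Finset.mem_inter.2 ⟨ha', h1⟩⟩ hAD
    subst hax
    exact hAD ⟨y, Finset.mem_inter.2 ⟨hcl a ha' y (Finset.mem_insert_of_mem hy) ha, hy⟩⟩

theorem Conn.erase_leaf (h : Conn G D) (hf : f ∈ D) (hw : ∀ x ∈ D, G.Adj f x → x = w)
    (hne : (D.erase f).Nonempty) : Conn G (D.erase f) := by
  refine ⟨hne, ?_⟩
  intro A hA hAne hcl
  have hfA : f ∉ A := fun h' => by simpa using hA h'
  by_cases hwA : w ∈ A
  · have h1 : insert f A = D := h.2 (insert f A) (by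
        intro a ha
        rcases Finset.mem_insert.1 ha with rfl | ha
        · exact hf
        · exact Finset.mem_of_mem_erase (hA ha)) ⟨f, Finset.mem_insert_self _ _⟩ (by
      intro a ha b hb hab
      by_cases hbf : b = f
      · rw [hbf]; exact Finset.mem_insert_self _ _
      · apply Finset.mem_insert_of_mem
        rcases Finset.mem_insert.1 ha with rfl | ha
        · rw [hw b hb hab]; exact hwA
        · exact hcl a ha b (Finset.mem_erase.2 ⟨hbf, hb⟩) hab)
    rw [← h1, Finset.erase_insert hfA]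
  · exfalso
    have h1 : A = D := h.2 A (fun a ha => Finset.mem_of_mem_erase (hA ha)) hAne (by
      intro a ha b hb hab
      by_cases hbf : b = f
      · subst hbf
        have := hw a (Finset.mem_of_mem_erase (hA ha)) hab.symm
        subst this
        exact absurd ha hwA
      · exact hcl a ha b (Finset.mem_erase.2 ⟨hbf, hb⟩) hab)
    rw [h1] at hfA
    exact hfA hf

theorem Conn.exists_adj (h : Conn G D) (hv : x ∈ D) (hy : y ∈ D) (hxy : y ≠ x) :
    ∃ z ∈ D, G.Adj x z := by
  by_contra hcon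
  push Not at hcon
  have h1 : ({x} : Finset V) = D := h.2 {x} (by simpa using hv) ⟨x, by simp⟩ (by
    intro a ha b hb hab
    rw [Finset.mem_singleton] at ha
    subst ha
    exact absurd hab (hcon b hb))
  rw [← h1, Finset.mem_singleton] at hy
  exact hxy hy

/-- A cut vertex separates something from a given connected set. -/
theorem exists_sep (h : Conn G D) (hf : f ∈ D) (hn : ¬ Conn G (D.erase f)) (hK : Conn G K)
    (hKD : K ⊆ D.erase f) : ∃ A : Finset V, K ⊆ A ∧
      (∀ a ∈ A, ∀ b ∈ D.erase f, G.Adj a b → b ∈ A) ∧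
      ∃ b ∈ D, b ≠ f ∧ b ∉ A ∧ G.Adj b f := by
  have hne : (D.erase f).Nonempty := hK.1.mono hKD
  have : ∃ A0 ⊆ D.erase f, A0.Nonempty ∧ (∀ a ∈ A0, ∀ b ∈ D.erase f, G.Adj a b → b ∈ A0) ∧
      A0 ≠ D.erase f := by
    by_contra hcon
    push Not at hcon
    exact hn ⟨hne, fun A h1 h2 h3 => hcon A h1 h2 h3⟩
  obtain ⟨A0, h1, h2, h3, h4⟩ := this
  -- closed sets with closed complement
  have key : ∀ A : Finset V, A ⊆ D.erase f → (∀ a ∈ A, ∀ b ∈ D.erase f, G.Adj a b → b ∈ A) →
      A ≠ D.erase f → ∃ b ∈ D, b ≠ f ∧ b ∉ A ∧ G.Adj b f := by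
    intro A hA hcl hAne
    by_contra hcon
    push Not at hcon
    have hB : (D.erase f) \ A = D := h.2 _ (by
        intro a ha
        exact Finset.mem_of_mem_erase (Finset.mem_sdiff.1 ha).1) (by
        obtain ⟨b, hb1, hb2⟩ : ∃ b ∈ D.erase f, b ∉ A := by
          by_contra hc
          push Not at hc
          exact hAne (Finset.Subset.antisymm hA hc)
        exact ⟨b, Finset.mem_sdiff.2 ⟨hb1, hb2⟩⟩) (by
        intro a ha b hb hab
        rw [Finset.mem_sdiff] at ha ⊢
        by_cases hbf : b = f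
        · subst hbf
          exact absurd hab (hcon a (Finset.mem_of_mem_erase ha.1) (Finset.ne_of_mem_erase ha.1)
            ha.2)
        · have hb' : b ∈ D.erase f := Finset.mem_erase.2 ⟨hbf, hb⟩
          exact ⟨hb', fun hbA => ha.2 (hcl b hbA a ha.1 hab.symm)⟩)
    have : f ∈ (D.erase f) \ A := by rw [hB]; exact hf
    simp at this
  by_cases hKA : (K ∩ A0).Nonempty
  · have h5 : K ∩ A0 = K := hK.2 _ Finset.inter_subset_left hKA (by
      intro a ha b hb hab
      rw [Finset.mem_inter] at ha ⊢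
      exact ⟨hb, h3 a ha.2 b (hKD hb) hab⟩)
    refine ⟨A0, ?_, h3, key A0 h1 h3 h4⟩
    rw [← h5]
    exact Finset.inter_subset_right
  · refine ⟨(D.erase f) \ A0, ?_, ?_, ?_⟩
    · intro a ha
      rw [Finset.mem_sdiff]
      exact ⟨hKD ha, fun h => hKA ⟨a, Finset.mem_inter.2 ⟨ha, h⟩⟩⟩
    · intro a ha b hb hab
      rw [Finset.mem_sdiff] at ha ⊢
      exact ⟨hb, fun hbA => ha.2 (h3 b hbA a ha.1 hab.symm)⟩
    · refine key _ Finset.sdiff_subset ?_ ?_
      · intro a ha b hb hab
        rw [Finset.mem_sdiff] at ha ⊢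
        exact ⟨hb, fun hbA => ha.2 (h3 b hbA a ha.1 hab.symm)⟩
      · intro he
        obtain ⟨a, ha⟩ := h2
        have : a ∈ D.erase f \ A0 := by rw [he]; exact h1 ha
        exact (Finset.mem_sdiff.1 this).2 ha

/-! ### Degrees -/

theorem deg_eq_one_iff : deg G D x = 1 ↔ ∃ w ∈ D, G.Adj x w ∧ ∀ y ∈ D, G.Adj x y → y = w := by
  classical
  unfold deg
  rw [Finset.card_eq_one]
  constructor
  · rintro ⟨w, hw⟩
    have h1 : w ∈ D ∧ G.Adj x w := by
      have : w ∈ D.filter (fun u => G.Adj x u) := by rw [hw]; simp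
      simpa using this
    refine ⟨w, h1.1, h1.2, fun y hy hxy => ?_⟩
    have : y ∈ D.filter (fun u => G.Adj x u) := by simp [hy, hxy]
    rw [hw] at this
    simpa using this
  · rintro ⟨w, h1, h2, h3⟩
    refine ⟨w, ?_⟩
    ext y
    simp only [Finset.mem_filter, Finset.mem_singleton]
    constructor
    · rintro ⟨a, b⟩; exact h3 y a b
    · rintro rfl; exact ⟨h1, h2⟩

theorem deg_erase_of_not_adj (h : ¬ G.Adj x f) : deg G (D.erase f) x = deg G D x := by
  classical
  unfold deg
  congr 1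
  ext y
  simp only [Finset.mem_filter, Finset.mem_erase]
  constructor
  · rintro ⟨⟨_, a⟩, b⟩; exact ⟨a, b⟩
  · rintro ⟨a, b⟩
    exact ⟨⟨fun h' => h (h' ▸ b), a⟩, b⟩

theorem deg_erase_of_adj (hf : f ∈ D) (h : G.Adj x f) : deg G (D.erase f) x + 1 = deg G D x := by
  classical
  unfold deg
  have : (D.erase f).filter (fun u => G.Adj x u) = (D.filter (fun u => G.Adj x u)).erase f := by
    ext y
    simp only [Finset.mem_filter, Finset.mem_erase]
    tauto
  rw [this, Finset.card_erase_of_mem (by simp [hf, h])]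
  have : 0 < (D.filter (fun u => G.Adj x u)).card := Finset.card_pos.2 ⟨f, by simp [hf, h]⟩
  omega

theorem deg_mono {D D' : Finset V} (h : D ⊆ D') : deg G D x ≤ deg G D' x := by
  classical
  unfold deg
  exact Finset.card_le_card (Finset.filter_subset_filter _ h)

theorem deg_insert_of_not_adj (h : ¬ G.Adj x f) : deg G (insert f D) x = deg G D x := by
  classical
  unfold deg
  rw [Finset.filter_insert, if_neg h]

theorem deg_insert_of_adj (hf : f ∉ D) (h : G.Adj x f) :
    deg G (insert f D) x = deg G D x + 1 := by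
  classical
  unfold deg
  rw [Finset.filter_insert, if_pos h, Finset.card_insert_of_notMem (by simp [hf])]

/-- A vertex with the only neighbour `w`. -/
def Pend (G : SimpleGraph V) (D : Finset V) (f w : V) : Prop :=
  f ∈ D ∧ w ∈ D ∧ G.Adj f w ∧ ∀ x ∈ D, G.Adj f x → x = w

theorem Pend.deg (h : Pend G D f w) : deg G D f = 1 :=
  deg_eq_one_iff.2 ⟨w, h.2.1, h.2.2.1, h.2.2.2⟩

theorem Pend.ne (h : Pend G D f w) : w ≠ f := h.2.2.1.ne'

/-! ### Tails -/

theorem TL.mem (h : TL G (t + 1) D f) : f ∈ D := h.1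

theorem TL.deg (h : TL G (t + 1) D f) : PE.deg G D f = 1 := h.2.1

theorem TL.pred (h : TL G (t + 1) D f) : TL G t D f := by
  induction t generalizing D f with
  | zero => trivial
  | succ t ih =>
    obtain ⟨h1, h2, w, h3, h4, h5⟩ := h
    exact ⟨h1, h2, w, h3, h4, ih h5⟩

theorem TL.mono {s : ℕ} (h : TL G t D f) (hs : s ≤ t) : TL G s D f := by
  induction t with
  | zero => rw [Nat.le_zero.1 hs]; trivial
  | succ t ih =>
    rcases Nat.lt_or_ge s (t + 1) with h1 | h1
    · exact ih h.pred (by omega)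
    · rw [show s = t + 1 by omega]; exact h

theorem TL.succ_iff (h : Pend G D f w) : TL G (t + 1) D f ↔ TL G t (D.erase f) w := by
  constructor
  · rintro ⟨_, _, w', h3, h4, h5⟩
    rw [h.2.2.2 w' h3 h4] at h5
    exact h5
  · intro h'
    exact ⟨h.1, h.deg, w, h.2.1, h.2.2.1, h'⟩

/-- (L1) -/
theorem TL.of_erase (hf : Pend G D f w) (hw : PE.deg G D w = 2) (hg : g ∈ D.erase f)
    (hgw : g ≠ w) (h : TL G t (D.erase f) g) : TL G t D g := by
  induction t generalizing D g with
  | zero => trivial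
  | succ t ih =>
    obtain ⟨h1, h2, w', h3, h4, h5⟩ := h
    have hgf : ¬ G.Adj g f := fun h' => hgw (hf.2.2.2 g (Finset.mem_of_mem_erase hg) h'.symm)
    rw [deg_erase_of_not_adj hgf] at h2
    refine ⟨Finset.mem_of_mem_erase hg, h2, w', Finset.mem_of_mem_erase h3, h4, ?_⟩
    rcases Nat.eq_zero_or_pos t with rfl | ht
    · trivial
    obtain ⟨s, rfl⟩ : ∃ s, t = s + 1 := ⟨t - 1, by omega⟩
    by_cases hgw' : G.Adj g w
    · exfalso
      obtain ⟨q, _, _, hq⟩ := deg_eq_one_iff.1 h2
      have e1 : w' = w := by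
        rw [hq w' (Finset.mem_of_mem_erase h3) h4, hq w hf.2.1 hgw']
      subst e1
      have h6 := h5.deg
      have h7 := deg_erase_of_adj (G := G) (D := D.erase f) (f := g) (x := w') hg hgw'.symm
      have h8 := deg_erase_of_adj (G := G) (D := D) (f := f) (x := w') hf.1 hf.2.2.1.symm
      omega
    · have hw'w : w' ≠ w := fun h' => hgw' (h' ▸ h4)
      rw [Finset.erase_right_comm] at h5
      refine ih (D := D.erase g) ?_ ?_ ?_ hw'w h5
      · refine ⟨Finset.mem_erase.2 ⟨(Finset.ne_of_mem_erase hg).symm, hf.1⟩,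
          Finset.mem_erase.2 ⟨hgw.symm, hf.2.1⟩, hf.2.2.1, fun x hx hfx =>
            hf.2.2.2 x (Finset.mem_of_mem_erase hx) hfx⟩
      · rw [deg_erase_of_not_adj (fun h' => hgw' h'.symm)]
        exact hw
      · exact Finset.mem_erase.2 ⟨Finset.ne_of_mem_erase h3, Finset.mem_erase.2
          ⟨h4.ne', Finset.mem_of_mem_erase h3⟩⟩

/-- Two leaves are not adjacent if there is a vertex of degree three. -/
theorem not_adj_leaf (hD : Conn G D) {c : V} (hc : c ∈ D) (hc3 : 3 ≤ PE.deg G D c)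
    (hf : Pend G D f w) (hg : g ∈ D) (hg1 : PE.deg G D g = 1) : ¬ G.Adj g f := by
  intro h
  have e1 : g = w := hf.2.2.2 g hg h.symm
  subst e1
  obtain ⟨q, _, _, hq⟩ := deg_eq_one_iff.1 hg1
  have e2 : f = q := hq f hf.1 h
  subst e2
  have h1 : ({f, g} : Finset V) = D := hD.2 _ (by
      intro a ha
      rcases Finset.mem_insert.1 ha with rfl | ha
      · exact hf.1
      · rw [Finset.mem_singleton.1 ha]; exact hg) ⟨f, by simp⟩ (by
    intro a ha b hb hab
    simp only [Finset.mem_insert, Finset.mem_singleton] at ha ⊢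
    rcases ha with rfl | rfl
    · right; exact hf.2.2.2 b hb hab
    · left; exact hq b hb hab)
  rw [← h1] at hc
  simp only [Finset.mem_insert, Finset.mem_singleton] at hc
  rcases hc with rfl | rfl
  · rw [hf.deg] at hc3; omega
  · rw [hg1] at hc3; omega

/-- (L3) -/
theorem TL.erase (hD : Conn G D) {c : V} (hc : c ∈ D) (hc3 : 3 ≤ PE.deg G D c)
    (hf : Pend G D f w) (hgf : g ≠ f) (h : TL G t D g) : TL G t (D.erase f) g := by
  induction t generalizing D g with
  | zero => trivial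
  | succ t ih =>
    obtain ⟨h1, h2, w', h3, h4, h5⟩ := h
    have hna : ¬ G.Adj g f := not_adj_leaf hD hc hc3 hf h1 h2
    have hw'f : w' ≠ f := fun h' => hna (h' ▸ h4)
    refine ⟨Finset.mem_erase.2 ⟨hgf, h1⟩, ?_, w', Finset.mem_erase.2 ⟨hw'f, h3⟩, h4, ?_⟩
    · rw [deg_erase_of_not_adj hna]; exact h2
    rcases Nat.eq_zero_or_pos t with rfl | ht
    · trivial
    obtain ⟨s, rfl⟩ : ∃ s, t = s + 1 := ⟨t - 1, by omega⟩
    have h6 := h5.deg
    have h7 := deg_erase_of_adj (G := G) (D := D) (f := g) (x := w') h1 h4.symm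
    have hcw : c ≠ w' := by rintro rfl; omega
    have hcg : c ≠ g := by rintro rfl; omega
    obtain ⟨q, _, _, hq⟩ := deg_eq_one_iff.1 h2
    have hna' : ¬ G.Adj c g := by
      intro h'
      apply hcw
      rw [hq c hc h'.symm, hq w' h3 h4]
    rw [Finset.erase_right_comm]
    refine ih (D := D.erase g) ?_ (Finset.mem_erase.2 ⟨hcg, hc⟩) ?_ ?_ hw'f h5
    · exact hD.erase_leaf h1 hq ⟨c, Finset.mem_erase.2 ⟨hcg, hc⟩⟩
    · rw [deg_erase_of_not_adj hna']; exact hc3
    · refine ⟨Finset.mem_erase.2 ⟨hgf.symm, hf.1⟩, Finset.mem_erase.2 ⟨?_, hf.2.1⟩, hf.2.2.1,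
        fun x hx hfx => hf.2.2.2 x (Finset.mem_of_mem_erase hx) hfx⟩
      rintro rfl
      exact hna hf.2.2.1.symm

end Pool.Agent.H52.PE
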