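import Mathlib
import Pool.Agent.H52.PE.Tails

/-!
# How the potential changes
-/

namespace Pool.Agent.H52.PE

variable {V : Type*} [DecidableEq V] {G : SimpleGraph V} {D D1 U K : Finset V}
  {f g w x y z c g' u v : V} {t m : ℕ}

open Classical in
/-- The non-cut vertices. -/
noncomputable def NC (G : SimpleGraph V) (D : Finset V) : Finset V :=
  D.filter (fun v => Conn G (D.erase v))

theorem mem_NC : v ∈ NC G D ↔ v ∈ D ∧ Conn G (D.erase v) := by
  classical
  simp [NC]

theorem comp_zero : comp G 0 D = (NC G D).card := rfl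

open Classical in
/-- The ends of tails with at least `t` vertices. -/
noncomputable def TS (G : SimpleGraph V) (t : ℕ) (D : Finset V) : Finset V :=
  D.filter (fun v => TL G t D v)

theorem mem_TS : v ∈ TS G t D ↔ v ∈ D ∧ TL G t D v := by
  classical
  simp [TS]

theorem comp_succ : comp G (t + 1) D = (TS G (t + 1) D).card := rfl

/-! ### Non-cut vertices -/

theorem NC_erase_of_two (hx : x ∈ D) (hy : y ∈ D) (hxy : x ≠ y) (hfx : G.Adj f x)
    (hfy : G.Adj f y) (hf : f ∈ D) : NC G (D.erase f) ⊆ (NC G D).erase f := by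
  intro z hz
  rw [mem_NC] at hz
  rw [Finset.mem_erase, mem_NC]
  have hzD : z ∈ D := Finset.mem_of_mem_erase hz.1
  have hzf : z ≠ f := Finset.ne_of_mem_erase hz.1
  refine ⟨hzf, hzD, ?_⟩
  have hins : D.erase z = insert f ((D.erase f).erase z) := by
    rw [Finset.erase_right_comm, Finset.insert_erase (Finset.mem_erase.2 ⟨hzf.symm, hf⟩)]
  rw [hins]
  rcases eq_or_ne x z with rfl | hxz
  · exact hz.2.insert_adj (y := y) (Finset.mem_erase.2 ⟨hxy.symm, Finset.mem_erase.2
      ⟨hfy.ne', hy⟩⟩) hfy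
  · exact hz.2.insert_adj (y := x) (Finset.mem_erase.2 ⟨hxz, Finset.mem_erase.2
      ⟨hfx.ne', hx⟩⟩) hfx

theorem NC_erase_subset (hf : Pend G D f w) : NC G (D.erase f) ⊆ insert w ((NC G D).erase f) := by
  intro z hz
  rw [mem_NC] at hz
  have hzD : z ∈ D := Finset.mem_of_mem_erase hz.1
  have hzf : z ≠ f := Finset.ne_of_mem_erase hz.1
  rcases eq_or_ne z w with rfl | hzw
  · exact Finset.mem_insert_self _ _
  · apply Finset.mem_insert_of_mem
    rw [Finset.mem_erase, mem_NC]
    refine ⟨hzf, hzD, ?_⟩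
    have hins : D.erase z = insert f ((D.erase f).erase z) := by
      rw [Finset.erase_right_comm, Finset.insert_erase (Finset.mem_erase.2 ⟨hzf.symm, hf.1⟩)]
    rw [hins]
    exact hz.2.insert_adj (y := w) (Finset.mem_erase.2 ⟨hzw.symm, Finset.mem_erase.2
      ⟨hf.ne, hf.2.1⟩⟩) hf.2.2.1

theorem mem_NC_erase (hf : Pend G D f w) (hg : g ∈ NC G D) (hgf : g ≠ f) (hx : x ∈ D)
    (hxf : x ≠ f) (hxg : x ≠ g) : g ∈ NC G (D.erase f) := by
  rw [mem_NC] at hg ⊢
  refine ⟨Finset.mem_erase.2 ⟨hgf, hg.1⟩, ?_⟩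
  rw [Finset.erase_right_comm]
  refine hg.2.erase_leaf (w := w) (Finset.mem_erase.2 ⟨hgf.symm, hf.1⟩)
    (fun z hz hfz => hf.2.2.2 z (Finset.mem_of_mem_erase hz) hfz)
    ⟨x, Finset.mem_erase.2 ⟨hxf, Finset.mem_erase.2 ⟨hxg, hx⟩⟩⟩

/-- Adding a pendant vertex. -/
theorem NC_insert_subset (hx : x ∉ D) (hg : g ∈ D) (hadj : ∀ z ∈ D, G.Adj x z ↔ z = g)
    (hy : y ∈ D) (hyg : y ≠ g) : NC G (insert x D) ⊆ insert x ((NC G D).erase g) := by
  intro z hz
  rw [mem_NC] at hz
  rcases eq_or_ne z x with rfl | hzx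
  · exact Finset.mem_insert_self _ _
  · apply Finset.mem_insert_of_mem
    have hzD : z ∈ D := (Finset.mem_insert.1 hz.1).resolve_left hzx
    rw [Finset.mem_erase, mem_NC]
    have hzg : z ≠ g := by
      rintro rfl
      have hxm : x ∈ (insert x D).erase z :=
        Finset.mem_erase.2 ⟨hzx.symm, Finset.mem_insert_self _ _⟩
      have hym : y ∈ (insert x D).erase z :=
        Finset.mem_erase.2 ⟨hyg, Finset.mem_insert_of_mem hy⟩
      obtain ⟨q, hq, hxq⟩ := hz.2.exists_adj hxm hym (by rintro rfl; exact hx hy)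
      have hqz : q ≠ z := Finset.ne_of_mem_erase hq
      have hqD : q ∈ D := by
        rcases Finset.mem_insert.1 (Finset.mem_of_mem_erase hq) with rfl | h
        · exact absurd hxq (G.loopless.irrefl _)
        · exact h
      exact hqz ((hadj q hqD).1 hxq)
    refine ⟨hzg, hzD, ?_⟩
    have hins : D.erase z = ((insert x D).erase z).erase x := by
      rw [Finset.erase_right_comm, Finset.erase_insert hx]
    rw [hins]
    refine hz.2.erase_leaf (w := g)
      (Finset.mem_erase.2 ⟨hzx.symm, Finset.mem_insert_self _ _⟩) ?_ ?_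
    · intro q hq hxq
      rcases Finset.mem_insert.1 (Finset.mem_of_mem_erase hq) with rfl | h
      · exact absurd hxq (G.loopless.irrefl _)
      · exact (hadj q h).1 hxq
    · refine ⟨g, Finset.mem_erase.2 ⟨?_, Finset.mem_erase.2 ⟨hzg.symm,
        Finset.mem_insert_of_mem hg⟩⟩⟩
      rintro rfl
      exact hx hg

/-! ### Tails -/

theorem TS_one_erase (hf : Pend G D f w) (hw : 3 ≤ deg G D w) :
    (TS G 1 (D.erase f)).card < (TS G 1 D).card := by
  apply Finset.card_lt_card
  rw [Finset.ssubset_iff_of_subset]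
  · refine ⟨f, mem_TS.2 ⟨hf.1, hf.1, hf.deg, w, hf.2.1, hf.2.2.1, trivial⟩, ?_⟩
    intro h
    rw [mem_TS] at h
    simp at h
  · intro z hz
    rw [mem_TS] at hz ⊢
    have hzD := Finset.mem_of_mem_erase hz.1
    have h1 := hz.2.deg
    have hzw : ¬ G.Adj z f := by
      intro h
      have : z = w := hf.2.2.2 z hzD h.symm
      subst this
      have := deg_erase_of_adj hf.1 h
      omega
    refine ⟨hzD, hzD, by rwa [deg_erase_of_not_adj hzw] at h1, ?_⟩
    obtain ⟨_, _, q, hq1, hq2, _⟩ := hz.2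
    exact ⟨q, Finset.mem_of_mem_erase hq1, hq2, trivial⟩

theorem TS_erase_le (hf : Pend G D f w) (hw : deg G D w = 2) (ht : TL G (t + 1) D f) :
    (TS G t (D.erase f)).card ≤ (TS G t D).card := by
  have hsub : (TS G t (D.erase f)).erase w ⊆ (TS G t D).erase f := by
    intro z hz
    rw [Finset.mem_erase, mem_TS] at hz ⊢
    exact ⟨Finset.ne_of_mem_erase hz.2.1, Finset.mem_of_mem_erase hz.2.1,
      TL.of_erase hf hw hz.2.1 hz.1 hz.2.2⟩
  have h1 := Finset.card_le_card hsub
  have h2 : f ∈ TS G t D := mem_TS.2 ⟨hf.1, ht.pred⟩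
  rw [Finset.card_erase_of_mem h2] at h1
  have h3 : 0 < (TS G t D).card := Finset.card_pos.2 ⟨f, h2⟩
  have h4 := Finset.pred_card_le_card_erase (s := TS G t (D.erase f)) (a := w)
  omega

theorem TS_erase_lt (hf : Pend G D f w) (hw : deg G D w = 2) (ht : TL G t D f)
    (ht' : ¬ TL G (t + 1) D f) : (TS G t (D.erase f)).card < (TS G t D).card := by
  have hw' : w ∉ TS G t (D.erase f) := by
    intro h
    exact ht' ((TL.succ_iff hf).2 (mem_TS.1 h).2)
  have hsub : TS G t (D.erase f) ⊆ (TS G t D).erase f := by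
    intro z hz
    have hzw : z ≠ w := by rintro rfl; exact hw' hz
    rw [mem_TS] at hz
    rw [Finset.mem_erase, mem_TS]
    exact ⟨Finset.ne_of_mem_erase hz.1, Finset.mem_of_mem_erase hz.1,
      TL.of_erase hf hw hz.1 hzw hz.2⟩
  have h1 := Finset.card_le_card hsub
  have h2 : f ∈ TS G t D := mem_TS.2 ⟨hf.1, ht⟩
  rw [Finset.card_erase_of_mem h2] at h1
  have h3 : 0 < (TS G t D).card := Finset.card_pos.2 ⟨f, h2⟩
  omega

theorem Pend.insert (hx : x ∉ D) (hg : g ∈ D) (hadj : ∀ z ∈ D, G.Adj x z ↔ z = g) :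
    Pend G (insert x D) x g := by
  refine ⟨Finset.mem_insert_self _ _, Finset.mem_insert_of_mem hg, (hadj g hg).2 rfl, ?_⟩
  intro q hq hxq
  rcases Finset.mem_insert.1 hq with rfl | h
  · exact absurd hxq (G.loopless.irrefl _)
  · exact (hadj q h).1 hxq

theorem TS_insert_le (hD : Conn G D) (hc : c ∈ D) (hc3 : 3 ≤ deg G D c) (hx : x ∉ D)
    (hg : g ∈ D) (hadj : ∀ z ∈ D, G.Adj x z ↔ z = g) (ht : TL G (t + 1) D g) :
    (TS G (t + 1) (insert x D)).card ≤ (TS G (t + 1) D).card := by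
  have hp := Pend.insert hx hg hadj
  have hD2 : Conn G (insert x D) := hD.insert_adj hg ((hadj g hg).2 rfl)
  have hc' : c ∈ insert x D := Finset.mem_insert_of_mem hc
  have hc3' : 3 ≤ deg G (insert x D) c := hc3.trans (deg_mono (Finset.subset_insert _ _))
  have hsub : (TS G (t + 1) (insert x D)).erase x ⊆ (TS G (t + 1) D).erase g := by
    intro z hz
    rw [Finset.mem_erase, mem_TS] at hz ⊢
    have hzD : z ∈ D := (Finset.mem_insert.1 hz.2.1).resolve_left hz.1
    have h1 := TL.erase hD2 hc' hc3' hp hz.1 hz.2.2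
    rw [Finset.erase_insert hx] at h1
    refine ⟨?_, hzD, h1⟩
    rintro rfl
    have h2 := hz.2.2.deg
    have h3 := ht.deg
    rw [deg_insert_of_adj hx ((hadj z hg).2 rfl).symm] at h2
    omega
  have h1 := Finset.card_le_card hsub
  have h2 : g ∈ TS G (t + 1) D := mem_TS.2 ⟨hg, ht⟩
  rw [Finset.card_erase_of_mem h2] at h1
  have h3 : 0 < (TS G (t + 1) D).card := Finset.card_pos.2 ⟨g, h2⟩
  have h4 := Finset.pred_card_le_card_erase (s := TS G (t + 1) (insert x D)) (a := x)
  omega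

/-- (L4) -/
theorem TL.insert (hx : x ∉ D) (hg : g ∈ D) (hadj : ∀ z ∈ D, G.Adj x z ↔ z = g)
    (hg1 : PE.deg G D g = 1) (hz : z ∈ D) (hzg : z ≠ g) (h : TL G t D z) :
    TL G t (insert x D) z := by
  have hp := Pend.insert hx hg hadj
  refine TL.of_erase hp ?_ ?_ hzg ?_
  · rw [deg_insert_of_adj hx ((hadj g hg).2 rfl).symm, hg1]
  · rw [Finset.erase_insert hx]; exact hz
  · rw [Finset.erase_insert hx]; exact h

/-- The lexicographic order on potentials. -/
def Better (G : SimpleGraph V) (m : ℕ) (D' D : Finset V) : Prop :=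
  ∃ t ≤ m, comp G t D' < comp G t D ∧ ∀ s < t, comp G s D' ≤ comp G s D

/-- Adding at most two pendant vertices at leaves or arbitrary vertices, data. -/
structure Att (G : SimpleGraph V) (D : Finset V) (x g : V) : Prop where
  notMem : x ∉ D
  mem : g ∈ D
  adj : ∀ z ∈ D, G.Adj x z ↔ z = g

theorem Att.erase (h : Att G D x g) (hfg : g ≠ f) : Att G (D.erase f) x g :=
  ⟨fun h' => h.notMem (Finset.mem_of_mem_erase h'), Finset.mem_erase.2 ⟨hfg, h.mem⟩,
    fun z hz => h.adj z (Finset.mem_of_mem_erase hz)⟩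

theorem Att.insert' (h : Att G D x g) {y : V} (hxy : x ≠ y) (hna : ¬ G.Adj x y)
    (hyg : y ∉ D) : Att G (insert y D) x g := by
  refine ⟨?_, Finset.mem_insert_of_mem h.mem, ?_⟩
  · intro h'
    rcases Finset.mem_insert.1 h' with h1 | h1
    · exact hxy h1
    · exact h.notMem h1
  · intro z hz
    rcases Finset.mem_insert.1 hz with rfl | h1
    · constructor
      · intro h2; exact absurd h2 hna
      · rintro rfl; exact absurd h.mem hyg
    · exact h.adj z h1

end Pool.Agent.H52.PE
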