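import Mathlib
import Pool.Agent.H52.PE.Defs

/-!
# The tripod given by an induced `S m` or `T m`
-/

namespace Pool.Agent.H52.PE

variable {V : Type*} [DecidableEq V] {G : SimpleGraph V}

/-! ### Adjacency in `S k` and `T k` -/

theorem S_adj_none_some {k : ℕ} (x : Fin 3 × Fin k) : (S k).Adj none (some x) ↔ (x.2 : ℕ) = 0 := by
  simp [S, SimpleGraph.fromRel_adj]

theorem S_adj_some_some {k : ℕ} (x y : Fin 3 × Fin k) : (S k).Adj (some x) (some y) ↔
    x.1 = y.1 ∧ ((y.2 : ℕ) = x.2 + 1 ∨ (x.2 : ℕ) = y.2 + 1) := by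
  simp only [S, SimpleGraph.fromRel_adj]
  constructor
  · rintro ⟨_, ⟨h1, h2⟩ | ⟨h1, h2⟩⟩
    · exact ⟨h1, Or.inl h2⟩
    · exact ⟨h1.symm, Or.inr h2⟩
  · rintro ⟨h1, h2 | h2⟩
    · refine ⟨?_, Or.inl ⟨h1, h2⟩⟩
      rintro h
      rw [Option.some_inj] at h
      subst h
      omega
    · refine ⟨?_, Or.inr ⟨h1.symm, h2⟩⟩
      rintro h
      rw [Option.some_inj] at h
      subst h
      omega

theorem T_adj {k : ℕ} (a b : Fin 3 × Fin (k + 1)) : (T k).Adj a b ↔
    (a.1 = b.1 ∧ ((b.2 : ℕ) = a.2 + 1 ∨ (a.2 : ℕ) = b.2 + 1)) ∨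
      ((a.2 : ℕ) = 0 ∧ (b.2 : ℕ) = 0 ∧ a.1 ≠ b.1) := by
  simp only [T, SimpleGraph.fromRel_adj]
  constructor
  · rintro ⟨hne, (⟨h1, h2⟩ | ⟨h1, h2⟩) | (⟨h1, h2⟩ | ⟨h1, h2⟩)⟩
    · exact Or.inl ⟨h1, Or.inl h2⟩
    · refine Or.inr ⟨h1, h2, fun h => hne ?_⟩
      exact Prod.ext h (Fin.ext (by omega))
    · exact Or.inl ⟨h1.symm, Or.inr h2⟩
    · refine Or.inr ⟨h2, h1, fun h => hne ?_⟩
      exact Prod.ext h (Fin.ext (by omega))
  · rintro (⟨h1, h2 | h2⟩ | ⟨h1, h2, h3⟩)
    · refine ⟨?_, Or.inl (Or.inl ⟨h1, h2⟩)⟩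
      rintro rfl
      omega
    · refine ⟨?_, Or.inr (Or.inl ⟨h1.symm, h2⟩)⟩
      rintro rfl
      omega
    · refine ⟨?_, Or.inl (Or.inr ⟨h1, h2⟩)⟩
      rintro rfl
      exact h3 rfl

/-! ### Arms -/

/-- Laws of the three arms of an induced `S m`. -/
def LawS (G : SimpleGraph V) (q : Fin 3 → ℕ → V) (m : ℕ) : Prop :=
  ∀ i i' j j', j ≤ m → j' ≤ m → ((q i j = q i' j' ↔ j = j' ∧ (i = i' ∨ j = 0)) ∧
    (G.Adj (q i j) (q i' j') ↔ (i = i' ∨ j = 0 ∨ j' = 0) ∧ (j + 1 = j' ∨ j' + 1 = j)))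

/-- Laws of the three arms of an induced `T m`. -/
def LawT (G : SimpleGraph V) (q : Fin 3 → ℕ → V) (m : ℕ) : Prop :=
  ∀ i i' j j', j ≤ m → j' ≤ m → ((q i j = q i' j' ↔ j = j' ∧ i = i') ∧
    (G.Adj (q i j) (q i' j') ↔ (i = i' ∧ (j + 1 = j' ∨ j' + 1 = j)) ∨ (j = 0 ∧ j' = 0 ∧ i ≠ i')))

omit [DecidableEq V] in
theorem lawS_of_emb {m : ℕ} (e : S m ↪g G) :
    ∃ q : Fin 3 → ℕ → V, LawS G q m ∧ ∀ i j, ∃ a, q i j = e a := by
  classical
  refine ⟨fun i j => if h : 1 ≤ j ∧ j - 1 < m then e (some (i, ⟨j - 1, h.2⟩)) else e none, ?_, ?_⟩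
  · intro i i' j j' hj hj'
    rcases Nat.eq_zero_or_pos j with h0 | h0 <;> rcases Nat.eq_zero_or_pos j' with h0' | h0'
    · subst h0; subst h0'
      simp
    · subst h0
      have h1 : 1 ≤ j' ∧ j' - 1 < m := ⟨h0', by omega⟩
      simp only [dif_pos h1, show ¬ (1 ≤ 0 ∧ 0 - 1 < m) by omega, dif_neg, not_false_eq_true]
      rw [e.map_adj_iff, S_adj_none_some]
      constructor
      · constructor
        · intro h; exact absurd (e.injective h) (by simp)
        · rintro ⟨h, _⟩; omega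
      · simp only
        constructor
        · intro h; exact ⟨Or.inr (Or.inl trivial), by omega⟩
        · rintro ⟨_, h⟩; omega
    · subst h0'
      have h1 : 1 ≤ j ∧ j - 1 < m := ⟨h0, by omega⟩
      simp only [dif_pos h1, show ¬ (1 ≤ 0 ∧ 0 - 1 < m) by omega, dif_neg, not_false_eq_true]
      rw [G.adj_comm, e.map_adj_iff, S_adj_none_some]
      constructor
      · constructor
        · intro h; exact absurd (e.injective h) (by simp)
        · rintro ⟨h, _⟩; omega
      · simp only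
        constructor
        · intro h; exact ⟨Or.inr (Or.inr trivial), by omega⟩
        · rintro ⟨_, h⟩; omega
    · have h1 : 1 ≤ j ∧ j - 1 < m := ⟨h0, by omega⟩
      have h1' : 1 ≤ j' ∧ j' - 1 < m := ⟨h0', by omega⟩
      simp only [dif_pos h1, dif_pos h1']
      rw [e.map_adj_iff, S_adj_some_some]
      constructor
      · constructor
        · intro h
          have := e.injective h
          rw [Option.some_inj, Prod.mk.injEq] at this
          have h2 := congrArg Fin.val this.2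
          simp only at h2
          exact ⟨by omega, Or.inl this.1⟩
        · rintro ⟨h, h' | h'⟩
          · subst h; subst h'; rfl
          · omega
      · simp only
        constructor
        · rintro ⟨h, h'⟩; exact ⟨Or.inl h, by omega⟩
        · rintro ⟨h | h | h, h'⟩
          · exact ⟨h, by omega⟩
          · omega
          · omega
  · intro i j
    by_cases h : 1 ≤ j ∧ j - 1 < m
    · exact ⟨_, dif_pos h⟩
    · exact ⟨_, dif_neg h⟩

omit [DecidableEq V] in
theorem lawT_of_emb {m : ℕ} (e : T m ↪g G) :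
    ∃ q : Fin 3 → ℕ → V, LawT G q m ∧ ∀ i j, ∃ a, q i j = e a := by
  classical
  refine ⟨fun i j => if h : j < m + 1 then e (i, ⟨j, h⟩) else e (i, 0), ?_, ?_⟩
  · intro i i' j j' hj hj'
    have h1 : j < m + 1 := by omega
    have h1' : j' < m + 1 := by omega
    simp only [dif_pos h1, dif_pos h1']
    rw [e.map_adj_iff, T_adj]
    constructor
    · constructor
      · intro h
        have := e.injective h
        rw [Prod.mk.injEq] at this
        exact ⟨congrArg Fin.val this.2, this.1⟩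
      · rintro ⟨h, h'⟩
        subst h; subst h'; rfl
    · simp only
      constructor
      · rintro (⟨h, h'⟩ | h)
        · exact Or.inl ⟨h, by omega⟩
        · exact Or.inr h
      · rintro (⟨h, h'⟩ | h)
        · exact Or.inl ⟨h, by omega⟩
        · exact Or.inr h
  · intro i j
    by_cases h : j < m + 1
    · exact ⟨_, dif_pos h⟩
    · exact ⟨_, dif_neg h⟩

omit [DecidableEq V] in
theorem bad_of_lawS {q : Fin 3 → ℕ → V} {k : ℕ} (h : LawS G q k) {D : Finset V}
    (hD : ∀ i j, j ≤ k → q i j ∈ D) : Bad G D k := by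
  left
  have key : ∀ a b : Option (Fin 3 × Fin k),
      ((Option.elim a (q 0 0) (fun x => q x.1 (x.2 + 1)) = Option.elim b (q 0 0) (fun x => q x.1 (x.2 + 1))) → a = b) ∧
      (G.Adj (Option.elim a (q 0 0) (fun x => q x.1 (x.2 + 1))) (Option.elim b (q 0 0) (fun x => q x.1 (x.2 + 1))) ↔
        (S k).Adj a b) := by
    rintro (_ | ⟨i, j⟩) (_ | ⟨i', j'⟩)
    · simp
    · have := h 0 i' 0 (j' + 1) (Nat.zero_le _) (by omega)
      simp only [Option.elim_none, Option.elim_some]
      rw [S_adj_none_some]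
      constructor
      · intro hh
        have := this.1.1 hh
        omega
      · rw [this.2]
        simp only
        constructor
        · rintro ⟨_, h'⟩; omega
        · intro h'; exact ⟨Or.inr (Or.inl trivial), by omega⟩
    · have := h i 0 (j + 1) 0 (by omega) (Nat.zero_le _)
      simp only [Option.elim_none, Option.elim_some]
      rw [(S k).adj_comm, S_adj_none_some]
      constructor
      · intro hh
        have := this.1.1 hh
        omega
      · rw [this.2]
        simp only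
        constructor
        · rintro ⟨_, h'⟩; omega
        · intro h'; exact ⟨Or.inr (Or.inr trivial), by omega⟩
    · have := h i i' (j + 1) (j' + 1) (by omega) (by omega)
      simp only [Option.elim_some]
      rw [S_adj_some_some]
      constructor
      · intro hh
        obtain ⟨h1, h2⟩ := this.1.1 hh
        rcases h2 with h2 | h2
        · subst h2
          have : j = j' := Fin.ext (by omega)
          rw [this]
        · omega
      · rw [this.2]
        simp only
        constructor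
        · rintro ⟨h1 | h1 | h1, h'⟩
          · exact ⟨h1, by omega⟩
          · omega
          · omega
        · rintro ⟨h1, h'⟩; exact ⟨Or.inl h1, by omega⟩
  refine ⟨⟨⟨fun a => Option.elim a (q 0 0) (fun x => q x.1 (x.2 + 1)), fun a b hab => (key a b).1 hab⟩,
    fun {a b} => (key a b).2⟩, ?_⟩
  rintro (_ | ⟨i, j⟩)
  · exact hD 0 0 (Nat.zero_le _)
  · exact hD i (j + 1) (by omega)

omit [DecidableEq V] in
theorem bad_of_lawT {q : Fin 3 → ℕ → V} {k : ℕ} (h : LawT G q k) {D : Finset V}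
    (hD : ∀ i j, j ≤ k → q i j ∈ D) : Bad G D k := by
  right
  have key : ∀ a b : Fin 3 × Fin (k + 1), (q a.1 a.2 = q b.1 b.2 → a = b) ∧
      (G.Adj (q a.1 a.2) (q b.1 b.2) ↔ (T k).Adj a b) := by
    rintro ⟨i, j⟩ ⟨i', j'⟩
    have := h i i' j j' (by omega) (by omega)
    rw [T_adj]
    constructor
    · intro hh
      obtain ⟨h1, h2⟩ := this.1.1 hh
      exact Prod.ext h2 (Fin.ext h1)
    · rw [this.2]
      simp only
      constructor
      · rintro (⟨h, h'⟩ | h)
        · exact Or.inl ⟨h, by omega⟩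
        · exact Or.inr h
      · rintro (⟨h, h'⟩ | h)
        · exact Or.inl ⟨h, by omega⟩
        · exact Or.inr h
  refine ⟨⟨⟨fun a => q a.1 a.2, fun a b hab => (key a b).1 hab⟩, fun {a b} => (key a b).2⟩, ?_⟩
  rintro ⟨i, j⟩
  exact hD i j (by omega)

/-- The set of the first `b i + 1` vertices of the arms. -/
def Fb (q : Fin 3 → ℕ → V) (b : Fin 3 → ℕ) : Finset V :=
  Finset.univ.biUnion fun i => (Finset.range (b i + 1)).image (q i)

theorem mem_Fb {q : Fin 3 → ℕ → V} {b : Fin 3 → ℕ} {x : V} :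
    x ∈ Fb q b ↔ ∃ i j, j ≤ b i ∧ q i j = x := by
  simp only [Fb, Finset.mem_biUnion, Finset.mem_univ, true_and, Finset.mem_image, Finset.mem_range]
  constructor
  · rintro ⟨i, j, h, h'⟩; exact ⟨i, j, by omega, h'⟩
  · rintro ⟨i, j, h, h'⟩; exact ⟨i, j, by omega, h'⟩

theorem conn_Fb {q : Fin 3 → ℕ → V} {b : Fin 3 → ℕ}
    (step : ∀ i j, j + 1 ≤ b i → G.Adj (q i j) (q i (j + 1)))
    (base : ∀ i i', q i 0 = q i' 0 ∨ G.Adj (q i 0) (q i' 0)) : Conn G (Fb q b) := by
  refine ⟨⟨q 0 0, mem_Fb.2 ⟨0, 0, Nat.zero_le _, rfl⟩⟩, ?_⟩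
  intro A hA ⟨x, hx⟩ hcl
  have down : ∀ i j, j ≤ b i → q i j ∈ A → q i 0 ∈ A := by
    intro i j
    induction j with
    | zero => intro _ h; exact h
    | succ j ih =>
      intro hj h
      apply ih (by omega)
      exact hcl _ h _ (mem_Fb.2 ⟨i, j, by omega, rfl⟩) (step i j hj).symm
  have up : ∀ i j, j ≤ b i → q i 0 ∈ A → q i j ∈ A := by
    intro i j
    induction j with
    | zero => intro _ h; exact h
    | succ j ih =>
      intro hj h
      exact hcl _ (ih (by omega) h) _ (mem_Fb.2 ⟨i, j + 1, hj, rfl⟩) (step i j hj)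
  obtain ⟨i, j, hj, rfl⟩ := mem_Fb.1 (hA hx)
  have h0 := down i j hj hx
  apply Finset.Subset.antisymm hA
  intro y hy
  obtain ⟨i', j', hj', rfl⟩ := mem_Fb.1 hy
  apply up i' j' hj'
  rcases base i i' with h | h
  · rw [← h]; exact h0
  · exact hcl _ h0 _ (mem_Fb.2 ⟨i', 0, Nat.zero_le _, rfl⟩) h

/-- What is common to the two cases. -/
structure Tri (G : SimpleGraph V) (q : Fin 3 → ℕ → V) (m : ℕ) : Prop where
  step : ∀ i j, j + 1 ≤ m → G.Adj (q i j) (q i (j + 1))
  base : ∀ i i', q i 0 = q i' 0 ∨ G.Adj (q i 0) (q i' 0)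
  inj : ∀ i i' j j', j ≤ m → j' ≤ m → 1 ≤ j → q i j = q i' j' → i = i' ∧ j = j'
  last : ∀ i i' j', j' ≤ m → G.Adj (q i m) (q i' j') → q i' j' = q i (m - 1)
  junc : ∀ i, ∃ x y, x ∈ Fb q (fun _ => m) ∧ y ∈ Fb q (fun _ => m) ∧ x ≠ y ∧ G.Adj (q i 0) x ∧
    G.Adj (q i 0) y ∧ (∀ j ≤ m, q i j ≠ x) ∧ (∀ j ≤ m, q i j ≠ y)

theorem exists_others (i : Fin 3) : ∃ i' i'' : Fin 3, i' ≠ i ∧ i'' ≠ i ∧ i' ≠ i'' := by
  revert i; decide

theorem tri_of_lawS {q : Fin 3 → ℕ → V} {m : ℕ} (hm : 1 ≤ m) (h : LawS G q m) : Tri G q m := by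
  refine ⟨?_, ?_, ?_, ?_, ?_⟩
  · intro i j hj
    exact (h i i j (j + 1) (by omega) hj).2.2 ⟨Or.inl rfl, Or.inl rfl⟩
  · intro i i'
    left
    exact (h i i' 0 0 (Nat.zero_le _) (Nat.zero_le _)).1.2 ⟨rfl, Or.inr rfl⟩
  · intro i i' j j' hj hj' h1 he
    obtain ⟨h2, h3 | h3⟩ := (h i i' j j' hj hj').1.1 he
    · exact ⟨h3, h2⟩
    · omega
  · intro i i' j' hj' ha
    obtain ⟨h1, h2⟩ := (h i i' m j' le_rfl hj').2.1 ha
    rw [(h i' i j' (m - 1) hj' (by omega)).1]
    rcases h1 with h1 | h1 | h1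
    · exact ⟨by omega, Or.inl h1.symm⟩
    · omega
    · exact ⟨by omega, Or.inr h1⟩
  · intro i
    obtain ⟨i', i'', h1, h2, h3⟩ := exists_others i
    refine ⟨q i' 1, q i'' 1, mem_Fb.2 ⟨i', 1, hm, rfl⟩, mem_Fb.2 ⟨i'', 1, hm, rfl⟩, ?_, ?_, ?_, ?_, ?_⟩
    · intro he
      obtain ⟨_, h4 | h4⟩ := (h i' i'' 1 1 hm hm).1.1 he
      · exact h3 h4
      · omega
    · exact (h i i' 0 1 (Nat.zero_le _) hm).2.2 ⟨Or.inr (Or.inl rfl), Or.inl rfl⟩
    · exact (h i i'' 0 1 (Nat.zero_le _) hm).2.2 ⟨Or.inr (Or.inl rfl), Or.inl rfl⟩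
    · intro j hj he
      obtain ⟨h5, h4 | h4⟩ := (h i i' j 1 hj hm).1.1 he
      · exact h1 h4.symm
      · omega
    · intro j hj he
      obtain ⟨h5, h4 | h4⟩ := (h i i'' j 1 hj hm).1.1 he
      · exact h2 h4.symm
      · omega

theorem tri_of_lawT {q : Fin 3 → ℕ → V} {m : ℕ} (hm : 1 ≤ m) (h : LawT G q m) : Tri G q m := by
  refine ⟨?_, ?_, ?_, ?_, ?_⟩
  · intro i j hj
    exact (h i i j (j + 1) (by omega) hj).2.2 (Or.inl ⟨rfl, Or.inl rfl⟩)
  · intro i i'
    by_cases hi : i = i'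
    · left; rw [hi]
    · right
      exact (h i i' 0 0 (Nat.zero_le _) (Nat.zero_le _)).2.2 (Or.inr ⟨rfl, rfl, hi⟩)
  · intro i i' j j' hj hj' h1 he
    obtain ⟨h2, h3⟩ := (h i i' j j' hj hj').1.1 he
    exact ⟨h3, h2⟩
  · intro i i' j' hj' ha
    rw [(h i' i j' (m - 1) hj' (by omega)).1]
    rcases (h i i' m j' le_rfl hj').2.1 ha with ⟨h1, h2⟩ | ⟨h1, _⟩
    · exact ⟨by omega, h1.symm⟩
    · omega
  · intro i
    obtain ⟨i', i'', h1, h2, h3⟩ := exists_others i
    refine ⟨q i' 0, q i'' 0, mem_Fb.2 ⟨i', 0, Nat.zero_le _, rfl⟩,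
      mem_Fb.2 ⟨i'', 0, Nat.zero_le _, rfl⟩, ?_, ?_, ?_, ?_, ?_⟩
    · intro he
      exact h3 ((h i' i'' 0 0 (Nat.zero_le _) (Nat.zero_le _)).1.1 he).2
    · exact (h i i' 0 0 (Nat.zero_le _) (Nat.zero_le _)).2.2 (Or.inr ⟨rfl, rfl, h1.symm⟩)
    · exact (h i i'' 0 0 (Nat.zero_le _) (Nat.zero_le _)).2.2 (Or.inr ⟨rfl, rfl, h2.symm⟩)
    · intro j hj he
      exact h1 ((h i i' j 0 hj (Nat.zero_le _)).1.1 he).2.symm
    · intro j hj he
      exact h2 ((h i i'' j 0 hj (Nat.zero_le _)).1.1 he).2.symm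

theorem two_le_deg {D : Finset V} {v x y : V} (hx : x ∈ D) (hy : y ∈ D) (hxy : x ≠ y)
    (hvx : G.Adj v x) (hvy : G.Adj v y) : 2 ≤ deg G D v := by
  classical
  unfold deg
  have : ({x, y} : Finset V) ⊆ D.filter (fun u => G.Adj v u) := by
    intro z hz
    simp only [Finset.mem_insert, Finset.mem_singleton] at hz
    rw [Finset.mem_filter]
    rcases hz with rfl | rfl
    · exact ⟨hx, hvx⟩
    · exact ⟨hy, hvy⟩
  calc 2 = ({x, y} : Finset V).card := (Finset.card_pair hxy).symm
    _ ≤ _ := Finset.card_le_card this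

theorem three_le_deg {D : Finset V} {v x y z : V} (hx : x ∈ D) (hy : y ∈ D) (hz : z ∈ D)
    (hxy : x ≠ y) (hxz : x ≠ z) (hyz : y ≠ z)
    (hvx : G.Adj v x) (hvy : G.Adj v y) (hvz : G.Adj v z) : 3 ≤ deg G D v := by
  classical
  unfold deg
  have : ({x, y, z} : Finset V) ⊆ D.filter (fun u => G.Adj v u) := by
    intro u hu
    simp only [Finset.mem_insert, Finset.mem_singleton] at hu
    rw [Finset.mem_filter]
    rcases hu with rfl | rfl | rfl
    · exact ⟨hx, hvx⟩
    · exact ⟨hy, hvy⟩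
    · exact ⟨hz, hvz⟩
  calc 3 = ({x, y, z} : Finset V).card := (Finset.card_eq_three.2 ⟨x, y, z, hxy, hxz, hyz, rfl⟩).symm
    _ ≤ _ := Finset.card_le_card this

theorem not_TL {b : ℕ → V} {x y : V} (hxy : x ≠ y) (hx : G.Adj (b 0) x) (hy : G.Adj (b 0) y) :
    ∀ (j : ℕ) (D : Finset V), (∀ s ≤ j, b s ∈ D) → (∀ s t, s ≤ j → t ≤ j → b s = b t → s = t) →
      (∀ s, s + 1 ≤ j → G.Adj (b s) (b (s + 1))) → x ∈ D → y ∈ D →
      (∀ s ≤ j, b s ≠ x) → (∀ s ≤ j, b s ≠ y) → ¬ TL G (j + 1) D (b j) := by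
  intro j
  induction j with
  | zero =>
    intro D _ _ _ hxD hyD _ _ hTL
    have h1 : deg G D (b 0) = 1 := hTL.2.1
    have h2 := two_le_deg hxD hyD hxy hx hy
    omega
  | succ j ih =>
    intro D hbD hinj hstep hxD hyD hbx hby hTL
    obtain ⟨_, h1, w, hw, haw, hTL'⟩ := hTL
    have hadj : G.Adj (b (j + 1)) (b j) := (hstep j le_rfl).symm
    have hwe : w = b j := by
      by_contra hne
      have := two_le_deg hw (hbD j (by omega)) hne haw hadj
      omega
    subst hwe
    apply ih (D.erase (b (j + 1))) _ _ _ _ _ _ _ hTL'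
    · intro s hs
      rw [Finset.mem_erase]
      refine ⟨fun he => ?_, hbD s (by omega)⟩
      have := hinj s (j + 1) (by omega) le_rfl he
      omega
    · intro s t hs ht
      exact hinj s t (by omega) (by omega)
    · intro s hs
      exact hstep s (by omega)
    · rw [Finset.mem_erase]
      exact ⟨(hbx (j + 1) le_rfl).symm, hxD⟩
    · rw [Finset.mem_erase]
      exact ⟨(hby (j + 1) le_rfl).symm, hyD⟩
    · intro s hs; exact hbx s (by omega)
    · intro s hs; exact hby s (by omega)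

/-- Adding one vertex to every arm. -/
def ext (q : Fin 3 → ℕ → V) (m : ℕ) (l : Fin 3 → V) (i : Fin 3) (j : ℕ) : V :=
  if j ≤ m then q i j else l i

theorem tri_final {q : Fin 3 → ℕ → V} {m : ℕ} (hm : 1 ≤ m) (h : Tri G q m) {D : Finset V}
    (hD : ∀ i j, j ≤ m → q i j ∈ D)
    (hbad : ∀ l : Fin 3 → V, (∀ i, l i ∉ Fb q (fun _ => m)) →
        (∀ i, ∀ x ∈ Fb q (fun _ => m), G.Adj (l i) x ↔ x = q i m) →
        (∀ i j, i ≠ j → ¬ G.Adj (l i) (l j)) →
        Bad G (Fb q (fun _ => m) ∪ Finset.univ.image l) (m + 1)) :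
    ∃ (F : Finset V) (f w : Fin 3 → V), F ⊆ D ∧ Conn G F ∧ Function.Injective f ∧
      (∀ i, f i ∈ F) ∧ (∀ i, Conn G (F.erase (f i))) ∧
      (∀ i, w i ∈ F ∧ G.Adj (f i) (w i) ∧ ∀ x ∈ F, G.Adj (f i) x → x = w i) ∧
      (∀ i j, w i ≠ f j) ∧
      (∃ c ∈ F, 3 ≤ deg G F c) ∧
      (∀ D', F ⊆ D' → ∀ i, ¬ TL G (m + 1) D' (f i)) ∧
      (∀ l : Fin 3 → V, (∀ i, l i ∉ F) → (∀ i, ∀ x ∈ F, G.Adj (l i) x ↔ x = f i) →
        (∀ i j, i ≠ j → ¬ G.Adj (l i) (l j)) →
        Bad G (F ∪ Finset.univ.image l) (m + 1)) := by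
  have hinj0 : ∀ i s t, s ≤ m → t ≤ m → q i s = q i t → s = t := by
    intro i s t hs ht he
    rcases Nat.eq_zero_or_pos s with h0 | h0
    · rcases Nat.eq_zero_or_pos t with h1 | h1
      · omega
      · exact ((h.inj i i t s ht hs h1 he.symm).2).symm
    · exact (h.inj i i s t hs ht h0 he).2
  refine ⟨Fb q (fun _ => m), fun i => q i m, fun i => q i (m - 1), ?_, ?_, ?_, ?_, ?_, ?_, ?_, ?_, ?_, hbad⟩
  · intro x hx
    obtain ⟨i, j, hj, rfl⟩ := mem_Fb.1 hx
    exact hD i j hj
  · exact conn_Fb h.step h.base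
  · intro i i' he
    exact (h.inj i i' m m le_rfl le_rfl hm he).1
  · intro i
    exact mem_Fb.2 ⟨i, m, le_rfl, rfl⟩
  · intro i
    have he : (Fb q (fun _ => m)).erase (q i m) = Fb q (fun i' => if i' = i then m - 1 else m) := by
      ext x
      rw [Finset.mem_erase, mem_Fb, mem_Fb]
      constructor
      · rintro ⟨hne, i', j', hj', rfl⟩
        refine ⟨i', j', ?_, rfl⟩
        by_cases hi : i' = i
        · rw [if_pos hi]
          subst hi
          have : j' ≠ m := fun hh => hne (by rw [hh])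
          omega
        · rw [if_neg hi]; exact hj'
      · rintro ⟨i', j', hj', rfl⟩
        have hj'' : j' ≤ m := by
          by_cases hi : i' = i
          · rw [if_pos hi] at hj'; omega
          · rw [if_neg hi] at hj'; exact hj'
        refine ⟨?_, i', j', hj'', rfl⟩
        intro he
        obtain ⟨h1, h2⟩ := h.inj i i' m j' le_rfl hj'' hm he.symm
        rw [if_pos h1.symm] at hj'
        omega
    simp only
    rw [he]
    apply conn_Fb _ h.base
    intro i' j hj
    apply h.step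
    by_cases hi : i' = i
    · rw [if_pos hi] at hj; omega
    · rw [if_neg hi] at hj; exact hj
  · intro i
    refine ⟨mem_Fb.2 ⟨i, m - 1, by omega, rfl⟩, ?_, ?_⟩
    · have := (h.step i (m - 1) (by omega)).symm
      rwa [Nat.sub_add_cancel hm] at this
    · intro x hx ha
      obtain ⟨i', j', hj', rfl⟩ := mem_Fb.1 hx
      exact h.last i i' j' hj' ha
  · intro i j he
    have := (h.inj j i m (m - 1) le_rfl (by omega) hm he.symm).2
    omega
  · obtain ⟨x, y, hx, hy, hxy, hax, hay, hnx, hny⟩ := h.junc 0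
    refine ⟨q 0 0, mem_Fb.2 ⟨0, 0, Nat.zero_le _, rfl⟩, ?_⟩
    exact three_le_deg (mem_Fb.2 ⟨0, 1, hm, rfl⟩) hx hy (hnx 1 hm) (hny 1 hm) hxy (h.step 0 0 hm) hax hay
  · intro D' hF i
    obtain ⟨x, y, hx, hy, hxy, hax, hay, hnx, hny⟩ := h.junc i
    apply not_TL hxy hax hay m D' _ _ _ (hF hx) (hF hy) hnx hny
    · intro s hs
      exact hF (mem_Fb.2 ⟨i, s, hs, rfl⟩)
    · exact hinj0 i
    · exact h.step i

theorem exists_tripod {D : Finset V} {m : ℕ} (hm : 1 ≤ m) (h : Bad G D m) :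
    ∃ (F : Finset V) (f w : Fin 3 → V), F ⊆ D ∧ Conn G F ∧ Function.Injective f ∧
      (∀ i, f i ∈ F) ∧ (∀ i, Conn G (F.erase (f i))) ∧
      (∀ i, w i ∈ F ∧ G.Adj (f i) (w i) ∧ ∀ x ∈ F, G.Adj (f i) x → x = w i) ∧
      (∀ i j, w i ≠ f j) ∧
      (∃ c ∈ F, 3 ≤ deg G F c) ∧
      (∀ D', F ⊆ D' → ∀ i, ¬ TL G (m + 1) D' (f i)) ∧
      (∀ l : Fin 3 → V, (∀ i, l i ∉ F) → (∀ i, ∀ x ∈ F, G.Adj (l i) x ↔ x = f i) →
        (∀ i j, i ≠ j → ¬ G.Adj (l i) (l j)) →
        Bad G (F ∪ Finset.univ.image l) (m + 1)) := by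
  have hlinj : ∀ (q : Fin 3 → ℕ → V), Tri G q m → ∀ l : Fin 3 → V,
      (∀ i, ∀ x ∈ Fb q (fun _ => m), G.Adj (l i) x ↔ x = q i m) → ∀ i i', l i = l i' → i = i' := by
    intro q hq l hl i i' he
    have h1 : G.Adj (l i) (q i m) := (hl i _ (mem_Fb.2 ⟨i, m, le_rfl, rfl⟩)).2 rfl
    rw [he] at h1
    have h2 := (hl i' _ (mem_Fb.2 ⟨i, m, le_rfl, rfl⟩)).1 h1
    exact (hq.inj i i' m m le_rfl le_rfl hm h2).1
  rcases h with ⟨e, he⟩ | ⟨e, he⟩
  · obtain ⟨q, hq, hqe⟩ := lawS_of_emb e
    have htri := tri_of_lawS hm hq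
    refine tri_final hm htri ?_ ?_
    · intro i j _
      obtain ⟨a, ha⟩ := hqe i j
      rw [ha]; exact he a
    · intro l hl1 hl2 hl3
      apply bad_of_lawS (q := ext q m l)
      · have hmix : ∀ i i' j', j' ≤ m → (¬ l i = q i' j') ∧
            (G.Adj (l i) (q i' j') ↔ j' = m ∧ i' = i) := by
          intro i i' j' hj'
          have hmem : q i' j' ∈ Fb q (fun _ => m) := mem_Fb.2 ⟨i', j', hj', rfl⟩
          refine ⟨fun hh => hl1 i (hh ▸ hmem), ?_⟩
          rw [hl2 i _ hmem]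
          constructor
          · intro hh
            have := htri.inj i i' m j' le_rfl hj' hm hh.symm
            exact ⟨this.2.symm, this.1.symm⟩
          · rintro ⟨h1, h2⟩; rw [h1, h2]
        intro i i' j j' hj hj'
        unfold ext
        by_cases h1 : j ≤ m <;> by_cases h2 : j' ≤ m
        · rw [if_pos h1, if_pos h2]
          exact hq i i' j j' h1 h2
        · rw [if_pos h1, if_neg h2]
          have := hmix i' i j h1
          rw [G.adj_comm, this.2]
          constructor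
          · constructor
            · intro hh; exact absurd hh.symm this.1
            · rintro ⟨h3, _⟩; omega
          · constructor
            · rintro ⟨h3, h4⟩; exact ⟨Or.inl h4, by omega⟩
            · rintro ⟨h3 | h3 | h3, h4⟩
              · exact ⟨by omega, h3⟩
              · omega
              · omega
        · rw [if_neg h1, if_pos h2]
          have := hmix i i' j' h2
          rw [this.2]
          constructor
          · constructor
            · intro hh; exact absurd hh this.1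
            · rintro ⟨h3, _⟩; omega
          · constructor
            · rintro ⟨h3, h4⟩; exact ⟨Or.inl h4.symm, by omega⟩
            · rintro ⟨h3 | h3 | h3, h4⟩
              · exact ⟨by omega, h3.symm⟩
              · omega
              · omega
        · rw [if_neg h1, if_neg h2]
          constructor
          · constructor
            · intro hh; exact ⟨by omega, Or.inl (hlinj q htri l hl2 i i' hh)⟩
            · rintro ⟨h3, h4 | h4⟩
              · rw [h4]
              · omega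
          · constructor
            · intro ha
              exfalso
              by_cases hi : i = i'
              · rw [hi] at ha; exact G.irrefl ha
              · exact hl3 i i' hi ha
            · rintro ⟨_, h4⟩; omega
      · intro i j hj
        unfold ext
        by_cases h1 : j ≤ m
        · rw [if_pos h1]
          exact Finset.mem_union_left _ (mem_Fb.2 ⟨i, j, h1, rfl⟩)
        · rw [if_neg h1]
          exact Finset.mem_union_right _ (Finset.mem_image_of_mem _ (Finset.mem_univ i))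
  · obtain ⟨q, hq, hqe⟩ := lawT_of_emb e
    have htri := tri_of_lawT hm hq
    refine tri_final hm htri ?_ ?_
    · intro i j _
      obtain ⟨a, ha⟩ := hqe i j
      rw [ha]; exact he a
    · intro l hl1 hl2 hl3
      apply bad_of_lawT (q := ext q m l)
      · have hmix : ∀ i i' j', j' ≤ m → (¬ l i = q i' j') ∧
            (G.Adj (l i) (q i' j') ↔ j' = m ∧ i' = i) := by
          intro i i' j' hj'
          have hmem : q i' j' ∈ Fb q (fun _ => m) := mem_Fb.2 ⟨i', j', hj', rfl⟩
          refine ⟨fun hh => hl1 i (hh ▸ hmem), ?_⟩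
          rw [hl2 i _ hmem]
          constructor
          · intro hh
            have := htri.inj i i' m j' le_rfl hj' hm hh.symm
            exact ⟨this.2.symm, this.1.symm⟩
          · rintro ⟨h1, h2⟩; rw [h1, h2]
        intro i i' j j' hj hj'
        unfold ext
        by_cases h1 : j ≤ m <;> by_cases h2 : j' ≤ m
        · rw [if_pos h1, if_pos h2]
          exact hq i i' j j' h1 h2
        · rw [if_pos h1, if_neg h2]
          have := hmix i' i j h1
          rw [G.adj_comm, this.2]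
          constructor
          · constructor
            · intro hh; exact absurd hh.symm this.1
            · rintro ⟨h3, _⟩; omega
          · constructor
            · rintro ⟨h3, h4⟩; exact Or.inl ⟨h4, by omega⟩
            · rintro (⟨h3, h4⟩ | ⟨h3, h4, _⟩)
              · exact ⟨by omega, h3⟩
              · omega
        · rw [if_neg h1, if_pos h2]
          have := hmix i i' j' h2
          rw [this.2]
          constructor
          · constructor
            · intro hh; exact absurd hh this.1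
            · rintro ⟨h3, _⟩; omega
          · constructor
            · rintro ⟨h3, h4⟩; exact Or.inl ⟨h4.symm, by omega⟩
            · rintro (⟨h3, h4⟩ | ⟨h3, h4, _⟩)
              · exact ⟨by omega, h3.symm⟩
              · omega
        · rw [if_neg h1, if_neg h2]
          constructor
          · constructor
            · intro hh; exact ⟨by omega, hlinj q htri l hl2 i i' hh⟩
            · rintro ⟨h3, h4⟩
              rw [h4]
          · constructor
            · intro ha
              exfalso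
              by_cases hi : i = i'
              · rw [hi] at ha; exact G.irrefl ha
              · exact hl3 i i' hi ha
            · rintro (⟨_, h4⟩ | ⟨h3, _⟩) <;> omega
      · intro i j hj
        unfold ext
        by_cases h1 : j ≤ m
        · rw [if_pos h1]
          exact Finset.mem_union_left _ (mem_Fb.2 ⟨i, j, h1, rfl⟩)
        · rw [if_neg h1]
          exact Finset.mem_union_right _ (Finset.mem_image_of_mem _ (Finset.mem_univ i))

end Pool.Agent.H52.PE
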