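import Mathlib
import Pool.Agent.H52.PE.Pot
import Pool.Agent.H52.PE.Tripod

/-!
# An induced subdivided claw or net in a dominating set allows an improvement
-/

namespace Pool.Agent.H52.PE

variable {V : Type*} [DecidableEq V] {G : SimpleGraph V} {D D1 U K X : Finset V}
  {f g w x y z c g' u v : V} {t m : ℕ}

theorem TS_one_insert_le (ha : Att G D x g) (hg1 : deg G D g = 1) :
    (TS G 1 (insert x D)).card ≤ (TS G 1 D).card := by
  have hsub : (TS G 1 (insert x D)).erase x ⊆ (TS G 1 D).erase g := by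
    intro z hz
    rw [Finset.mem_erase, mem_TS] at hz ⊢
    have hzD : z ∈ D := (Finset.mem_insert.1 hz.2.1).resolve_left hz.1
    have h2 := hz.2.2.deg
    have hzg : z ≠ g := by
      rintro rfl
      rw [deg_insert_of_adj ha.notMem ((ha.adj z hzD).2 rfl).symm] at h2
      omega
    have hzx : ¬ G.Adj z x := fun h => hzg ((ha.adj z hzD).1 h.symm)
    rw [deg_insert_of_not_adj hzx] at h2
    obtain ⟨q, hq1, hq2, _⟩ := deg_eq_one_iff.1 h2
    exact ⟨hzg, hzD, hzD, h2, q, hq1, hq2, trivial⟩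
  have h1 := Finset.card_le_card hsub
  have h2 : g ∈ TS G 1 D := by
    obtain ⟨q, hq1, hq2, _⟩ := deg_eq_one_iff.1 hg1
    exact mem_TS.2 ⟨ha.mem, ha.mem, hg1, q, hq1, hq2, trivial⟩
  rw [Finset.card_erase_of_mem h2] at h1
  have h3 : 0 < (TS G 1 D).card := Finset.card_pos.2 ⟨g, h2⟩
  have h4 := Finset.pred_card_le_card_erase (s := TS G 1 (insert x D)) (a := x)
  omega

theorem Dom.move (hd : Dom G U D) (hw : w ∈ D) (hfw : G.Adj f w)
    (hX : ∀ u ∈ U, u ∉ D → (∀ z ∈ D, G.Adj u z ↔ z = f) → u ∈ X ∨ ∃ d ∈ X, G.Adj u d) :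
    Dom G U (D.erase f ∪ X) := by
  intro a ha
  by_cases haD : a ∈ D
  · rcases eq_or_ne a f with rfl | hne
    · right
      exact ⟨w, Finset.mem_union_left _ (Finset.mem_erase.2 ⟨hfw.ne', hw⟩), hfw⟩
    · left
      exact Finset.mem_union_left _ (Finset.mem_erase.2 ⟨hne, haD⟩)
  · by_cases hz : ∃ z ∈ D, z ≠ f ∧ G.Adj a z
    · obtain ⟨z, h1, h2, h3⟩ := hz
      right
      exact ⟨z, Finset.mem_union_left _ (Finset.mem_erase.2 ⟨h2, h1⟩), h3⟩
    · push Not at hz
      obtain ⟨d, hd1, hd2⟩ := (hd a ha).resolve_left haD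
      have hdf : d = f := by
        by_contra h
        exact hz d hd1 h hd2
      subst hdf
      have := hX a ha haD (fun z hz' => ⟨fun h => by
        by_contra h'
        exact hz z hz' h' h, fun h => h ▸ hd2⟩)
      rcases this with h | ⟨q, hq, hq'⟩
      · left; exact Finset.mem_union_right _ h
      · right; exact ⟨q, Finset.mem_union_right _ hq, hq'⟩

/-! ### The potential after a move -/

theorem nu0_np (hf : f ∈ NC G D) (hx : x ∈ D) (hy : y ∈ D) (hxy : x ≠ y) (hfx : G.Adj f x)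
    (hfy : G.Adj f y) : (NC G (D.erase f)).card + 1 ≤ (NC G D).card := by
  have h1 := Finset.card_le_card (NC_erase_of_two hx hy hxy hfx hfy (mem_NC.1 hf).1)
  rw [Finset.card_erase_of_mem hf] at h1
  have : 0 < (NC G D).card := Finset.card_pos.2 ⟨f, hf⟩
  omega

theorem nu0_p (hf : f ∈ NC G D) (hp : Pend G D f w) :
    (NC G (D.erase f)).card ≤ (NC G D).card := by
  have h1 := Finset.card_le_card (NC_erase_subset hp)
  have h2 := Finset.card_insert_le w ((NC G D).erase f)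
  rw [Finset.card_erase_of_mem hf] at h2
  have : 0 < (NC G D).card := Finset.card_pos.2 ⟨f, hf⟩
  omega

theorem nu_insert_le (ha : Att G D x g) (hg : g ∈ NC G D) (hy : y ∈ D) (hyg : y ≠ g) :
    (NC G (insert x D)).card ≤ (NC G D).card := by
  have h1 := Finset.card_le_card (NC_insert_subset ha.notMem ha.mem ha.adj hy hyg)
  have h2 := Finset.card_insert_le x ((NC G D).erase g)
  rw [Finset.card_erase_of_mem hg] at h2
  have : 0 < (NC G D).card := Finset.card_pos.2 ⟨g, hg⟩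
  omega

theorem mem_NC_insert (ha : Att G D x g) (hg' : g' ∈ NC G D) (hne : g' ≠ g) :
    g' ∈ NC G (insert x D) := by
  rw [mem_NC] at hg' ⊢
  refine ⟨Finset.mem_insert_of_mem hg'.1, ?_⟩
  have hxg' : x ≠ g' := by rintro rfl; exact ha.notMem hg'.1
  have : (insert x D).erase g' = insert x (D.erase g') := by
    rw [Finset.erase_insert_of_ne hxg']
  rw [this]
  exact hg'.2.insert_adj (y := g) (Finset.mem_erase.2 ⟨hne.symm, ha.mem⟩)
    ((ha.adj g ha.mem).2 rfl)

theorem nu1_np (hf : f ∈ NC G D) (hx : x ∈ D) (hy : y ∈ D) (hxy : x ≠ y) (hfx : G.Adj f x)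
    (hfy : G.Adj f y) (hg : g ∈ NC G D) (hgf : g ≠ f) (ha : Att G D u g) (hz : z ∈ D)
    (hzf : z ≠ f) (hzg : z ≠ g) :
    (NC G (insert u (D.erase f))).card + 1 ≤ (NC G D).card := by
  have ha' := ha.erase (f := f) hgf
  have s1 := NC_erase_of_two hx hy hxy hfx hfy (mem_NC.1 hf).1
  have s2 := NC_insert_subset ha'.notMem ha'.mem ha'.adj (Finset.mem_erase.2 ⟨hzf, hz⟩) hzg
  have s3 : NC G (insert u (D.erase f)) ⊆ insert u (((NC G D).erase f).erase g) :=
    s2.trans (Finset.insert_subset_insert _ (Finset.erase_subset_erase _ s1))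
  have h1 := Finset.card_le_card s3
  have h2 := Finset.card_insert_le u (((NC G D).erase f).erase g)
  have h3 : g ∈ (NC G D).erase f := Finset.mem_erase.2 ⟨hgf, hg⟩
  have h4 : 0 < ((NC G D).erase f).card := Finset.card_pos.2 ⟨g, h3⟩
  rw [Finset.card_erase_of_mem h3] at h2
  rw [Finset.card_erase_of_mem hf] at h2 h4
  omega

theorem nu2_np (hf : f ∈ NC G D) (hx : x ∈ D) (hy : y ∈ D) (hxy : x ≠ y) (hfx : G.Adj f x)
    (hfy : G.Adj f y) (hg : g ∈ NC G D) (hgf : g ≠ f) (hg' : g' ∈ NC G D) (hg'f : g' ≠ f)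
    (hgg' : g ≠ g') (ha : Att G D u g) (ha2 : Att G D v g') (huv : v ≠ u)
    (hna : ¬ G.Adj v u) (hz : z ∈ D)
    (hzf : z ≠ f) (hzg : z ≠ g) :
    (NC G (insert v (insert u (D.erase f)))).card + 1 ≤ (NC G D).card := by
  have ha' := ha.erase (f := f) hgf
  have ha3 : Att G (insert u (D.erase f)) v g' :=
    (ha2.erase (f := f) hg'f).insert' huv hna ha'.notMem
  have s1 := NC_erase_of_two hx hy hxy hfx hfy (mem_NC.1 hf).1
  have s2 := NC_insert_subset ha'.notMem ha'.mem ha'.adj (Finset.mem_erase.2 ⟨hzf, hz⟩) hzg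
  have s3 : NC G (insert u (D.erase f)) ⊆ insert u (((NC G D).erase f).erase g) :=
    s2.trans (Finset.insert_subset_insert _ (Finset.erase_subset_erase _ s1))
  have s4 := NC_insert_subset ha3.notMem ha3.mem ha3.adj
    (Finset.mem_insert_of_mem ha'.mem) hgg'
  have s5 : NC G (insert v (insert u (D.erase f))) ⊆
      insert v (insert u ((((NC G D).erase f).erase g).erase g')) := by
    refine s4.trans (Finset.insert_subset_insert _ ?_)
    refine (Finset.erase_subset_erase _ s3).trans ?_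
    intro q hq
    rw [Finset.mem_erase, Finset.mem_insert] at hq
    rcases hq.2 with h | h
    · rw [h]; exact Finset.mem_insert_self _ _
    · exact Finset.mem_insert_of_mem (Finset.mem_erase.2 ⟨hq.1, h⟩)
  have h1 := Finset.card_le_card s5
  have h2 := Finset.card_insert_le v (insert u ((((NC G D).erase f).erase g).erase g'))
  have h3 := Finset.card_insert_le u ((((NC G D).erase f).erase g).erase g')
  have m1 : g ∈ (NC G D).erase f := Finset.mem_erase.2 ⟨hgf, hg⟩
  have m2 : g' ∈ ((NC G D).erase f).erase g := Finset.mem_erase.2 ⟨hgg'.symm,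
    Finset.mem_erase.2 ⟨hg'f, hg'⟩⟩
  have p1 : 0 < (((NC G D).erase f).erase g).card := Finset.card_pos.2 ⟨g', m2⟩
  rw [Finset.card_erase_of_mem m2] at h3
  rw [Finset.card_erase_of_mem m1] at h3 p1
  rw [Finset.card_erase_of_mem hf] at h3 p1
  omega

/-- The tail part of the potential. -/
theorem tail0 (hp : Pend G D f w) (hw : 2 ≤ deg G D w)
    (hm : 1 ≤ m) (hT : ¬ TL G (m + 1) D f) :
    ∃ t, 1 ≤ t ∧ t ≤ m ∧ TL G t D f ∧ (t = 1 ∧ 3 ≤ deg G D w ∨ deg G D w = 2) ∧
      (TS G t (D.erase f)).card < (TS G t D).card ∧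
      ∀ s, 1 ≤ s → s < t → (TS G s (D.erase f)).card ≤ (TS G s D).card := by
  have hT1 : TL G 1 D f := ⟨hp.1, hp.deg, w, hp.2.1, hp.2.2.1, trivial⟩
  rcases Nat.lt_or_ge 2 (deg G D w) with h3 | h3
  · exact ⟨1, le_rfl, hm, hT1, Or.inl ⟨rfl, h3⟩, TS_one_erase hp h3, fun s h1 h2 => by omega⟩
  · have h2 : deg G D w = 2 := by omega
    have : ∃ t, 1 ≤ t ∧ t ≤ m ∧ TL G t D f ∧ ¬ TL G (t + 1) D f := by
      clear h3 h2 hw
      induction m with
      | zero => omega
      | succ m ih =>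
        by_cases h : TL G (m + 1) D f
        · exact ⟨m + 1, hm, le_rfl, h, hT⟩
        · rcases Nat.eq_zero_or_pos m with rfl | hm'
          · exact absurd hT1 h
          · obtain ⟨t, h1, h2, h3, h4⟩ := ih hm' h
            exact ⟨t, h1, by omega, h3, h4⟩
    obtain ⟨t, ht1, htm, ht2, ht3⟩ := this
    refine ⟨t, ht1, htm, ht2, Or.inr h2, TS_erase_lt hp h2 ht2 ht3, ?_⟩
    intro s _ hs
    exact TS_erase_le hp h2 (ht2.mono (by omega))

theorem better_of_nu {D' : Finset V} (h : (NC G D').card + 1 ≤ (NC G D).card) :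
    Better G m D' D :=
  ⟨0, Nat.zero_le _, by rw [comp_zero, comp_zero]; omega, fun s hs => by omega⟩

theorem better_of_tail {D' : Finset V} {t : ℕ} (h0 : (NC G D').card ≤ (NC G D).card)
    (ht : 1 ≤ t) (htm : t ≤ m) (h1 : (TS G t D').card < (TS G t D).card)
    (h2 : ∀ s, 1 ≤ s → s < t → (TS G s D').card ≤ (TS G s D).card) : Better G m D' D := by
  refine ⟨t, htm, ?_, ?_⟩
  · obtain ⟨s, rfl⟩ : ∃ s, t = s + 1 := ⟨t - 1, by omega⟩
    exact h1
  · intro s hs
    cases s with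
    | zero => exact h0
    | succ s => exact h2 (s + 1) (by omega) hs

theorem better0 (hf : f ∈ NC G D) (hwD : w ∈ D) (hfw : G.Adj f w)
    (hw : 2 ≤ deg G D w) (hm : 1 ≤ m) (hT : ¬ TL G (m + 1) D f) :
    Better G m (D.erase f) D := by
  by_cases h : ∀ x ∈ D, G.Adj f x → x = w
  · have hp : Pend G D f w := ⟨(mem_NC.1 hf).1, hwD, hfw, h⟩
    obtain ⟨t, ht1, htm, _, _, h1, h2⟩ := tail0 hp hw hm hT
    exact better_of_tail (nu0_p hf hp) ht1 htm h1 h2
  · push Not at h
    obtain ⟨x, hx, hfx, hxw⟩ := h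
    exact better_of_nu (nu0_np hf hx hwD hxw hfx hfw)

theorem better1 (hD : Conn G D) (hc : c ∈ D) (hc3 : 3 ≤ deg G D c)
    (hf : f ∈ NC G D) (hwD : w ∈ D) (hfw : G.Adj f w)
    (hw : 2 ≤ deg G D w) (hm : 1 ≤ m) (hT : ¬ TL G (m + 1) D f)
    (hg : g ∈ NC G D) (hgf : g ≠ f) (hgw : g ≠ w) (ha : Att G D u g)
    (H : deg G D f ≠ 1 ∨ (deg G D g = 1 ∧ ∀ s, TL G s D f → TL G s D g)) :
    Better G m (insert u (D.erase f)) D := by
  have ha' := ha.erase (f := f) hgf
  by_cases h : ∀ x ∈ D, G.Adj f x → x = w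
  · have hp : Pend G D f w := ⟨(mem_NC.1 hf).1, hwD, hfw, h⟩
    have H := H.resolve_left (fun h => h hp.deg)
    obtain ⟨t, ht1, htm, htf, hcase, h1, h2⟩ := tail0 hp hw hm hT
    have hgD := (mem_NC.1 hg).1
    have hnu : (NC G (insert u (D.erase f))).card ≤ (NC G D).card :=
      (nu_insert_le ha' (mem_NC_erase hp hg hgf hwD hp.ne hgw.symm) (y := w)
        (Finset.mem_erase.2 ⟨hp.ne, hwD⟩) hgw.symm).trans (nu0_p hf hp)
    have hgfa : ¬ G.Adj g f := not_adj_leaf hD hc hc3 hp hgD H.1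
    rcases hcase with ⟨rfl, h3⟩ | h3
    · refine better_of_tail hnu le_rfl hm ?_ (fun s _ _ => by omega)
      refine lt_of_le_of_lt (TS_one_insert_le ha' ?_) h1
      rw [deg_erase_of_not_adj hgfa]; exact H.1
    · have hcf : c ≠ f := by
        rintro rfl
        have := hp.deg
        omega
      have hcw : c ≠ w := by rintro rfl; omega
      have hcfa : ¬ G.Adj c f := fun h' => hcw (h c hc h'.symm)
      have hD1 : Conn G (D.erase f) := (mem_NC.1 hf).2
      have hc1 : c ∈ D.erase f := Finset.mem_erase.2 ⟨hcf, hc⟩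
      have hc31 : 3 ≤ deg G (D.erase f) c := by rw [deg_erase_of_not_adj hcfa]; exact hc3
      have key : ∀ s, 1 ≤ s → s ≤ t →
          (TS G s (insert u (D.erase f))).card ≤ (TS G s (D.erase f)).card := by
        intro s hs1 hst
        obtain ⟨r, rfl⟩ : ∃ r, s = r + 1 := ⟨s - 1, by omega⟩
        exact TS_insert_le hD1 hc1 hc31 ha'.notMem ha'.mem ha'.adj
          (TL.erase hD hc hc3 hp hgf (H.2 _ (htf.mono hst)))
      refine better_of_tail hnu ht1 htm (lt_of_le_of_lt (key t ht1 le_rfl) h1) ?_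
      intro s hs1 hst
      exact (key s hs1 hst.le).trans (h2 s hs1 hst)
  · push Not at h
    obtain ⟨x, hx, hfx, hxw⟩ := h
    exact better_of_nu (nu1_np hf hx hwD hxw hfx hfw hg hgf ha hwD hfw.ne' hgw.symm)

theorem better2 (hD : Conn G D) (hc : c ∈ D) (hc3 : 3 ≤ deg G D c)
    (hf : f ∈ NC G D) (hwD : w ∈ D) (hfw : G.Adj f w)
    (hw : 2 ≤ deg G D w) (hm : 1 ≤ m) (hT : ¬ TL G (m + 1) D f)
    (hg : g ∈ NC G D) (hgf : g ≠ f) (hgw : g ≠ w) (ha : Att G D u g)
    (hg' : g' ∈ NC G D) (hg'f : g' ≠ f) (hg'w : g' ≠ w) (ha2 : Att G D v g')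
    (hgg' : g ≠ g') (huv : v ≠ u) (hna : ¬ G.Adj v u)
    (H : deg G D f ≠ 1 ∨ ((deg G D g = 1 ∧ ∀ s, TL G s D f → TL G s D g) ∧
      (deg G D g' = 1 ∧ ∀ s, TL G s D f → TL G s D g'))) :
    Better G m (insert v (insert u (D.erase f))) D := by
  have ha' := ha.erase (f := f) hgf
  have ha3 : Att G (insert u (D.erase f)) v g' :=
    (ha2.erase (f := f) hg'f).insert' huv hna ha'.notMem
  by_cases h : ∀ x ∈ D, G.Adj f x → x = w
  · have hp : Pend G D f w := ⟨(mem_NC.1 hf).1, hwD, hfw, h⟩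
    obtain ⟨H, H'⟩ := H.resolve_left (fun h => h hp.deg)
    obtain ⟨t, ht1, htm, htf, hcase, h1, h2⟩ := tail0 hp hw hm hT
    have hgD := (mem_NC.1 hg).1
    have hg'D := (mem_NC.1 hg').1
    have hnu : (NC G (insert v (insert u (D.erase f)))).card ≤ (NC G D).card := by
      refine (nu_insert_le ha3 (mem_NC_insert ha' (mem_NC_erase hp hg' hg'f hwD hp.ne
        hg'w.symm) hgg'.symm) (y := g) (Finset.mem_insert_of_mem ha'.mem) hgg').trans ?_
      exact (nu_insert_le ha' (mem_NC_erase hp hg hgf hwD hp.ne hgw.symm) (y := w)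
        (Finset.mem_erase.2 ⟨hp.ne, hwD⟩) hgw.symm).trans (nu0_p hf hp)
    have hgfa : ¬ G.Adj g f := not_adj_leaf hD hc hc3 hp hgD H.1
    have hg'fa : ¬ G.Adj g' f := not_adj_leaf hD hc hc3 hp hg'D H'.1
    have hg1 : deg G (D.erase f) g = 1 := by rw [deg_erase_of_not_adj hgfa]; exact H.1
    have hg'u : ¬ G.Adj g' u := fun h' => hgg' ((ha.adj g' hg'D).1 h'.symm).symm
    rcases hcase with ⟨rfl, h3⟩ | h3
    · refine better_of_tail hnu le_rfl hm ?_ (fun s _ _ => by omega)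
      refine lt_of_le_of_lt ((TS_one_insert_le ha3 ?_).trans (TS_one_insert_le ha' hg1)) h1
      rw [deg_insert_of_not_adj hg'u, deg_erase_of_not_adj hg'fa]; exact H'.1
    · have hcf : c ≠ f := by
        rintro rfl
        have := hp.deg
        omega
      have hcw : c ≠ w := by rintro rfl; omega
      have hcfa : ¬ G.Adj c f := fun h' => hcw (h c hc h'.symm)
      have hD1 : Conn G (D.erase f) := (mem_NC.1 hf).2
      have hc1 : c ∈ D.erase f := Finset.mem_erase.2 ⟨hcf, hc⟩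
      have hc31 : 3 ≤ deg G (D.erase f) c := by rw [deg_erase_of_not_adj hcfa]; exact hc3
      have hD2 : Conn G (insert u (D.erase f)) :=
        hD1.insert_adj ha'.mem ((ha'.adj g ha'.mem).2 rfl)
      have key : ∀ s, 1 ≤ s → s ≤ t →
          (TS G s (insert v (insert u (D.erase f)))).card ≤ (TS G s (D.erase f)).card := by
        intro s hs1 hst
        obtain ⟨r, rfl⟩ : ∃ r, s = r + 1 := ⟨s - 1, by omega⟩
        refine (TS_insert_le hD2 (Finset.mem_insert_of_mem hc1)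
          (hc31.trans (deg_mono (Finset.subset_insert _ _))) ha3.notMem ha3.mem ha3.adj
          ?_).trans (TS_insert_le hD1 hc1 hc31 ha'.notMem ha'.mem ha'.adj
          (TL.erase hD hc hc3 hp hgf (H.2 _ (htf.mono hst))))
        exact TL.insert ha'.notMem ha'.mem ha'.adj hg1
          (Finset.mem_erase.2 ⟨hg'f, hg'D⟩) hgg'.symm
          (TL.erase hD hc hc3 hp hg'f (H'.2 _ (htf.mono hst)))
      refine better_of_tail hnu ht1 htm (lt_of_le_of_lt (key t ht1 le_rfl) h1) ?_
      intro s hs1 hst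
      exact (key s hs1 hst.le).trans (h2 s hs1 hst)
  · push Not at h
    obtain ⟨x, hx, hfx, hxw⟩ := h
    exact better_of_nu (nu2_np hf hx hwD hxw hfx hfw hg hgf hg' hg'f hgg' ha ha2 huv hna hwD
      hfw.ne' hgw.symm)

/-- Tails are comparable. -/
theorem tl_total (G : SimpleGraph V) (D : Finset V) (f g : V) :
    (∀ s, TL G s D f → TL G s D g) ∨ (∀ s, TL G s D g → TL G s D f) := by
  by_cases h : ∀ s, TL G s D f → TL G s D g
  · exact Or.inl h
  · right
    push Not at h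
    obtain ⟨s, h1, h2⟩ := h
    intro r hr
    rcases Nat.lt_or_ge r s with h3 | h3
    · exact h1.mono h3.le
    · exact absurd (hr.mono h3) h2

end Pool.Agent.H52.PE
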