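import Mathlib
import Pool.Agent.H52.PE.Improve

/-!
# The improvement theorem
-/

namespace Pool.Agent.H52.PE

variable {V : Type*} [DecidableEq V] {G : SimpleGraph V} {D U : Finset V} {m : ℕ}

theorem Bad.mono {D D' : Finset V} {k : ℕ} (h : Bad G D k) (hs : D ⊆ D') : Bad G D' k := by
  rcases h with ⟨e, he⟩ | ⟨e, he⟩
  · exact Or.inl ⟨e, fun a => hs (he a)⟩
  · exact Or.inr ⟨e, fun a => hs (he a)⟩

/-- The third element. -/
theorem fin3_cases {i j k : Fin 3} (hij : i ≠ j) (hik : i ≠ k) (hjk : j ≠ k) (a : Fin 3) :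
    a = i ∨ a = j ∨ a = k := by
  omega

theorem improve (hm : 1 ≤ m) (hU : ¬ Bad G U (m + 1)) (hDU : D ⊆ U) (hD : Conn G D)
    (hdom : Dom G U D) (hb : Bad G D m) :
    ∃ f ∈ D, ∃ u ∈ U, ∃ v ∈ U, Conn G (insert u (insert v (D.erase f))) ∧
      Dom G U (insert u (insert v (D.erase f))) ∧
      Better G m (insert u (insert v (D.erase f))) D := by
  classical
  obtain ⟨F, f, w, hFD, hF, hfinj, hfF, hFe, hw, hwf, ⟨c, hcF, hc3⟩, hTL, hext⟩ :=
    exists_tripod hm hb
  have hfD : ∀ i, f i ∈ D := fun i => hFD (hfF i)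
  have hwD : ∀ i, w i ∈ D := fun i => hFD (hw i).1
  have hcD : c ∈ D := hFD hcF
  have hc3D : 3 ≤ deg G D c := hc3.trans (deg_mono hFD)
  have hff : ∀ {i j : Fin 3}, i ≠ j → f i ≠ f j := fun h h' => h (hfinj h')
  -- `w i` has degree at least two
  have hw2 : ∀ i, 2 ≤ deg G D (w i) := by
    intro i
    obtain ⟨j, hj⟩ : ∃ j : Fin 3, j ≠ i := ⟨i + 1, by fin_cases i <;> decide⟩
    have h1 : w i ∈ F.erase (f i) := Finset.mem_erase.2 ⟨hwf i i, (hw i).1⟩
    have h2 : f j ∈ F.erase (f i) := Finset.mem_erase.2 ⟨hff hj, hfF j⟩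
    obtain ⟨z, hz, hwz⟩ := (hFe i).exists_adj h1 h2 (hwf i j).symm
    have h3 : 2 ≤ deg G F (w i) := by
      unfold deg
      have : ({f i, z} : Finset V) ⊆ F.filter (fun q => G.Adj (w i) q) := by
        intro q hq
        simp only [Finset.mem_insert, Finset.mem_singleton] at hq
        rw [Finset.mem_filter]
        rcases hq with rfl | rfl
        · exact ⟨hfF i, (hw i).2.1.symm⟩
        · exact ⟨Finset.mem_of_mem_erase hz, hwz⟩
      have h4 := Finset.card_le_card this
      rw [Finset.card_pair (Finset.ne_of_mem_erase hz).symm] at h4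
      exact h4
    exact h3.trans (deg_mono hFD)
  -- private vertices
  set Pr : Fin 3 → V → Prop := fun i x => x ∈ U ∧ x ∉ D ∧ ∀ z ∈ D, G.Adj x z ↔ z = f i with hPr
  set Leg : Fin 3 → V → Prop := fun i x => x ∈ U ∧ x ∉ F ∧ (∀ z ∈ F, G.Adj x z ↔ z = f i) ∧
    (x ∈ D ∨ Pr i x) with hLeg
  have hPL : ∀ {i x}, Pr i x → Leg i x := by
    intro i x hx
    exact ⟨hx.1, fun h => hx.2.1 (hFD h), fun z hz => hx.2.2 z (hFD hz), Or.inr hx⟩
  -- no three nonadjacent legs
  have hno : ∀ l : Fin 3 → V, (∀ i, Leg i (l i)) → ∃ i j, i ≠ j ∧ G.Adj (l i) (l j) := by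
    intro l hl
    by_contra hcon
    push Not at hcon
    refine hU ((hext l (fun i => (hl i).2.1) (fun i => (hl i).2.2.1) hcon).mono ?_)
    intro q hq
    rcases Finset.mem_union.1 hq with h | h
    · exact hDU (hFD h)
    · obtain ⟨i, _, rfl⟩ := Finset.mem_image.1 h
      exact (hl i).1
  -- cut feet
  have hcut : ∀ i, ¬ Conn G (D.erase (f i)) → ∃ b, Leg i b ∧ ∀ j, j ≠ i → ∀ y, Leg j y →
      ¬ G.Adj b y := by
    intro i hi
    obtain ⟨A, hKA, hcl, b, hbD, hbf, hbA, hba⟩ := exists_sep hD (hfD i) hi (hFe i)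
      (Finset.erase_subset_erase _ hFD)
    have hbe : b ∈ D.erase (f i) := Finset.mem_erase.2 ⟨hbf, hbD⟩
    have hbF : b ∉ F := fun h => hbA (hKA (Finset.mem_erase.2 ⟨hbf, h⟩))
    refine ⟨b, ⟨hDU hbD, hbF, ?_, Or.inl hbD⟩, ?_⟩
    · intro z hz
      constructor
      · intro h
        by_contra hzf
        exact hbA (hcl z (hKA (Finset.mem_erase.2 ⟨hzf, hz⟩)) b hbe h.symm)
      · rintro rfl; exact hba
    · intro j hj y hy hby
      rcases hy.2.2.2 with hyD | hyP
      · have hyf : G.Adj y (f j) := (hy.2.2.1 (f j) (hfF j)).2 rfl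
        have hyi : y ≠ f i := by
          rintro rfl
          exact hy.2.1 (hfF i)
        have h1 : y ∈ A := hcl (f j) (hKA (Finset.mem_erase.2 ⟨hff hj, hfF j⟩)) y
          (Finset.mem_erase.2 ⟨hyi, hyD⟩) hyf.symm
        exact hbA (hcl y h1 b hbe hby.symm)
      · have := (hyP.2.2 b hbD).1 hby.symm
        exact hbF (this ▸ hfF j)
  -- a non-cut foot without private vertices
  by_cases hE : ∃ i, Conn G (D.erase (f i)) ∧ ∀ x, ¬ Pr i x
  · obtain ⟨i, hi, hP⟩ := hE
    have hwe : w i ∈ D.erase (f i) := Finset.mem_erase.2 ⟨hwf i i, hwD i⟩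
    have he : insert (w i) (insert (w i) (D.erase (f i))) = D.erase (f i) := by
      rw [Finset.insert_eq_of_mem (Finset.mem_insert_self _ _), Finset.insert_eq_of_mem hwe]
    refine ⟨f i, hfD i, w i, hDU (hwD i), w i, hDU (hwD i), ?_⟩
    rw [he]
    refine ⟨hi, ?_, better0 (mem_NC.2 ⟨hfD i, hi⟩) (hwD i) (hw i).2.1 (hw2 i) hm
      (hTL D hFD i)⟩
    have := Dom.move (X := ∅) hdom (hwD i) (hw i).2.1 (fun u hu huD huz =>
      absurd ⟨hu, huD, huz⟩ (hP u))
    rwa [Finset.union_empty] at this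
  push Not at hE
  -- the move with one new vertex
  have hM : ∀ i j, i ≠ j → Conn G (D.erase (f i)) → Conn G (D.erase (f j)) →
      (∀ x y, Pr i x → Pr j y → G.Adj x y) →
      (deg G D (f i) ≠ 1 ∨ (deg G D (f j) = 1 ∧ ∀ s, TL G s D (f i) → TL G s D (f j))) →
      ∃ f ∈ D, ∃ u ∈ U, ∃ v ∈ U, Conn G (insert u (insert v (D.erase f))) ∧
      Dom G U (insert u (insert v (D.erase f))) ∧
      Better G m (insert u (insert v (D.erase f))) D := by
    intro i j hij hi hj hcomp H
    obtain ⟨x, hx⟩ := hE j hj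
    have hatt : Att G D x (f j) := ⟨hx.2.1, hfD j, hx.2.2⟩
    refine ⟨f i, hfD i, x, hx.1, x, hx.1, ?_⟩
    rw [Finset.insert_eq_of_mem (Finset.mem_insert_self x (D.erase (f i)))]
    refine ⟨hi.insert_adj (y := f j) (Finset.mem_erase.2 ⟨hff hij.symm, hfD j⟩)
      ((hx.2.2 _ (hfD j)).2 rfl), ?_, ?_⟩
    · have := Dom.move (X := {x}) hdom (hwD i) (hw i).2.1 (fun u hu huD huz => by
        right
        exact ⟨x, Finset.mem_singleton_self x, hcomp u x ⟨hu, huD, huz⟩ hx⟩)
      rwa [Finset.union_comm, ← Finset.insert_eq] at this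
    · exact better1 hD hcD hc3D (mem_NC.2 ⟨hfD i, hi⟩) (hwD i) (hw i).2.1 (hw2 i) hm
        (hTL D hFD i) (mem_NC.2 ⟨hfD j, hj⟩) (hff hij.symm) (hwf i j).symm hatt H
  by_cases hMut : ∃ i j, i ≠ j ∧ Conn G (D.erase (f i)) ∧ Conn G (D.erase (f j)) ∧
      ∀ x y, Pr i x → Pr j y → G.Adj x y
  · obtain ⟨i, j, hij, hi, hj, hcomp⟩ := hMut
    have hcomp' : ∀ x y, Pr j x → Pr i y → G.Adj x y := fun x y hx hy => (hcomp y x hy hx).symm
    by_cases h1 : deg G D (f i) = 1
    · by_cases h2 : deg G D (f j) = 1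
      · rcases tl_total G D (f i) (f j) with h | h
        · exact hM i j hij hi hj hcomp (Or.inr ⟨h2, h⟩)
        · exact hM j i hij.symm hj hi hcomp' (Or.inr ⟨h1, h⟩)
      · exact hM j i hij.symm hj hi hcomp' (Or.inl h2)
    · exact hM i j hij hi hj hcomp (Or.inl h1)
  push Not at hMut
  -- nonadjacent legs for two feet
  have hpair : ∀ j k, j ≠ k → ∃ x y, Leg j x ∧ Leg k y ∧ ¬ G.Adj x y := by
    intro j k hjk
    have hex : ∀ i, ∃ x, Leg i x := by
      intro i
      by_cases hi : Conn G (D.erase (f i))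
      · obtain ⟨x, hx⟩ := hE i hi
        exact ⟨x, hPL hx⟩
      · obtain ⟨b, hb, _⟩ := hcut i hi
        exact ⟨b, hb⟩
    by_cases hj : Conn G (D.erase (f j))
    · by_cases hk : Conn G (D.erase (f k))
      · obtain ⟨x, y, hx, hy, hxy⟩ := hMut j k hjk hj hk
        exact ⟨x, y, hPL hx, hPL hy, hxy⟩
      · obtain ⟨b, hb, hb'⟩ := hcut k hk
        obtain ⟨x, hx⟩ := hex j
        exact ⟨x, b, hx, hb, fun h => hb' j hjk x hx h.symm⟩
    · obtain ⟨b, hb, hb'⟩ := hcut j hj
      obtain ⟨y, hy⟩ := hex k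
      exact ⟨b, y, hb, hy, hb' k hjk.symm y hy⟩
  have hthree : ∀ i j k : Fin 3, i ≠ j → i ≠ k → j ≠ k → ∀ x y z, Leg i x → Leg j y → Leg k z →
      G.Adj x y ∨ G.Adj x z ∨ G.Adj y z := by
    intro i j k hij hik hjk x y z hx hy hz
    obtain ⟨a, b, hab, h⟩ := hno (fun a => if a = i then x else if a = j then y else z) (by
      intro a
      rcases fin3_cases hij hik hjk a with rfl | rfl | rfl
      · simpa using hx
      · simpa [hij.symm] using hy
      · simpa [hik.symm, hjk.symm] using hz)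
    rcases fin3_cases hij hik hjk a with rfl | rfl | rfl <;>
    rcases fin3_cases hij hik hjk b with rfl | rfl | rfl <;>
    simp only [if_pos, if_neg, hij.symm, hik.symm, hjk.symm, if_false, if_true, ne_eq,
      not_true_eq_false] at h hab <;>
    first
      | exact absurd rfl hab
      | exact Or.inl h
      | exact Or.inl h.symm
      | exact Or.inr (Or.inl h)
      | exact Or.inr (Or.inl h.symm)
      | exact Or.inr (Or.inr h)
      | exact Or.inr (Or.inr h.symm)
  -- all feet are non-cut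
  have hothers : ∀ i : Fin 3, ∃ j k, i ≠ j ∧ i ≠ k ∧ j ≠ k := by
    intro i
    fin_cases i
    · exact ⟨1, 2, by decide, by decide, by decide⟩
    · exact ⟨0, 2, by decide, by decide, by decide⟩
    · exact ⟨0, 1, by decide, by decide, by decide⟩
  have hall : ∀ i, Conn G (D.erase (f i)) := by
    intro i
    by_contra hi
    obtain ⟨j, k, hij, hik, hjk⟩ := hothers i
    obtain ⟨b, hb, hb'⟩ := hcut i hi
    obtain ⟨y, z, hy, hz, hyz⟩ := hpair j k hjk
    rcases hthree i j k hij hik hjk b y z hb hy hz with h | h | h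
    · exact hb' j hij.symm y hy h
    · exact hb' k hik.symm z hz h
    · exact hyz h
  -- the move with two new vertices
  have hR : ∀ i j k, i ≠ j → i ≠ k → j ≠ k →
      (deg G D (f i) ≠ 1 ∨ ((deg G D (f j) = 1 ∧ ∀ s, TL G s D (f i) → TL G s D (f j)) ∧
        (deg G D (f k) = 1 ∧ ∀ s, TL G s D (f i) → TL G s D (f k)))) →
      ∃ f ∈ D, ∃ u ∈ U, ∃ v ∈ U, Conn G (insert u (insert v (D.erase f))) ∧
      Dom G U (insert u (insert v (D.erase f))) ∧
      Better G m (insert u (insert v (D.erase f))) D := by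
    intro i j k hij hik hjk H
    obtain ⟨u, v, hu, hv, huv⟩ := hMut j k hjk (hall j) (hall k)
    have hau : Att G D u (f j) := ⟨hu.2.1, hfD j, hu.2.2⟩
    have hav : Att G D v (f k) := ⟨hv.2.1, hfD k, hv.2.2⟩
    have hne : u ≠ v := by
      rintro rfl
      exact hff hjk ((hv.2.2 _ (hfD j)).1 ((hu.2.2 _ (hfD j)).2 rfl))
    refine ⟨f i, hfD i, v, hv.1, u, hu.1, ?_, ?_, ?_⟩
    · refine Conn.insert_adj (y := f k) (Conn.insert_adj (y := f j) (hall i)
        (Finset.mem_erase.2 ⟨hff hij.symm, hfD j⟩) ((hu.2.2 _ (hfD j)).2 rfl)) ?_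
        ((hv.2.2 _ (hfD k)).2 rfl)
      exact Finset.mem_insert_of_mem (Finset.mem_erase.2 ⟨hff hik.symm, hfD k⟩)
    · have := Dom.move (X := {v, u}) hdom (hwD i) (hw i).2.1 (fun y hy hyD hyz => by
        right
        rcases hthree i j k hij hik hjk y u v (hPL ⟨hy, hyD, hyz⟩) (hPL hu) (hPL hv)
          with h | h | h
        · exact ⟨u, by simp, h⟩
        · exact ⟨v, by simp, h⟩
        · exact absurd h huv)
      rw [Finset.union_comm, Finset.insert_union, ← Finset.insert_eq] at this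
      exact this
    · exact better2 hD hcD hc3D (mem_NC.2 ⟨hfD i, hall i⟩) (hwD i) (hw i).2.1 (hw2 i) hm
        (hTL D hFD i) (mem_NC.2 ⟨hfD j, hall j⟩) (hff hij.symm) (hwf i j).symm hau
        (mem_NC.2 ⟨hfD k, hall k⟩) (hff hik.symm) (hwf i k).symm hav (hff hjk) hne.symm
        (fun h => huv h.symm) H
  by_cases hdeg : ∃ i, deg G D (f i) ≠ 1
  · obtain ⟨i, hi⟩ := hdeg
    obtain ⟨j, k, hij, hik, hjk⟩ := hothers i
    exact hR i j k hij hik hjk (Or.inl hi)
  · push Not at hdeg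
    have hmin : ∃ i, ∀ j, ∀ s, TL G s D (f i) → TL G s D (f j) := by
      rcases tl_total G D (f 0) (f 1) with h1 | h1
      · rcases tl_total G D (f 0) (f 2) with h2 | h2
        · refine ⟨0, fun j => ?_⟩
          fin_cases j
          · exact fun s h => h
          · exact h1
          · exact h2
        · refine ⟨2, fun j => ?_⟩
          fin_cases j
          · exact h2
          · exact fun s h => h1 s (h2 s h)
          · exact fun s h => h
      · rcases tl_total G D (f 1) (f 2) with h2 | h2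
        · refine ⟨1, fun j => ?_⟩
          fin_cases j
          · exact h1
          · exact fun s h => h
          · exact h2
        · refine ⟨2, fun j => ?_⟩
          fin_cases j
          · exact fun s h => h1 s (h2 s h)
          · exact h2
          · exact fun s h => h
    obtain ⟨i, hi⟩ := hmin
    obtain ⟨j, k, hij, hik, hjk⟩ := hothers i
    exact hR i j k hij hik hjk (Or.inr ⟨⟨hdeg j, hi j⟩, ⟨hdeg k, hi k⟩⟩)

end Pool.Agent.H52.PE
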