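import Mathlib
import Pool.Agent.H52.PE.Alg
import Pool.Agent.H52.PE.Improve2

/-!
# One stage of the algorithm
-/

namespace Pool.Agent.H52.PE

open Pool.Agent.PPS H87.HC Pool.Agent.H87.PMCSP

/-- The candidate `D - f + u + v`. -/
def cand (U D : List ℕ) (f u v : ℕ) : List ℕ :=
  U.filter (fun x => decide (x = u) || decide (x = v) || (decide (x ∈ D) && !decide (x = f)))

/-- All candidates. -/
def candL (U D : List ℕ) : List (List ℕ) :=
  D.flatMap (fun f => U.flatMap (fun u => U.map (fun v => cand U D f u v)))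

/-- The potential as a number. -/
def phiD (E : List (ℕ × ℕ)) (N : ℕ) : ℕ → List ℕ → ℕ
  | 0, D => compD E 0 D
  | m + 1, D => phiD E N m D * N + compD E (m + 1) D

/-- The test for an improvement. -/
def goodD (E : List (ℕ × ℕ)) (m : ℕ) (U D C : List ℕ) : Bool :=
  connD E C && domD E U C && decide (phiD E (U.length + 1) m C < phiD E (U.length + 1) m D)

/-- One step. -/
def stepD (E : List (ℕ × ℕ)) (m : ℕ) (U D : List ℕ) : List ℕ :=
  ((candL U D).filter (goodD E m U D)).headD D

/-- Constant powers. -/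
def powN (N : ℕ) : ℕ → ℕ
  | 0 => 1
  | t + 1 => powN N t * N

/-- One stage. -/
def stageD (E : List (ℕ × ℕ)) (m : ℕ) (U : List ℕ) : List ℕ :=
  (stepD E m U)^[powN (U.length + 1) (m + 1)] U

/-- All stages. -/
def redD (E : List (ℕ × ℕ)) : ℕ → List ℕ → List ℕ
  | 0, U => U
  | m + 1, U => redD E m (stageD E (m + 1) U)

/-! ### Correctness -/

variable {E : List (ℕ × ℕ)} {U D C : List ℕ} {m N : ℕ}

theorem mem_cand {f u v x : ℕ} : x ∈ cand U D f u v ↔ x ∈ U ∧ (x = u ∨ x = v ∨
    (x ∈ D ∧ x ≠ f)) := by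
  simp only [cand, List.mem_filter, Bool.or_eq_true, Bool.and_eq_true, decide_eq_true_eq,
    Bool.not_eq_true', decide_eq_false_iff_not]
  tauto

theorem cand_toFinset {f u v : ℕ} (hDU : D ⊆ U) (hu : u ∈ U) (hv : v ∈ U) :
    (cand U D f u v).toFinset = insert u (insert v (D.toFinset.erase f)) := by
  ext x
  rw [List.mem_toFinset, mem_cand, Finset.mem_insert, Finset.mem_insert, Finset.mem_erase,
    List.mem_toFinset]
  constructor
  · rintro ⟨_, h⟩; tauto
  · rintro (rfl | rfl | ⟨h1, h2⟩)
    · exact ⟨hu, Or.inl rfl⟩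
    · exact ⟨hv, Or.inr (Or.inl rfl)⟩
    · exact ⟨hDU h2, Or.inr (Or.inr ⟨h2, h1⟩)⟩

theorem mem_candL {C : List ℕ} : C ∈ candL U D ↔ ∃ f ∈ D, ∃ u ∈ U, ∃ v ∈ U,
    cand U D f u v = C := by
  simp only [candL, List.mem_flatMap, List.mem_map]

theorem sublist_of_mem_candL (h : C ∈ candL U D) : C.Sublist U := by
  obtain ⟨f, _, u, _, v, _, rfl⟩ := mem_candL.1 h
  exact List.filter_sublist

theorem compD_le {t : ℕ} : compD E t D ≤ D.length := by
  cases t with
  | zero => exact List.length_filter_le _ _
  | succ t => exact List.length_filter_le _ _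

theorem phiD_lt (h : ∀ t ≤ m, compD E t D < N) : phiD E N m D < powN N (m + 1) := by
  induction m with
  | zero => simpa [phiD, powN] using h 0 le_rfl
  | succ m ih =>
    have h1 := ih (fun t ht => h t (by omega))
    have h2 := h (m + 1) le_rfl
    show phiD E N m D * N + compD E (m + 1) D < powN N (m + 1) * N
    have h3 : (phiD E N m D + 1) * N ≤ powN N (m + 1) * N := Nat.mul_le_mul_right _ h1
    rw [Nat.add_mul, Nat.one_mul] at h3
    omega

theorem phiD_le_of_le {D' : List ℕ} (h : ∀ t ≤ m, compD E t D' ≤ compD E t D) :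
    phiD E N m D' ≤ phiD E N m D := by
  induction m with
  | zero => exact h 0 le_rfl
  | succ m ih =>
    have h1 := ih (fun t ht => h t (by omega))
    exact Nat.add_le_add (Nat.mul_le_mul_right _ h1) (h (m + 1) le_rfl)

theorem phiD_lt_of_better {D' : List ℕ} {t : ℕ} (ht : t ≤ m)
    (h1 : compD E t D' < compD E t D) (h2 : ∀ s < t, compD E s D' ≤ compD E s D)
    (hN : ∀ s ≤ m, compD E s D' < N) : phiD E N m D' < phiD E N m D := by
  induction m with
  | zero =>
    obtain rfl : t = 0 := by omega
    exact h1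
  | succ m ih =>
    show phiD E N m D' * N + compD E (m + 1) D' < phiD E N m D * N + compD E (m + 1) D
    rcases Nat.lt_or_ge t (m + 1) with h | h
    · have h3 := ih (by omega) (fun s hs => hN s (by omega))
      have h4 : (phiD E N m D' + 1) * N ≤ phiD E N m D * N := Nat.mul_le_mul_right _ h3
      rw [Nat.add_mul, Nat.one_mul] at h4
      have h5 := hN (m + 1) le_rfl
      omega
    · obtain rfl : t = m + 1 := by omega
      have h3 : phiD E N m D' ≤ phiD E N m D := phiD_le_of_le (fun s hs => h2 s (by omega))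
      have h4 : phiD E N m D' * N ≤ phiD E N m D * N := Nat.mul_le_mul_right _ h3
      omega

/-- The invariant. -/
structure Inv (E : List (ℕ × ℕ)) (U D : List ℕ) : Prop where
  sub : D.Sublist U
  conn : Conn (grN E) D.toFinset
  dom : Dom (grN E) U.toFinset D.toFinset

theorem inv_self (hc : Conn (grN E) U.toFinset) : Inv E U U :=
  ⟨List.Sublist.refl _, hc, fun _ hu => Or.inl hu⟩

theorem stepD_eq_or : stepD E m U D = D ∨
    (stepD E m U D ∈ candL U D ∧ goodD E m U D (stepD E m U D) = true) := by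
  unfold stepD
  cases h : (candL U D).filter (goodD E m U D) with
  | nil => left; rfl
  | cons C l =>
    right
    have : C ∈ (candL U D).filter (goodD E m U D) := by rw [h]; exact List.mem_cons_self
    exact List.mem_filter.1 this

theorem inv_step (hU : U.Nodup) (h : Inv E U D) : Inv E U (stepD E m U D) := by
  rcases stepD_eq_or (E := E) (m := m) (U := U) (D := D) with h1 | ⟨h1, h2⟩
  · rw [h1]; exact h
  · unfold goodD at h2
    simp only [Bool.and_eq_true] at h2
    have hs := sublist_of_mem_candL h1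
    exact ⟨hs, (connD_iff (hs.nodup hU)).1 h2.1.1, domD_iff.1 h2.1.2⟩

theorem step_lt (h : stepD E m U D ≠ D) :
    phiD E (U.length + 1) m (stepD E m U D) < phiD E (U.length + 1) m D := by
  rcases stepD_eq_or (E := E) (m := m) (U := U) (D := D) with h1 | ⟨h1, h2⟩
  · exact absurd h1 h
  · unfold goodD at h2
    simp only [Bool.and_eq_true, decide_eq_true_eq] at h2
    exact h2.2

theorem inv_iter (hU : U.Nodup) (h : Inv E U D) (k : ℕ) : Inv E U ((stepD E m U)^[k] D) := by
  induction k with
  | zero => exact h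
  | succ k ih => rw [Function.iterate_succ_apply']; exact inv_step hU ih

theorem fixed_of_iter {σ : Type} (s : σ → σ) (φ : σ → ℕ) (hs : ∀ a, s a ≠ a → φ (s a) < φ a)
    (a : σ) (k : ℕ) (hk : φ a < k) : s (s^[k] a) = s^[k] a := by
  by_contra hne
  have key : ∀ j, j ≤ k → s (s^[j] a) ≠ s^[j] a := by
    intro j hj h
    apply hne
    have : ∀ i, s^[i] (s^[j] a) = s^[j] a := by
      intro i
      induction i with
      | zero => rfl
      | succ i ih => rw [Function.iterate_succ_apply', ih, h]
    have h1 := this (k - j)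
    rw [← Function.iterate_add_apply, Nat.sub_add_cancel hj] at h1
    rw [h1, h]
  have : ∀ j, j ≤ k → φ (s^[j] a) + j ≤ φ a := by
    intro j
    induction j with
    | zero => intro _; simp
    | succ j ih =>
      intro hj
      have h1 := ih (by omega)
      have h2 := hs _ (key j (by omega))
      rw [Function.iterate_succ_apply']
      omega
  have := this k le_rfl
  omega

theorem exists_good (hm : 1 ≤ m) (hU : U.Nodup) (hb : ¬ Bad (grN E) U.toFinset (m + 1))
    (h : Inv E U D) (hD : Bad (grN E) D.toFinset m) : stepD E m U D ≠ D := by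
  have hsub : D ⊆ U := h.sub.subset
  obtain ⟨f, hf, u, hu, v, hv, h1, h2, t, ht, h3, h4⟩ := improve hm hb
    (by intro x hx; rw [List.mem_toFinset] at hx ⊢; exact hsub hx) h.conn h.dom hD
  rw [List.mem_toFinset] at hf hu hv
  rw [← cand_toFinset hsub hu hv] at h1 h2 h3 h4
  have hC : cand U D f u v ∈ candL U D := mem_candL.2 ⟨f, hf, u, hu, v, hv, rfl⟩
  have hCs := sublist_of_mem_candL hC
  have hCn := hCs.nodup hU
  have hDn := h.sub.nodup hU
  have hlt : phiD E (U.length + 1) m (cand U D f u v) < phiD E (U.length + 1) m D := by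
    refine phiD_lt_of_better ht ?_ ?_ ?_
    · rw [compD_eq hCn, compD_eq hDn]; exact h3
    · intro s hs
      rw [compD_eq hCn, compD_eq hDn]; exact h4 s hs
    · intro s _
      have := compD_le (E := E) (D := cand U D f u v) (t := s)
      have := hCs.length_le
      omega
  have hgood : goodD E m U D (cand U D f u v) = true := by
    unfold goodD
    rw [(connD_iff hCn).2 h1, domD_iff.2 h2, decide_eq_true hlt]
    rfl
  have hmem : cand U D f u v ∈ (candL U D).filter (goodD E m U D) :=
    List.mem_filter.2 ⟨hC, hgood⟩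
  intro he
  unfold stepD at he
  cases hl : (candL U D).filter (goodD E m U D) with
  | nil => rw [hl] at hmem; simp at hmem
  | cons C l =>
    rw [hl] at he
    have hC' : C ∈ (candL U D).filter (goodD E m U D) := by rw [hl]; exact List.mem_cons_self
    have hgC := (List.mem_filter.1 hC').2
    have : C = D := he
    subst this
    unfold goodD at hgC
    simp at hgC

theorem stage_spec (hm : 1 ≤ m) (hU : U.Nodup) (hc : Conn (grN E) U.toFinset)
    (hb : ¬ Bad (grN E) U.toFinset (m + 1)) :
    Inv E U (stageD E m U) ∧ ¬ Bad (grN E) (stageD E m U).toFinset m := by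
  have hinv := inv_iter (m := m) hU (inv_self hc) (powN (U.length + 1) (m + 1))
  refine ⟨hinv, fun hbad => ?_⟩
  refine exists_good hm hU hb hinv hbad ?_
  refine fixed_of_iter (stepD E m U) (phiD E (U.length + 1) m) (fun a ha => step_lt ha) U _ ?_
  refine phiD_lt (fun t _ => ?_)
  have := compD_le (E := E) (D := U) (t := t)
  omega

/-- Everything is within distance `m` of the result. -/
def Near (G : SimpleGraph ℕ) : ℕ → ℕ → ℕ → Prop
  | 0, x, y => x = y
  | t + 1, x, y => Near G t x y ∨ ∃ z, G.Adj x z ∧ Near G t z y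

theorem red_spec (hU : U.Nodup) (hc : Conn (grN E) U.toFinset)
    (hb : ¬ Bad (grN E) U.toFinset (m + 1)) :
    (redD E m U).Sublist U ∧ Conn (grN E) (redD E m U).toFinset ∧
      ¬ Bad (grN E) (redD E m U).toFinset 1 ∧
      ∀ x ∈ U, ∃ y ∈ redD E m U, Near (grN E) m x y := by
  induction m generalizing U with
  | zero => exact ⟨List.Sublist.refl _, hc, hb, fun x hx => ⟨x, hx, rfl⟩⟩
  | succ m ih =>
    obtain ⟨h1, h2⟩ := stage_spec (by omega) hU hc hb
    obtain ⟨h3, h4, h5, h6⟩ := ih (h1.sub.nodup hU) h1.conn h2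
    refine ⟨h3.trans h1.sub, h4, h5, fun x hx => ?_⟩
    rcases h1.dom x (List.mem_toFinset.2 hx) with h | ⟨d, hd, hxd⟩
    · obtain ⟨y, hy, hxy⟩ := h6 x (List.mem_toFinset.1 h)
      exact ⟨y, hy, Or.inl hxy⟩
    · obtain ⟨y, hy, hdy⟩ := h6 d (List.mem_toFinset.1 hd)
      exact ⟨y, hy, Or.inr ⟨d, hxd, hdy⟩⟩

end Pool.Agent.H52.PE
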