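import Mathlib
import Pool.Agent.H52.PE.Stage

/-!
# The stages run in polynomial time
-/

namespace Pool.Agent.H52.PE

open Pool.Agent.PPS H87.HC Pool.Agent.H87.PMCSP

variable {m : Bool} {α : Type} [Rep α] {E : α → List (ℕ × ℕ)} {U D C : α → List ℕ}
  {f u v N : α → ℕ}

@[fun_prop]
theorem PT.cand' (hU : PT m U) (hD : PT m D) (hf : PT m f) (hu : PT m u) (hv : PT m v) :
    PT m (fun x => cand (U x) (D x) (f x) (u x) (v x)) := by
  unfold cand
  refine PT.filter2 hU ?_
  have h1 : PT m (fun z : α × ℕ => decide (z.2 ∈ D z.1)) :=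
    PT.mem2 (x := fun z : α × ℕ => z.2) (l := fun z : α × ℕ => D z.1) (by fun_prop)
      (by fun_prop)
  fun_prop

@[fun_prop]
theorem PT.candL' (hU : PT m U) (hD : PT m D) : PT m (fun x => candL (U x) (D x)) := by
  unfold candL
  refine PT.flatMap2 hD ?_
  refine PT.flatMap2 (f := fun (z : α × ℕ) u => (U z.1).map (fun v => cand (U z.1) (D z.1) z.2 u v))
    (by fun_prop) ?_
  refine PT.map2 (f := fun (z : (α × ℕ) × ℕ) v => cand (U z.1.1) (D z.1.1) z.1.2 z.2 v)
    (by fun_prop) ?_
  fun_prop

@[fun_prop]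
theorem PT.phiD' (k : ℕ) (hE : PT m E) (hN : PT m N) (hD : PT m D) :
    PT m (fun x => phiD (E x) (N x) k (D x)) := by
  induction k with
  | zero => exact PT.compD' 0 hE hD
  | succ k ih =>
    simp only [phiD]
    exact PT.add' (PT.mul' ih hN) (PT.compD' (k + 1) hE hD)

@[fun_prop]
theorem PT.goodD' (k : ℕ) (hE : PT m E) (hU : PT m U) (hD : PT m D) (hC : PT m C) :
    PT m (fun x => goodD (E x) k (U x) (D x) (C x)) := by
  unfold goodD
  refine PT.and' (by fun_prop) ?_
  exact PT.decideLt (by fun_prop) (by fun_prop)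

@[fun_prop]
theorem PT.stepD' (k : ℕ) (hE : PT m E) (hU : PT m U) (hD : PT m D) :
    PT m (fun x => stepD (E x) k (U x) (D x)) := by
  unfold stepD
  refine PT.headD' ?_ hD
  exact PT.filter2 (by fun_prop) (by fun_prop)

@[fun_prop]
theorem PT.powN' (k : ℕ) (hN : PT m N) : PT m (fun x => powN (N x) k) := by
  induction k with
  | zero => exact PT.const' _
  | succ k ih =>
    simp only [powN]
    exact PT.mul' ih hN

theorem size_cand_le (U D : List ℕ) (f u v : ℕ) : size (cand U D f u v) ≤ size U :=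
  size_filter_le _ _

theorem size_stepD_le {E : List (ℕ × ℕ)} {k : ℕ} {U D : List ℕ} (h : size D ≤ size U) :
    size (stepD E k U D) ≤ size U := by
  rcases stepD_eq_or (E := E) (m := k) (U := U) (D := D) with h1 | ⟨h1, _⟩
  · rw [h1]; exact h
  · obtain ⟨f, _, u, _, v, _, h2⟩ := mem_candL.1 h1
    rw [← h2]
    exact size_cand_le _ _ _ _ _

@[fun_prop]
theorem PT.stageD' (k : ℕ) (hE : PT m E) (hU : PT m U) :
    PT m (fun x => stageD (E x) k (U x)) := by
  obtain ⟨p, hp⟩ := hU.exists_size_le
  unfold stageD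
  refine PT.iterate (s := fun z : α × List ℕ => stepD (E z.1) k (U z.1) z.2)
    (by fun_prop) hU (by fun_prop) p ?_
  intro x j _
  refine le_trans ?_ (hp x)
  clear hp
  induction j with
  | zero => exact le_rfl
  | succ j ih =>
    rw [Function.iterate_succ_apply']
    exact size_stepD_le (ih (by omega))

@[fun_prop]
theorem PT.redD' (k : ℕ) (hE : PT m E) (hU : PT m U) : PT m (fun x => redD (E x) k (U x)) := by
  induction k generalizing U with
  | zero => exact hU
  | succ k ih =>
    simp only [redD]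
    exact ih (PT.stageD' (k + 1) hE hU)

end Pool.Agent.H52.PE
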