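import Mathlib
import Pool.Agent.H52.PE.StagePT
import Pool.Agent.H52.PE.Ham
import Pool.Agent.H52.PE.Code
import Pool.Agent.H87.HC.Enc
import Pool.Agent.PPS.Bridge

/-!
# The whole algorithm
-/

namespace Pool.Agent.H52.PE

open Pool.Agent.PPS H87.HC Pool.Agent.H87.PMCSP

/-- The algorithm for `k = m + 1`. -/
def algo (m : ℕ) (w : List Bool) : List Bool :=
  encSeq (hamPath (edgesOf (lead w) w) (redD (edgesOf (lead w) w) m (List.range (lead w))))

@[fun_prop]
theorem PT.encSeq' {b : Bool} {α : Type} [Rep α] {l : α → List ℕ} (hl : PT b l) :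
    PT b (fun x => encSeq (l x)) := by
  unfold encSeq
  exact PT.flatMap2 hl (by fun_prop)

theorem PT.algo' {b : Bool} (m : ℕ) : PT b (algo m) := by
  unfold algo
  exact PT.encSeq' (PT.hamPath' (by fun_prop) (by fun_prop))

theorem algo_mem_FP (m : ℕ) : algo m ∈ FP := mem_FP_iff.2 (PT.algo' m)

/-! ### Transfer between `G` and the graph on `ℕ` -/

variable {n : ℕ} {G : SimpleGraph (Fin n)} {E : List (ℕ × ℕ)}

theorem grN_val (hE : gr n E = G) {a b : Fin n} : (grN E).Adj a b ↔ G.Adj a b := by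
  rw [← hE]; exact Iff.rfl

theorem lt_of_adj (hb : Bd n E) {a b : ℕ} (h : (grN E).Adj a b) : a < n ∧ b < n := by
  rw [grN_adj, adj_iff] at h
  rcases h.2 with h | h
  · exact hb _ h
  · exact (hb _ h).symm

theorem bad_transfer (hE : gr n E = G) {k : ℕ} (h1 : IsEmpty (S k ↪g G))
    (h2 : IsEmpty (T k ↪g G)) : ¬ Bad (grN E) (List.range n).toFinset k := by
  rintro (⟨e, he⟩ | ⟨e, he⟩)
  · have he' : ∀ a, e a < n := fun a => by simpa using he a
    refine h1.false ⟨⟨fun a => ⟨e a, he' a⟩, fun a b h => ?_⟩, ?_⟩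
    · exact e.injective (congrArg Fin.val h)
    · intro a b
      rw [← e.map_adj_iff, ← grN_val hE]
      exact Iff.rfl
  · have he' : ∀ a, e a < n := fun a => by simpa using he a
    refine h2.false ⟨⟨fun a => ⟨e a, he' a⟩, fun a b h => ?_⟩, ?_⟩
    · exact e.injective (congrArg Fin.val h)
    · intro a b
      rw [← e.map_adj_iff, ← grN_val hE]
      exact Iff.rfl

theorem conn_transfer (hE : gr n E = G) (hc : G.Connected) :
    Conn (grN E) (List.range n).toFinset := by
  obtain ⟨v⟩ := hc.nonempty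
  refine ⟨⟨v, by simp⟩, fun A hA hne hcl => ?_⟩
  apply Finset.Subset.antisymm hA
  obtain ⟨a, ha⟩ := hne
  have han : a < n := by simpa using hA ha
  intro b hb
  have hbn : b < n := by simpa using hb
  have key : ∀ (u w : Fin n), G.Walk u w → (u : ℕ) ∈ A → (w : ℕ) ∈ A := by
    intro u w p
    induction p with
    | nil => exact fun h => h
    | @cons u v w h p ih =>
      intro hu
      exact ih (hcl u hu v (by simp) ((grN_val hE).2 h))
  obtain ⟨p⟩ := hc.preconnected ⟨a, han⟩ ⟨b, hbn⟩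
  exact key _ _ p ha

theorem near_transfer (hE : gr n E = G) (hb : Bd n E) (hc : G.Connected) {m : ℕ} {y : Fin n} :
    ∀ {x : Fin n}, Near (grN E) m x y → G.dist x y ≤ m := by
  induction m with
  | zero =>
    intro x h
    have : x = y := Fin.ext h
    rw [this]; simp
  | succ m ih =>
    intro x h
    rcases h with h | ⟨z, h1, h2⟩
    · exact (ih h).trans (Nat.le_succ m)
    · obtain ⟨_, hz⟩ := lt_of_adj hb h1
      have h3 : G.Adj x ⟨z, hz⟩ := (grN_val (b := ⟨z, hz⟩) hE).1 h1
      have h4 : G.dist ⟨z, hz⟩ y ≤ m := ih (x := ⟨z, hz⟩) h2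
      have h5 := hc.dist_triangle (u := x) (v := ⟨z, hz⟩) (w := y)
      rw [SimpleGraph.dist_eq_one_iff_adj.2 h3] at h5
      omega

/-- The output of the algorithm presents a path of small eccentricity. -/
theorem algo_spec (m n : ℕ) (G : SimpleGraph (Fin n)) (hc : G.Connected)
    (h1 : IsEmpty (S (m + 1) ↪g G)) (h2 : IsEmpty (T (m + 1) ↪g G)) :
    ∃ (u v : Fin n) (p : G.Walk u v), p.IsPath ∧ (∀ x, ∃ y ∈ p.support, G.dist x y < m + 1) ∧
      algo m (encode G) = encSeq (p.support.map Fin.val) := by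
  set E := edgesOf n (encode G) with hEdef
  have hE : gr n E = G := gr_edgesOf G
  have hb : Bd n E := bd_edgesOf _
  have hn : (List.range n).Nodup := List.nodup_range
  obtain ⟨r1, r2, r3, r4⟩ := red_spec (m := m) hn (conn_transfer hE hc) (bad_transfer hE h1 h2)
  set D := redD E m (List.range n) with hD
  have hDn : D.Nodup := r1.nodup hn
  obtain ⟨p1, p2, p3⟩ := hamPath_spec hDn r2 r3
  set L := hamPath E D with hL
  have hlt : ∀ a ∈ L, a < n := fun a ha => by
    have := r1.subset ((p2 a).1 ha)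
    simpa using this
  obtain ⟨L', hL'⟩ : ∃ L' : List (Fin n), L'.map Fin.val = L :=
    ⟨L.pmap (fun a h => (⟨a, h⟩ : Fin n)) hlt, by rw [List.map_pmap]; simp⟩
  have hne : L' ≠ [] := by
    rintro rfl
    obtain ⟨d, hd⟩ := r2.1
    rw [List.mem_toFinset, ← p2, ← hL'] at hd
    simp at hd
  have hch : L'.IsChain G.Adj := by
    rw [← hL', List.isChain_map] at p3
    exact p3.imp (fun a b h => (grN_val hE).1 h)
  have hnd : L'.Nodup := by
    rw [← hL'] at p1
    exact List.Nodup.of_map _ p1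
  refine ⟨_, _, SimpleGraph.Walk.ofSupport L' hne hch, ?_, ?_, ?_⟩
  · rw [SimpleGraph.Walk.isPath_def, SimpleGraph.Walk.support_ofSupport]
    exact hnd
  · intro x
    obtain ⟨y, hy, hxy⟩ := r4 x (by simp)
    have hy' : y ∈ L'.map Fin.val := by rw [hL']; exact (p2 y).2 hy
    obtain ⟨z, hz, rfl⟩ := List.mem_map.1 hy'
    refine ⟨z, by rw [SimpleGraph.Walk.support_ofSupport]; exact hz, ?_⟩
    exact Nat.lt_succ_of_le (near_transfer hE hb hc hxy)
  · rw [SimpleGraph.Walk.support_ofSupport, hL']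
    unfold algo
    rw [lead_encode]

end Pool.Agent.H52.PE
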